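import Pool.Agent.N906.RS.Stm

/-!
# Project RS (helper906), part CELL: the gap principle in cells of the projective line
-/

set_option autoImplicit false
set_option linter.unusedSectionVars false

namespace Pool.Agent.N711.RS

open NumberField IsDedekindDomain Finset Pool.Agent.H691R3 Pool.Agent.W223.AK
open Pool.Agent.N906.RS

variable {K : Type} [Field K] [NumberField K]

/-! ### Finite places -/

theorem fin_le {x y : K} {P Q D : Fin 3 → Idl K} (hP : IsP ∅ x P) (hQ : IsP ∅ y Q)
    (hD : ∀ l, D l ≤ P l) (hD' : ∀ l, D l ≤ Q l) (v : Pr K) (l : Fin 3) :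
    fv v (x - y) ≤ max (fv v x) 1 * max (fv v y) 1 * (Nv v) ^ (-(D l v : ℤ)) := by
  have hN := Nv_one_lt v
  set n : ℝ := (Nv v) ^ (-(D l v : ℤ)) with hn
  have hn0 : 0 < n := zpow_pos (Nv_pos v) _
  set M : ℝ := max (fv v x) 1 with hM
  set M' : ℝ := max (fv v y) 1 with hM'
  have hM1 : 1 ≤ M := le_max_right _ _
  have hM1' : 1 ≤ M' := le_max_right _ _
  have hx : fv v (L l x) ≤ M * n := by
    rw [hP.val l v (Finset.notMem_empty v)]
    refine mul_le_mul_of_nonneg_left ?_ (by linarith)
    exact zpow_le_zpow_right₀ hN.le (by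
      have := hD l v
      omega)
  have hy : fv v (L l y) ≤ M' * n := by
    rw [hQ.val l v (Finset.notMem_empty v)]
    refine mul_le_mul_of_nonneg_left ?_ (by linarith)
    exact zpow_le_zpow_right₀ hN.le (by
      have := hD' l v
      omega)
  have h1 : M * n ≤ M * M' * n := by
    have := mul_le_mul_of_nonneg_left hM1' (show 0 ≤ M * n by positivity)
    linarith
  have h2 : M' * n ≤ M * M' * n := by
    have := mul_le_mul_of_nonneg_left hM1 (show 0 ≤ M' * n by positivity)
    linarith
  have key : ∀ a b : K, x - y = a + -b → fv v a ≤ M * n → fv v b ≤ M' * n →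
      fv v (x - y) ≤ M * M' * n := by
    intro a b hab ha hb
    rw [hab]
    refine (fv_na v a (-b)).trans (max_le (ha.trans h1) ?_)
    rw [map_neg_eq_map]
    exact hb.trans h2
  fin_cases l
  · exact key x y (by ring) hx hy
  · have hx1 : 1 ≤ M * n := by
      have : fv v (L 1 x) = 1 := map_one _
      rw [← this]; exact hx
    have hy1 : 1 ≤ M' * n := by
      have : fv v (L 1 y) = 1 := map_one _
      rw [← this]; exact hy
    have h3 : x - y = x + -y := by ring
    rw [h3]
    refine (fv_na v x (-y)).trans (max_le ?_ ?_)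
    · calc fv v x ≤ M * 1 := by rw [mul_one]; exact le_max_left _ _
        _ ≤ M * (M' * n) := mul_le_mul_of_nonneg_left hy1 (by linarith)
        _ = _ := by ring
    · rw [map_neg_eq_map]
      calc fv v y ≤ M' * 1 := by rw [mul_one]; exact le_max_left _ _
        _ ≤ M' * (M * n) := mul_le_mul_of_nonneg_left hx1 (by linarith)
        _ = _ := by ring
  · exact key (x + 1) (y + 1) (by ring) hx hy

theorem fin_log {x y : K} {P Q D : Fin 3 → Idl K} (hP : IsP ∅ x P) (hQ : IsP ∅ y Q)
    (hD : ∀ l, D l ≤ P l) (hD' : ∀ l, D l ≤ Q l) (hxy : x ≠ y) (v : Pr K) :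
    Real.log (fv v (x - y)) ≤ Real.log (max (fv v x) 1) + Real.log (max (fv v y) 1) -
      ∑ l, (D l v : ℝ) * Real.log (Nv v) := by
  have hM1 : 0 < max (fv v x) 1 := lt_max_of_lt_right one_pos
  have hM1' : 0 < max (fv v y) 1 := lt_max_of_lt_right one_pos
  have h0 : 0 < fv v (x - y) := (fv v).pos (sub_ne_zero.2 hxy)
  have h1 : ∀ l, Real.log (fv v (x - y)) ≤ Real.log (max (fv v x) 1) +
      Real.log (max (fv v y) 1) - (D l v : ℝ) * Real.log (Nv v) := by
    intro l
    have h2 := Real.log_le_log h0 (fin_le hP hQ hD hD' v l)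
    rw [Real.log_mul (mul_pos hM1 hM1').ne' (zpow_pos (Nv_pos v) _).ne',
      Real.log_mul hM1.ne' hM1'.ne', Real.log_zpow] at h2
    push_cast at h2
    linarith
  -- at most one of the `D l v` is nonzero
  have h3 : ∀ l l', l ≠ l' → D l v = 0 ∨ D l' v = 0 := by
    intro l l' hl
    rcases hP.cop hl v with h4 | h4
    · left
      have := hD l v
      omega
    · right
      have := hD l' v
      omega
  obtain ⟨l, hl⟩ : ∃ l, ∀ l', l' ≠ l → D l' v = 0 := by
    by_cases h4 : ∃ l, D l v ≠ 0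
    · obtain ⟨l, hl⟩ := h4
      exact ⟨l, fun l' hl' => (h3 l' l hl').resolve_right hl⟩
    · push Not at h4
      exact ⟨0, fun l' _ => h4 l'⟩
  rw [Finset.sum_eq_single l]
  · exact h1 l
  · intro l' _ hl'
    rw [hl l' hl', Nat.cast_zero, zero_mul]
  · intro h
    exact absurd (mem_univ l) h

/-- the product formula -/
theorem glob {x y : K} {P Q D : Fin 3 → Idl K} (hx : Pt x) (hy : Pt y) (hP : IsP ∅ x P)
    (hQ : IsP ∅ y Q) (hD : ∀ l, D l ≤ P l) (hD' : ∀ l, D l ≤ Q l) (hxy : x ≠ y) :
    tl D - ht x - ht y ≤ ∑ w : InfinitePlace K, (w.mult : ℝ) * (Real.log (w (x - y)) -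
      Real.log (max (w x) 1) - Real.log (max (w y) 1)) := by
  classical
  have hxy' : x - y ≠ 0 := sub_ne_zero.2 hxy
  set s : Finset (Pr K) := (((fv_support_finite hx.1).toFinset ∪
    (fv_support_finite hy.1).toFinset) ∪ (fv_support_finite hxy').toFinset) ∪
    (univ : Finset (Fin 3)).biUnion (fun l => (D l).support) with hs
  have hmem : ∀ v, v ∉ s → fv v x = 1 ∧ fv v y = 1 ∧ fv v (x - y) = 1 := by
    intro v hv
    rw [hs] at hv
    simp only [Finset.mem_union, Set.Finite.mem_toFinset, Set.mem_ofPred_eq, not_or, not_not] at hv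
    exact ⟨hv.1.1.1, hv.1.1.2, hv.1.2⟩
  have hd : Disjoint (∅ : Finset (Pr K)) s := Finset.disjoint_empty_left _
  have h1 := product_formula ∅ hxy' s (fun v _ hv => (hmem v hv).2.2) hd
  have h2 := ht_eq ∅ x s (fun v _ hv => (hmem v hv).1.le) hd
  have h3 := ht_eq ∅ y s (fun v _ hv => (hmem v hv).2.1.le) hd
  rw [sum_Spl, Finset.sum_empty, add_zero] at h1 h2 h3
  simp only [mt_inl, av_inl] at h1 h2 h3
  have h4 : tl D = ∑ v ∈ s, ∑ l, (D l v : ℝ) * Real.log (Nv v) := by
    unfold tl
    rw [Finset.sum_comm]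
    refine Finset.sum_congr rfl fun l _ => len_eq_sum ?_
    intro v hv
    rw [hs]
    exact Finset.mem_union_right _ (Finset.mem_biUnion.2 ⟨l, mem_univ l, hv⟩)
  have h5 : ∑ v ∈ s, Real.log (fv v (x - y)) ≤ ∑ v ∈ s, (Real.log (max (fv v x) 1) +
      Real.log (max (fv v y) 1) - ∑ l, (D l v : ℝ) * Real.log (Nv v)) :=
    Finset.sum_le_sum fun v _ => fin_log hP hQ hD hD' hxy v
  rw [Finset.sum_sub_distrib, Finset.sum_add_distrib, ← h4] at h5
  have h6 : ∑ w : InfinitePlace K, (w.mult : ℝ) * (Real.log (w (x - y)) -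
      Real.log (max (w x) 1) - Real.log (max (w y) 1)) =
      ∑ w : InfinitePlace K, (w.mult : ℝ) * Real.log (w (x - y)) -
      ∑ w : InfinitePlace K, (w.mult : ℝ) * Real.log (max (w x) 1) -
      ∑ w : InfinitePlace K, (w.mult : ℝ) * Real.log (max (w y) 1) := by
    rw [← Finset.sum_sub_distrib, ← Finset.sum_sub_distrib]
    refine Finset.sum_congr rfl fun w _ => by ring
  rw [h6]
  linarith

/-! ### Charts at the infinite places -/

open scoped Classical in
/-- the chart -/
noncomputable def zt (w : InfinitePlace K) (x : K) : K := if w x ≤ 1 then x else x⁻¹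

/-- the zero of a form in the chart -/
def zp (K : Type) [Field K] (l : Fin 3) : K := ![0, 0, -1] l

theorem chart {w : InfinitePlace K} {x y : K} (h : w x ≤ 1 ↔ w y ≤ 1) :
    w (x - y) = w (zt w x - zt w y) * (max (w x) 1 * max (w y) 1) := by
  classical
  unfold zt
  by_cases hx : w x ≤ 1
  · have hy := h.1 hx
    rw [if_pos hx, if_pos hy, max_eq_right hx, max_eq_right hy, mul_one, mul_one]
  · have hy : ¬ w y ≤ 1 := fun hy => hx (h.2 hy)
    rw [if_neg hx, if_neg hy]
    push Not at hx hy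
    rw [max_eq_left hx.le, max_eq_left hy.le]
    have hx0 : x ≠ 0 := by
      rintro rfl
      rw [map_zero] at hx
      linarith
    have hy0 : y ≠ 0 := by
      rintro rfl
      rw [map_zero] at hy
      linarith
    have e : x⁻¹ - y⁻¹ = (y - x) / (x * y) := by
      field_simp
    have e2 : w (y - x) = w (x - y) := w.1.map_sub y x
    rw [e, map_div₀, map_mul, e2]
    have h1 : w x ≠ 0 := by linarith
    have h2 : w y ≠ 0 := by linarith
    field_simp

theorem chart_close {w : InfinitePlace K} {x : K} (hx : Pt x) (l : Fin 3) {ρ : ℝ}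
    (h : w (L l x) ≤ ρ * max (w x) 1) (hρ : ρ ≤ 1) : w (zt w x - zp K l) ≤ ρ := by
  classical
  unfold zt
  by_cases h1 : w x ≤ 1
  · rw [if_pos h1]
    rw [max_eq_right h1, mul_one] at h
    fin_cases l
    · show w (x - 0) ≤ ρ
      rw [sub_zero]; exact h
    · show w (x - 0) ≤ ρ
      rw [sub_zero]
      have h2 : w (L 1 x) = 1 := map_one _
      have h3 : (1 : ℝ) ≤ ρ := by rw [← h2]; exact h
      linarith
    · show w (x - -1) ≤ ρ
      rw [sub_neg_eq_add]; exact h
  · rw [if_neg h1]
    push Not at h1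
    have hw0 : 0 < w x := by linarith
    rw [max_eq_left h1.le] at h
    fin_cases l
    · show w (x⁻¹ - 0) ≤ ρ
      rw [sub_zero, map_inv₀]
      have h2 : w x ≤ ρ * w x := h
      have h3 : 1 ≤ ρ := by
        by_contra hc
        push Not at hc
        nlinarith
      exact (inv_le_one_of_one_le₀ h1.le).trans h3
    · show w (x⁻¹ - 0) ≤ ρ
      rw [sub_zero, map_inv₀]
      have h2 : w (L 1 x) = 1 := map_one _
      have h3 : (1 : ℝ) ≤ ρ * w x := by rw [← h2]; exact h
      rw [inv_le_iff_one_le_mul₀ hw0]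
      exact h3
    · show w (x⁻¹ - -1) ≤ ρ
      have e : x⁻¹ - -1 = (x + 1) / x := by
        have := hx.1
        field_simp
        ring
      rw [e, map_div₀, div_le_iff₀ hw0]
      exact h

open scoped Classical in
/-- the cell of a point -/
noncomputable def cel (w : InfinitePlace K) (l : Fin 3) (r : ℝ) (x : K) : Bool × ℤ × ℤ :=
  (decide (w x ≤ 1), ⌊(w.embedding (zt w x - zp K l)).re / r⌋,
    ⌊(w.embedding (zt w x - zp K l)).im / r⌋)

theorem abs_lt_of_floor {a b r : ℝ} (hr : 0 < r) (h : ⌊a / r⌋ = ⌊b / r⌋) : |a - b| < r := by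
  have h1 := Int.abs_sub_lt_one_of_floor_eq_floor h
  rw [← sub_div, abs_div, abs_of_pos hr, div_lt_one hr] at h1
  exact h1

theorem cel_eq {w : InfinitePlace K} {l : Fin 3} {r : ℝ} {x y : K} (hr : 0 < r)
    (h : cel w l r x = cel w l r y) :
    w (x - y) ≤ 2 * r * (max (w x) 1 * max (w y) 1) := by
  classical
  unfold cel at h
  rw [Prod.mk.injEq, Prod.mk.injEq] at h
  obtain ⟨h1, h2, h3⟩ := h
  have h1' : w x ≤ 1 ↔ w y ≤ 1 := by
    rw [decide_eq_decide] at h1
    exact h1
  rw [chart h1']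
  refine mul_le_mul_of_nonneg_right ?_ (by positivity)
  have h4 : w (zt w x - zt w y) = ‖w.embedding (zt w x - zt w y)‖ :=
    (InfinitePlace.norm_embedding_eq w _).symm
  rw [h4]
  refine (Complex.norm_le_abs_re_add_abs_im _).trans ?_
  have e : w.embedding (zt w x - zt w y) = w.embedding (zt w x - zp K l) -
      w.embedding (zt w y - zp K l) := by
    rw [← map_sub]
    congr 1
    ring
  rw [e, Complex.sub_re, Complex.sub_im]
  have h5 := abs_lt_of_floor hr h2
  have h6 := abs_lt_of_floor hr h3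
  linarith

open scoped Classical in
/-- the indices of the cells -/
noncomputable def box (w : InfinitePlace K) (m : ℕ) : Finset (Bool × ℤ × ℤ) :=
  (univ : Finset Bool) ×ˢ (Finset.Icc (-(m : ℤ)) m ×ˢ
    (if w.IsReal then ({0} : Finset ℤ) else Finset.Icc (-(m : ℤ)) m))

theorem floor_mem {a r ρ : ℝ} {m : ℕ} (hr : 0 < r) (ha : |a| ≤ ρ) (hm : ρ ≤ m * r) :
    ⌊a / r⌋ ∈ Finset.Icc (-(m : ℤ)) m := by
  rw [abs_le] at ha
  rw [Finset.mem_Icc]
  constructor
  · rw [Int.le_floor, le_div_iff₀ hr]
    push_cast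
    linarith
  · have h1 : (⌊a / r⌋ : ℝ) ≤ a / r := Int.floor_le _
    have h2 : a / r ≤ m := by
      rw [div_le_iff₀ hr]
      linarith
    exact_mod_cast h1.trans h2

theorem cel_mem {w : InfinitePlace K} {l : Fin 3} {r ρ : ℝ} {x : K} {m : ℕ} (hr : 0 < r)
    (h : w (zt w x - zp K l) ≤ ρ) (hm : ρ ≤ m * r) : cel w l r x ∈ box w m := by
  classical
  have h1 : ‖w.embedding (zt w x - zp K l)‖ ≤ ρ := by
    rw [InfinitePlace.norm_embedding_eq]
    exact h
  have h2 := (Complex.abs_re_le_norm _).trans h1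
  have h3 := (Complex.abs_im_le_norm _).trans h1
  unfold cel box
  rw [Finset.mem_product, Finset.mem_product]
  refine ⟨Finset.mem_univ _, floor_mem hr h2 hm, ?_⟩
  split_ifs with hw
  · rw [Finset.mem_singleton]
    have h4 : (w.embedding (zt w x - zp K l)).im = 0 := by
      rw [← InfinitePlace.embedding_of_isReal_apply hw]
      exact Complex.ofReal_im _
    show ⌊(w.embedding (zt w x - zp K l)).im / r⌋ = 0
    rw [h4, zero_div, Int.floor_zero]
  · exact floor_mem hr h3 hm

theorem card_box (w : InfinitePlace K) (m : ℕ) :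
    ((box w m).card : ℝ) ≤ (2 * (2 * (m : ℝ) + 1)) ^ w.mult := by
  classical
  have h1 : (Finset.Icc (-(m : ℤ)) m).card = 2 * m + 1 := by
    rw [Int.card_Icc]
    omega
  have hm : (0 : ℝ) ≤ m := Nat.cast_nonneg m
  unfold box
  rw [Finset.card_product, Finset.card_product, h1, Finset.card_univ, Fintype.card_bool]
  unfold InfinitePlace.mult
  split_ifs with hw
  · rw [Finset.card_singleton]
    push_cast
    rw [pow_one, mul_one]
  · rw [h1]
    push_cast
    nlinarith

/-! ### Conclusion -/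

/-- **the gap principle in cells** -/
theorem cell (K : Type) [Field K] [NumberField K] : S_CELL K := by
  classical
  set d : ℕ := Module.finrank ℚ K with hd
  have hd0 : 0 < d := Module.finrank_pos
  have hdR : (0 : ℝ) < d := by exact_mod_cast hd0
  have hsum : ∑ w : InfinitePlace K, w.mult = d := InfinitePlace.sum_mult_eq
  refine ⟨80 ^ d, by positivity, fun X D τ s F hX hs hF => ?_⟩
  set U : ℝ := 2 * X - tl D - ∑ w, s w with hU
  set Λ : ℝ := 1 + 4 * Real.exp (U / d) with hΛ
  have hexp : 0 < Real.exp (U / d) := Real.exp_pos _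
  have hΛ1 : 1 ≤ Λ := by rw [hΛ]; linarith
  have hΛ0 : 0 < Λ := by linarith
  set ρ : InfinitePlace K → ℝ := fun w => Real.exp (-(s w) / w.mult) with hρ
  have hρ0 : ∀ w, 0 < ρ w := fun w => Real.exp_pos _
  have hmul : ∀ w : InfinitePlace K, (0 : ℝ) < w.mult := fun w => by
    exact_mod_cast InfinitePlace.mult_pos
  have hρ1 : ∀ w, ρ w ≤ 1 := by
    intro w
    rw [hρ]
    simp only
    rw [Real.exp_le_one_iff]
    exact div_nonpos_of_nonpos_of_nonneg (by linarith [hs w]) (hmul w).le
  set r : InfinitePlace K → ℝ := fun w => ρ w / Λ with hr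
  have hr0 : ∀ w, 0 < r w := fun w => div_pos (hρ0 w) hΛ0
  set m : ℕ := ⌈Λ⌉₊ with hm
  have hm1 : Λ ≤ m := Nat.le_ceil _
  have hm2 : (m : ℝ) ≤ Λ + 1 := (Nat.ceil_lt_add_one hΛ0.le).le
  have hρr : ∀ w, ρ w ≤ m * r w := by
    intro w
    rw [hr]
    simp only
    rw [mul_div_assoc', le_div_iff₀ hΛ0]
    nlinarith [hρ0 w]
  -- the cells
  have hmem : ∀ x ∈ F, (fun w => cel w (τ w) (r w) x) ∈ Fintype.piFinset (fun w => box w m) := by
    intro x hx
    obtain ⟨hpt, _, hlm, _⟩ := hF x hx
    rw [Fintype.mem_piFinset]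
    intro w
    refine cel_mem (hr0 w) (chart_close hpt (τ w) ?_ (hρ1 w)) (hρr w)
    have h1 := hlm w
    unfold lm at h1
    rw [mt_inl, av_inl, av_inl] at h1
    have hL : 0 < w (L (τ w) x) := by
      have := (av (Sum.inl w : Pl K)).pos (L_ne hpt (τ w))
      exact this
    have hM : 0 < max (w x) 1 := lt_max_of_lt_right one_pos
    have h2 : s w / w.mult ≤ Real.log (max (w x) 1 / w (L (τ w) x)) := by
      rw [div_le_iff₀ (hmul w)]
      linarith
    have h3 : Real.exp (s w / w.mult) ≤ max (w x) 1 / w (L (τ w) x) := by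
      rw [← Real.le_log_iff_exp_le (by positivity)]
      exact h2
    rw [le_div_iff₀ hL] at h3
    have h4 : ρ w * Real.exp (s w / w.mult) = 1 := by
      rw [hρ]
      simp only
      rw [← Real.exp_add, neg_div, neg_add_cancel, Real.exp_zero]
    calc w (L (τ w) x) = ρ w * (Real.exp (s w / w.mult) * w (L (τ w) x)) := by
          rw [← mul_assoc, h4, one_mul]
      _ ≤ ρ w * max (w x) 1 := mul_le_mul_of_nonneg_left h3 (hρ0 w).le
  have hinj : Set.InjOn (fun x => fun w => cel w (τ w) (r w) x) (F : Set K) := by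
    intro x hx y hy hxy
    by_contra hne
    obtain ⟨hpx, hhx, _, P, hP, hDP⟩ := hF x hx
    obtain ⟨hpy, hhy, _, Q, hQ, hDQ⟩ := hF y hy
    have h1 := glob hpx hpy hP hQ hDP hDQ hne
    have h2 : ∀ w : InfinitePlace K, (w.mult : ℝ) * (Real.log (w (x - y)) -
        Real.log (max (w x) 1) - Real.log (max (w y) 1)) ≤
        (w.mult : ℝ) * Real.log (2 / Λ) - s w := by
      intro w
      have h3 := cel_eq (hr0 w) (congrFun hxy w)
      have hM : 0 < max (w x) 1 := lt_max_of_lt_right one_pos
      have hM' : 0 < max (w y) 1 := lt_max_of_lt_right one_pos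
      have h4 : 0 < w (x - y) := by
        have := (av (Sum.inl w : Pl K)).pos (sub_ne_zero.2 hne)
        exact this
      have h5 := Real.log_le_log h4 h3
      have h6 : 0 < 2 * r w := by have := hr0 w; positivity
      rw [Real.log_mul h6.ne' (mul_pos hM hM').ne', Real.log_mul hM.ne' hM'.ne'] at h5
      have h7 : 2 * r w = (2 / Λ) * ρ w := by
        rw [hr]
        simp only
        ring
      have h8 : Real.log (2 * r w) = Real.log (2 / Λ) - s w / w.mult := by
        rw [h7, Real.log_mul (by positivity) (hρ0 w).ne', hρ]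
        simp only
        rw [Real.log_exp]
        ring
      rw [h8] at h5
      have h9 : Real.log (w (x - y)) - Real.log (max (w x) 1) - Real.log (max (w y) 1) ≤
          Real.log (2 / Λ) - s w / w.mult := by linarith
      have h10 := mul_le_mul_of_nonneg_left h9 (hmul w).le
      have e : (w.mult : ℝ) * (Real.log (2 / Λ) - s w / w.mult) =
          w.mult * Real.log (2 / Λ) - s w := by
        rw [mul_sub, mul_div_cancel₀ _ (hmul w).ne']
      rw [e] at h10
      exact h10
    have h3 := Finset.sum_le_sum fun w (_ : w ∈ (univ : Finset (InfinitePlace K))) => h2 w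
    rw [Finset.sum_sub_distrib, ← Finset.sum_mul] at h3
    have h4 : (∑ w : InfinitePlace K, (w.mult : ℝ)) = d := by
      rw [← hsum]
      push_cast
      rfl
    rw [h4] at h3
    have h5 : Real.log (2 / Λ) < -(U / d) := by
      rw [Real.log_lt_iff_lt_exp (by positivity), Real.exp_neg, div_lt_iff₀ hΛ0, hΛ]
      have h6 : (Real.exp (U / d))⁻¹ * (1 + 4 * Real.exp (U / d)) = (Real.exp (U / d))⁻¹ + 4 := by
        field_simp
      rw [h6]
      have : 0 < (Real.exp (U / d))⁻¹ := by positivity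
      linarith
    have h6 : (d : ℝ) * Real.log (2 / Λ) < -U := by
      have h7 := mul_lt_mul_of_pos_left h5 hdR
      have h8 : (d : ℝ) * -(U / d) = -U := by field_simp
      rw [h8] at h7
      exact h7
    linarith
  have hcard : F.card ≤ (Fintype.piFinset (fun w : InfinitePlace K => box w m)).card :=
    Finset.card_le_card_of_injOn _ (fun x hx => hmem x hx) hinj
  rw [Fintype.card_piFinset] at hcard
  have h1 : (F.card : ℝ) ≤ ∏ w : InfinitePlace K, ((box w m).card : ℝ) := by
    exact_mod_cast hcard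
  have h2 : ∏ w : InfinitePlace K, ((box w m).card : ℝ) ≤
      ∏ w : InfinitePlace K, (10 * Λ) ^ w.mult := by
    refine Finset.prod_le_prod (fun _ _ => Nat.cast_nonneg _) fun w _ => (card_box w m).trans ?_
    refine pow_le_pow_left₀ (by positivity) ?_ _
    linarith
  rw [Finset.prod_pow_eq_pow_sum, hsum] at h2
  have h3 : Λ ^ d ≤ 2 ^ d * (4 ^ d * (Real.exp U + 1)) := by
    have h4 := add_pow_le (show (0 : ℝ) ≤ 1 by norm_num)
      (show 0 ≤ 4 * Real.exp (U / d) by positivity) d
    rw [one_pow, mul_pow, ← Real.exp_nat_mul, mul_div_cancel₀ _ hdR.ne'] at h4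
    refine h4.trans ?_
    have h5 : (2 : ℝ) ^ (d - 1) ≤ 2 ^ d := pow_le_pow_right₀ (by norm_num) (Nat.sub_le _ _)
    have h6 : (1 : ℝ) ≤ 4 ^ d := one_le_pow₀ (by norm_num)
    have h7 := Real.exp_pos U
    have h8 : 1 + 4 ^ d * Real.exp U ≤ 4 ^ d * (Real.exp U + 1) := by linarith
    exact mul_le_mul h5 h8 (by positivity) (by positivity)
  refine (h1.trans h2).trans ?_
  rw [mul_pow]
  have h4 := mul_le_mul_of_nonneg_left h3 (show (0 : ℝ) ≤ 10 ^ d by positivity)
  refine h4.trans (le_of_eq ?_)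
  have h5 : (80 : ℝ) ^ d = 10 ^ d * (2 ^ d * 4 ^ d) := by
    rw [← mul_pow, ← mul_pow]
    norm_num
  rw [h5]
  ring

end Pool.Agent.N711.RS
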