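import Pool.Agent.N639.FS.Stm
import Pool.Agent.Y933.KD.Leb2

/-!
# Project FS (helper639), part L5: binomial moments of the occurrences of words without large overlaps
-/

set_option autoImplicit false

namespace Pool.Agent.N711.FSL5

open Finset Real MeasureTheory Filter Topology
open Pool.Agent.Y933.KD
open Pool.Agent.N639.FS

/-! ### Separated sets and close pairs -/

/-- separated sets -/
def Sep (w : ℕ) (T : Finset ℕ) : Prop := ∀ n ∈ T, ∀ m ∈ T, n < m → n + w ≤ m

/-- close pairs -/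
def cp (w : ℕ) (S : Finset ℕ) : Finset (ℕ × ℕ) :=
  (S ×ˢ S).filter (fun p => p.1 < p.2 ∧ p.2 < p.1 + w)

lemma mem_cp {w : ℕ} {S : Finset ℕ} {p : ℕ × ℕ} :
    p ∈ cp w S ↔ (p.1 ∈ S ∧ p.2 ∈ S) ∧ p.1 < p.2 ∧ p.2 < p.1 + w := by
  unfold cp
  rw [mem_filter, mem_product]

lemma card_cp (w : ℕ) (S : Finset ℕ) : (cp w S).card ≤ S.card * w := by
  have h0 : (S ×ˢ range w).card = S.card * w := by rw [card_product, card_range]
  rw [← h0]
  refine card_le_card_of_injOn (fun p => (p.1, p.2 - p.1)) ?_ ?_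
  · intro p hp
    have hp' := mem_cp.1 (mem_coe.1 hp)
    refine mem_coe.2 (mem_product.2 ⟨hp'.1.1, mem_range.2 ?_⟩)
    show p.2 - p.1 < w
    omega
  · intro p hp p' hp' h
    have h1 := mem_cp.1 (mem_coe.1 hp)
    have h2 := mem_cp.1 (mem_coe.1 hp')
    have h' : (p.1, p.2 - p.1) = (p'.1, p'.2 - p'.1) := h
    obtain ⟨h3, h4⟩ := Prod.mk.inj h'
    refine Prod.ext h3 ?_
    omega

open scoped Classical in
lemma card_nonsep (w j : ℕ) (S : Finset ℕ) :
    ((S.powersetCard j).filter (fun T => ¬ Sep w T)).card ≤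
      (cp w S).card * S.card ^ (j - 2) := by
  have h1 : (S.powersetCard j).filter (fun T => ¬ Sep w T) ⊆
      (cp w S).biUnion (fun p => (S.powersetCard j).filter (fun T => p.1 ∈ T ∧ p.2 ∈ T)) := by
    intro T hT
    rw [mem_filter] at hT
    obtain ⟨hT1, hT2⟩ := hT
    unfold Sep at hT2
    push Not at hT2
    obtain ⟨n, hn, m, hm, hnm, hmn⟩ := hT2
    have hTS := (mem_powersetCard.1 hT1).1
    rw [mem_biUnion]
    exact ⟨(n, m), mem_cp.2 ⟨⟨hTS hn, hTS hm⟩, hnm, hmn⟩, mem_filter.2 ⟨hT1, hn, hm⟩⟩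
  refine (card_le_card h1).trans (card_biUnion_le.trans ?_)
  rw [← smul_eq_mul]
  refine sum_le_card_nsmul _ _ _ fun p hp => ?_
  have hp' := mem_cp.1 hp
  have h2 : ((S.powersetCard j).filter (fun T => p.1 ∈ T ∧ p.2 ∈ T)).card ≤
      (S.powersetCard (j - 2)).card := by
    refine card_le_card_of_injOn (fun T => (T.erase p.1).erase p.2) ?_ ?_
    · intro T hT
      obtain ⟨hT1, hT2, hT3⟩ := mem_filter.1 (mem_coe.1 hT)
      obtain ⟨hT4, hT5⟩ := mem_powersetCard.1 hT1
      refine mem_coe.2 (mem_powersetCard.2 ⟨?_, ?_⟩)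
      · exact ((erase_subset _ _).trans (erase_subset _ _)).trans hT4
      · have h3 : p.2 ∈ T.erase p.1 := mem_erase.2 ⟨by omega, hT3⟩
        rw [card_erase_of_mem h3, card_erase_of_mem hT2, hT5]
        omega
    · intro T hT T' hT' h
      obtain ⟨hT1, hT2, hT3⟩ := mem_filter.1 (mem_coe.1 hT)
      obtain ⟨hT1', hT2', hT3'⟩ := mem_filter.1 (mem_coe.1 hT')
      have h' : (T.erase p.1).erase p.2 = (T'.erase p.1).erase p.2 := h
      have h3 : p.2 ∈ T.erase p.1 := mem_erase.2 ⟨by omega, hT3⟩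
      have h3' : p.2 ∈ T'.erase p.1 := mem_erase.2 ⟨by omega, hT3'⟩
      rw [← insert_erase hT2, ← insert_erase hT2', ← insert_erase h3, ← insert_erase h3', h']
  refine h2.trans ?_
  rw [card_powersetCard]
  exact Nat.choose_le_pow _ _

/-- the binomial coefficient is close to a power -/
lemma choose_near (N i : ℕ) :
    (N : ℝ) ^ (i + 1) - (N.descFactorial (i + 1) : ℝ) ≤ ((i : ℝ) + 1) ^ 2 * (N : ℝ) ^ i := by
  have hN : (0 : ℝ) ≤ N := Nat.cast_nonneg N
  induction i with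
  | zero => simp
  | succ i ih =>
    have h1 : (N.descFactorial (i + 1 + 1) : ℝ) = ((N - (i + 1) : ℕ) : ℝ) *
        (N.descFactorial (i + 1) : ℝ) := by
      rw [Nat.descFactorial_succ]
      push_cast
      rfl
    have h2 : (N : ℝ) - (i + 1) ≤ ((N - (i + 1) : ℕ) : ℝ) := by
      rw [sub_le_iff_le_add]
      have : N ≤ (N - (i + 1)) + (i + 1) := by omega
      exact_mod_cast this
    have h3 : (0 : ℝ) ≤ (N.descFactorial (i + 1) : ℝ) := Nat.cast_nonneg _
    have h4 : (N.descFactorial (i + 1) : ℝ) ≤ (N : ℝ) ^ (i + 1) := by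
      exact_mod_cast Nat.descFactorial_le_pow N (i + 1)
    have h5 := mul_le_mul_of_nonneg_right h2 h3
    have h6 := mul_le_mul_of_nonneg_left ih hN
    have h7 : (0 : ℝ) ≤ (N : ℝ) ^ (i + 1) := by positivity
    have hi : (0 : ℝ) ≤ i := Nat.cast_nonneg i
    rw [h1]
    have e1 : (N : ℝ) ^ (i + 1 + 1) = N * (N : ℝ) ^ (i + 1) := by ring
    have e2 : (N : ℝ) * (((i : ℝ) + 1) ^ 2 * (N : ℝ) ^ i) = ((i : ℝ) + 1) ^ 2 * (N : ℝ) ^ (i + 1) := by
      ring
    rw [e2] at h6
    rw [e1]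
    push_cast
    nlinarith [mul_le_mul_of_nonneg_left h4 (show (0 : ℝ) ≤ (i : ℝ) + 1 by positivity),
      mul_nonneg hi h7]

/-! ### The places at which a word of `W` stands -/

/-- the places `n < N` at which a word of `W` stands -/
noncomputable def oc (b w N : ℕ) (W : Finset ℕ) (x : ℝ) : Finset ℕ :=
  (range N).filter (fun n => wd b w n x ∈ W)

lemma mem_oc {b w N : ℕ} {W : Finset ℕ} {x : ℝ} {n : ℕ} :
    n ∈ oc b w N W x ↔ n < N ∧ wd b w n x ∈ W := by
  unfold oc
  rw [mem_filter, mem_range]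

lemma oc_sub (b w N : ℕ) (W : Finset ℕ) (x : ℝ) : oc b w N W x ⊆ range N := filter_subset _ _

lemma meas_oc (b w N : ℕ) (W T : Finset ℕ) : MeasurableSet {x | oc b w N W x = T} := by
  by_cases hT : T ⊆ range N
  · have h1 : {x | oc b w N W x = T} =
        ⋂ n ∈ range N, {x | wd b w n x ∈ {c : ℕ | c ∈ W ↔ n ∈ T}} := by
      ext x
      simp only [Set.mem_iInter]
      constructor
      · intro h n hn
        have h2 : oc b w N W x = T := h
        show wd b w n x ∈ W ↔ n ∈ T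
        rw [← h2, mem_oc]
        exact ⟨fun h3 => ⟨mem_range.1 hn, h3⟩, fun h3 => h3.2⟩
      · intro h
        show oc b w N W x = T
        ext n
        rw [mem_oc]
        constructor
        · intro h2
          exact (h n (mem_range.2 h2.1)).1 h2.2
        · intro h2
          exact ⟨mem_range.1 (hT h2), (h n (hT h2)).2 h2⟩
    rw [h1]
    refine Finset.measurableSet_biInter _ fun n _ => ?_
    exact (measurable_wd b w n) (MeasurableSet.of_discrete)
  · have h1 : {x | oc b w N W x = T} = ∅ := by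
      ext x
      refine ⟨fun h => ?_, fun h => h.elim⟩
      have h2 : oc b w N W x = T := h
      exact (hT (h2 ▸ oc_sub b w N W x)).elim
    rw [h1]
    exact MeasurableSet.empty

lemma oc_sum (b w N : ℕ) (W : Finset ℕ) (g : Finset ℕ → ℝ) (x : ℝ) :
    g (oc b w N W x) =
      ∑ T ∈ (range N).powerset, g T * ({x | oc b w N W x = T}.indicator (1 : ℝ → ℝ) x) := by
  rw [sum_eq_single (oc b w N W x)]
  · rw [Set.indicator_of_mem (by rfl), Pi.one_apply, mul_one]
  · intro T _ hT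
    rw [Set.indicator_of_notMem, mul_zero]
    intro h
    exact hT (h : oc b w N W x = T).symm
  · intro h
    exact (h (mem_powerset.2 (oc_sub b w N W x))).elim

lemma int_oc (b w N : ℕ) (W : Finset ℕ) (g : Finset ℕ → ℝ) :
    Integrable (fun x => g (oc b w N W x)) Leb := by
  simp only [oc_sum b w N W g]
  refine integrable_finsetSum _ fun T _ => Integrable.const_mul ?_ _
  exact (integrable_const (1 : ℝ)).indicator (meas_oc b w N W T)


/-! ### Separated sets of places -/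

lemma meas_cnd (b w n c : ℕ) : Measurable (cnd b w n c) := by
  unfold cnd
  exact Measurable.ite ((measurable_wd b w n) (MeasurableSet.of_discrete (s := {c})))
    measurable_const measurable_const

lemma P_sep (h1 : St_L1) {b w N : ℕ} {W : Finset ℕ} (hb : 1 ≤ b) (hW : W ⊆ range (b ^ w))
    {T : Finset ℕ} (hT : T ⊆ range N) (hs : Sep w T) :
    ∫ x, (if T ⊆ oc b w N W x then (1 : ℝ) else 0) ∂Leb =
      ((W.card : ℝ) / (b : ℝ) ^ w) ^ T.card := by
  classical
  have hq : 0 < b ^ w := Nat.pos_of_ne_zero (by positivity)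
  -- the extension of a function on `T`
  set ex : (T → ℕ) → ℕ → ℕ := fun p n => if h : n ∈ T then p ⟨n, h⟩ else 0 with hex
  have e1 : ∀ x, (if T ⊆ oc b w N W x then (1 : ℝ) else 0) =
      ∑ p ∈ Fintype.piFinset (fun _ : T => W), ∏ n ∈ T, cnd b w n (ex p n) x := by
    intro x
    have h2 : ∀ p : T → ℕ, ∏ n ∈ T, cnd b w n (ex p n) x = ∏ n : T, cnd b w n (p n) x := by
      intro p
      rw [← prod_coe_sort T (fun n => cnd b w n (ex p n) x)]
      refine prod_congr rfl fun n _ => ?_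
      rw [hex]
      simp only
      rw [dif_pos n.2]
    simp only [h2]
    rw [← prod_univ_sum (fun _ : T => W) (fun (n : T) c => cnd b w n c x)]
    have h3 : ∀ n : T, ∑ c ∈ W, cnd b w n c x = if wd b w n x ∈ W then 1 else 0 := by
      intro n
      unfold cnd
      rw [sum_ite_eq]
    simp only [h3]
    by_cases h : T ⊆ oc b w N W x
    · rw [if_pos h]
      symm
      refine prod_eq_one fun n _ => if_pos (mem_oc.1 (h n.2)).2
    · rw [if_neg h]
      rw [not_subset] at h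
      obtain ⟨n, hn, hn2⟩ := h
      symm
      refine prod_eq_zero (mem_univ (⟨n, hn⟩ : T)) (if_neg fun h4 => hn2 ?_)
      exact mem_oc.2 ⟨mem_range.1 (hT hn), h4⟩
  simp only [e1]
  rw [integral_finsetSum]
  · have h2 : ∀ p ∈ Fintype.piFinset (fun _ : T => W),
        ∫ x, ∏ n ∈ T, cnd b w n (ex p n) x ∂Leb = (1 / (b : ℝ) ^ w) ^ T.card := by
      intro p hp
      rw [Fintype.mem_piFinset] at hp
      refine h1 b w hb T hs (ex p) fun n => ?_
      rw [hex]
      simp only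
      split_ifs with h
      · exact mem_range.1 (hW (hp _))
      · exact hq
    rw [sum_congr rfl h2, sum_const, Fintype.card_piFinset, prod_const, card_univ,
      Fintype.card_coe, nsmul_eq_mul, Nat.cast_pow, ← mul_pow, mul_one_div]
  · intro p _
    refine Integrable.of_bound (C := 1)
      (Finset.measurable_fun_prod _ fun n _ => meas_cnd _ _ _ _).aestronglyMeasurable ?_
    refine Eventually.of_forall fun x => ?_
    rw [Real.norm_eq_abs, Finset.abs_prod]
    refine prod_le_one (fun _ _ => abs_nonneg _) fun n _ => ?_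
    unfold cnd
    split_ifs <;> simp

/-! ### Pairs of close places -/

/-- the digits of two overlapping words -/
lemma overlap {b : ℕ} (hb : 1 ≤ b) {w n d : ℕ} (hd : d ≤ w) {x : ℝ} (hx : 0 ≤ x) :
    wd b w n x % b ^ (w - d) = wd b w (n + d) x / b ^ d := by
  have hb' : (0 : ℝ) < b := by exact_mod_cast hb
  rw [wd_eq_mod hb w n hx, wd_eq_mod hb w (n + d) hx]
  have h1 : ⌊(b : ℝ) ^ (n + w) * x⌋₊ = ⌊(b : ℝ) ^ (n + d + w) * x⌋₊ / b ^ d := by
    rw [← Nat.floor_div_natCast]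
    congr 1
    have e : (b : ℝ) ^ (n + d + w) = (b : ℝ) ^ (n + w) * (b : ℝ) ^ d := by
      rw [← pow_add]; congr 1; omega
    push_cast
    rw [e]
    have : (b : ℝ) ^ d ≠ 0 := by positivity
    field_simp
  have h2 : b ^ w = b ^ d * b ^ (w - d) := by
    rw [← pow_add]; congr 1; omega
  rw [h1, Nat.mod_mod_of_dvd _ (pow_dvd_pow b (Nat.sub_le w d)), h2, Nat.mod_mul_right_div_self]

/-- the first digits of a word -/
lemma first {b : ℕ} (hb : 1 ≤ b) {w n d : ℕ} (hd : d ≤ w) {x : ℝ} (hx : 0 ≤ x) :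
    wd b d n x = wd b w n x / b ^ (w - d) := by
  have hb' : (0 : ℝ) < b := by exact_mod_cast hb
  rw [wd_eq_mod hb w n hx, wd_eq_mod hb d n hx]
  have h1 : ⌊(b : ℝ) ^ (n + d) * x⌋₊ = ⌊(b : ℝ) ^ (n + w) * x⌋₊ / b ^ (w - d) := by
    rw [← Nat.floor_div_natCast]
    congr 1
    have e : (b : ℝ) ^ (n + w) = (b : ℝ) ^ (n + d) * (b : ℝ) ^ (w - d) := by
      rw [← pow_add]; congr 1; omega
    push_cast
    rw [e]
    have : (b : ℝ) ^ (w - d) ≠ 0 := by positivity
    field_simp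
  have h2 : b ^ w = b ^ (w - d) * b ^ d := by
    rw [← pow_add]; congr 1; omega
  rw [h1, h2, Nat.mod_mul_right_div_self]

/-- the probability that a word of a set stands at a place -/
lemma prob_mem {b : ℕ} (hb : 1 ≤ b) (w n : ℕ) (V : Finset ℕ) :
    ∫ x, (if wd b w n x ∈ V then (1 : ℝ) else 0) ∂Leb ≤ V.card / (b : ℝ) ^ w := by
  have hb' : (0 : ℝ) < b := by exact_mod_cast hb
  rw [int_word hb w n (fun c => if c ∈ V then (1 : ℝ) else 0)]
  refine div_le_div_of_nonneg_right ?_ (by positivity)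
  rw [sum_boole]
  refine Nat.cast_le.2 (card_le_card fun c hc => ?_)
  exact (mem_filter.1 hc).2

lemma P_pair {b w N : ℕ} {W : Finset ℕ} (hb : 1 ≤ b) (hno : NoOv b w W) {n m : ℕ} (hnm : n < m)
    (hm : m < n + w) :
    ∫ x, (if n ∈ oc b w N W x ∧ m ∈ oc b w N W x then (1 : ℝ) else 0) ∂Leb ≤
      (W.card : ℝ) ^ 2 / ((b : ℝ) ^ w * √((b : ℝ) ^ w)) := by
  classical
  have hb' : (0 : ℝ) < b := by exact_mod_cast hb
  obtain ⟨d, rfl⟩ : ∃ d, m = n + d := ⟨m - n, by omega⟩
  have hd1 : 1 ≤ d := by omega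
  have hdw : d ≤ w := by omega
  by_cases h2 : 2 * d ≤ w
  · have h3 : ∫ x, (if n ∈ oc b w N W x ∧ n + d ∈ oc b w N W x then (1 : ℝ) else 0) ∂Leb =
        ∫ _x, (0 : ℝ) ∂Leb := by
      refine int_Leb_congr' fun x hx => if_neg ?_
      rintro ⟨h4, h5⟩
      exact hno _ (mem_oc.1 h4).2 _ (mem_oc.1 h5).2 d hd1 h2 (overlap hb hdw hx.1)
    rw [h3, integral_zero]
    positivity
  · have h3 : ∫ x, (if n ∈ oc b w N W x ∧ n + d ∈ oc b w N W x then (1 : ℝ) else 0) ∂Leb ≤
        ∫ x, (if wd b d n x ∈ W.image (fun c => c / b ^ (w - d)) then (1 : ℝ) else 0) *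
          (fun y => if wd b w 0 y ∈ W then (1 : ℝ) else 0) (Tb b (n + d) x) ∂Leb := by
      have h4 : ∫ x, (if n ∈ oc b w N W x ∧ n + d ∈ oc b w N W x then (1 : ℝ) else 0) ∂Leb =
          ∫ x, (if wd b d n x ∈ W.image (fun c => c / b ^ (w - d)) then (1 : ℝ) else 0) *
            (if n ∈ oc b w N W x ∧ n + d ∈ oc b w N W x then (1 : ℝ) else 0) ∂Leb := by
        refine int_Leb_congr' fun x hx => ?_
        by_cases h5 : n ∈ oc b w N W x ∧ n + d ∈ oc b w N W x
        · have h6 : wd b d n x ∈ W.image (fun c => c / b ^ (w - d)) := by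
            rw [first hb hdw hx.1]
            exact mem_image_of_mem _ (mem_oc.1 h5.1).2
          rw [if_pos h5, if_pos h6, mul_one]
        · rw [if_neg h5, mul_zero]
      rw [h4]
      have hm1 : Measurable (fun x => if wd b d n x ∈ W.image (fun c => c / b ^ (w - d)) then
          (1 : ℝ) else 0) :=
        (measurable_of_countable (fun c : ℕ => if c ∈ W.image (fun c => c / b ^ (w - d)) then
          (1 : ℝ) else 0)).comp (measurable_wd b d n)
      have hm2 : Measurable (fun x => if wd b w 0 (Tb b (n + d) x) ∈ W then (1 : ℝ) else 0) :=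
        (measurable_of_countable (fun c : ℕ => if c ∈ W then (1 : ℝ) else 0)).comp
          ((measurable_wd b w 0).comp (measurable_Tb b (n + d)))
      refine integral_mono ?_ ?_ fun x => ?_
      · refine Integrable.bdd_mul (c := 1) (int_oc b w N W
          (fun T => if n ∈ T ∧ n + d ∈ T then (1 : ℝ) else 0)) hm1.aestronglyMeasurable
          (Eventually.of_forall fun x => ?_)
        split_ifs <;> simp
      · refine Integrable.of_bound (C := 1) (hm1.mul hm2).aestronglyMeasurable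
          (Eventually.of_forall fun x => ?_)
        beta_reduce
        split_ifs <;> simp
      · beta_reduce
        refine mul_le_mul_of_nonneg_left ?_ (by split_ifs <;> norm_num)
        rw [← wd_add, Nat.add_zero]
        by_cases h5 : n ∈ oc b w N W x ∧ n + d ∈ oc b w N W x
        · rw [if_pos h5, if_pos (mem_oc.1 h5.2).2]
        · rw [if_neg h5]
          split_ifs <;> norm_num
    refine h3.trans ?_
    have hr := renewal_real hb (p := n + d)
      (A := fun x => if wd b d n x ∈ W.image (fun c => c / b ^ (w - d)) then (1 : ℝ) else 0)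
      (h := fun y => if wd b w 0 y ∈ W then (1 : ℝ) else 0)
      ((dep_wd hb (le_refl (n + d))).comp
      (fun c => if c ∈ W.image (fun c => c / b ^ (w - d)) then (1 : ℝ) else 0))
      ((measurable_of_countable (fun c : ℕ => if c ∈ W then (1 : ℝ) else 0)).comp
        (measurable_wd b w 0)) (C := 1) (fun x => by split_ifs <;> simp)
    rw [hr]
    have h5 := prob_mem hb d n (W.image (fun c => c / b ^ (w - d)))
    have h6 := prob_mem hb w 0 W
    have h7 : ((W.image (fun c => c / b ^ (w - d))).card : ℝ) ≤ W.card := by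
      exact_mod_cast card_image_le
    have h8 : √((b : ℝ) ^ w) ≤ (b : ℝ) ^ d := by
      rw [Real.sqrt_le_left (by positivity), ← pow_mul]
      refine pow_le_pow_right₀ (by exact_mod_cast hb) (by omega)
    have hs : 0 < √((b : ℝ) ^ w) := Real.sqrt_pos.2 (by positivity)
    have h9 : ((W.image (fun c => c / b ^ (w - d))).card : ℝ) / (b : ℝ) ^ d ≤
        W.card / √((b : ℝ) ^ w) := div_le_div₀ (Nat.cast_nonneg _) h7 hs h8
    have h10 : (0 : ℝ) ≤ ∫ x, (if wd b w 0 x ∈ W then (1 : ℝ) else 0) ∂Leb :=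
      integral_nonneg fun x => by
        show (0 : ℝ) ≤ if wd b w 0 x ∈ W then (1 : ℝ) else 0
        split_ifs <;> norm_num
    calc _ ≤ (W.card / √((b : ℝ) ^ w)) * (W.card / (b : ℝ) ^ w) :=
          mul_le_mul (h5.trans h9) h6 h10 (by positivity)
      _ = _ := by
        rw [div_mul_div_comm, sq, mul_comm (√((b : ℝ) ^ w))]

/-! ### Moments of the number of occurrences -/

lemma mom (h2 : St_L2) (r s : ℕ) (hs : 1 ≤ s) (Λ : ℝ) (hΛ : 0 < Λ) : ∃ C : ℝ, 0 ≤ C ∧ ∀ (b w N : ℕ)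
    (W : Finset ℕ), 2 ≤ b → 1 ≤ w → (N : ℝ) ≤ Λ * (b : ℝ) ^ w → W ⊆ range (b ^ w) → W.card = r →
    ∫ x, ((oc b w N W x).card : ℝ) ^ (2 * s) ∂Leb ≤ C * (w : ℝ) ^ (2 * s) := by
  classical
  refine ⟨(r : ℝ) ^ (2 * s) * (2 ^ (2 * s) * (6 * (2 * s).factorial * (Λ + 2) ^ s +
    (Λ + 1) ^ (2 * s))), by positivity, fun b w N W hb hw hN hW hr => ?_⟩
  have hb1 : 1 ≤ b := by omega
  have hb' : (0 : ℝ) < b := by exact_mod_cast hb1
  have hw' : (1 : ℝ) ≤ w := by exact_mod_cast hw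
  set J : ℕ := N / w + 1 with hJ
  have hJN : N ≤ w * J := (Nat.lt_mul_div_succ N hw).le
  have hJ1 : J ≤ N + 1 := by
    rw [hJ]
    exact Nat.add_le_add_right (Nat.div_le_self _ _) 1
  have hJ2 : w * J ≤ N + w := by
    rw [hJ, mul_add, mul_one]
    exact Nat.add_le_add_right (Nat.mul_div_le _ _) w
  have hq1 : (w : ℝ) ≤ (b : ℝ) ^ w := by
    have h3 : w ≤ b ^ w := (Nat.lt_pow_self (by omega)).le
    exact_mod_cast h3
  have hq : (1 : ℝ) ≤ (b : ℝ) ^ w := hw'.trans hq1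
  have hq0 : (0 : ℝ) < (b : ℝ) ^ w := by linarith
  have hμ0 : (0 : ℝ) ≤ ((w * J : ℕ) : ℝ) / (b : ℝ) ^ w := by positivity
  have hμ : ((w * J : ℕ) : ℝ) / (b : ℝ) ^ w ≤ Λ + 1 := by
    rw [div_le_iff₀ hq0]
    have h3 : ((w * J : ℕ) : ℝ) ≤ N + w := by exact_mod_cast hJ2
    linarith
  have hJq : (J : ℝ) / (b : ℝ) ^ w ≤ Λ + 1 := by
    rw [div_le_iff₀ hq0]
    have h3 : (J : ℝ) ≤ N + 1 := by exact_mod_cast hJ1
    linarith
  -- the number of occurrences is at most the sum over the words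
  have hle : ∀ x, ((oc b w N W x).card : ℝ) ≤ ∑ c ∈ W, occ b w (w * J) c x := by
    intro x
    have h3 : ((oc b w N W x).card : ℝ) = ∑ n ∈ range N, ∑ c ∈ W, cnd b w n c x := by
      unfold oc cnd
      rw [card_filter]
      push_cast
      refine sum_congr rfl fun n _ => ?_
      rw [sum_ite_eq]
    rw [h3, sum_comm]
    refine sum_le_sum fun c _ => ?_
    unfold occ
    refine sum_le_sum_of_subset_of_nonneg (range_subset_range.2 hJN) fun n _ _ => ?_
    unfold cnd
    split_ifs <;> norm_num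
  have hocc0 : ∀ c x, 0 ≤ occ b w (w * J) c x := by
    intro c x
    unfold occ cnd
    exact sum_nonneg fun n _ => by split_ifs <;> norm_num
  -- every word
  have hone : ∀ c ∈ W, ∫ x, occ b w (w * J) c x ^ (2 * s) ∂Leb ≤
      2 ^ (2 * s) * (6 * (2 * s).factorial * (Λ + 2) ^ s + (Λ + 1) ^ (2 * s)) *
        (w : ℝ) ^ (2 * s) := by
    intro c hc
    have h3 : ∀ x, occ b w (w * J) c x ^ (2 * s) ≤ 2 ^ (2 * s) *
        ((occ b w (w * J) c x - (w * J : ℕ) / (b : ℝ) ^ w) ^ (2 * s) + (Λ + 1) ^ (2 * s)) := by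
      intro x
      have h4 : occ b w (w * J) c x ≤ |occ b w (w * J) c x - (w * J : ℕ) / (b : ℝ) ^ w| +
          (Λ + 1) := by
        have := le_abs_self (occ b w (w * J) c x - (w * J : ℕ) / (b : ℝ) ^ w)
        linarith
      have h5 := pow_le_pow_left₀ (hocc0 c x) h4 (2 * s)
      have h6 := add_pow_le (abs_nonneg (occ b w (w * J) c x - (w * J : ℕ) / (b : ℝ) ^ w))
        (show 0 ≤ Λ + 1 by linarith) (2 * s)
      have h7 : |occ b w (w * J) c x - (w * J : ℕ) / (b : ℝ) ^ w| ^ (2 * s) =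
          (occ b w (w * J) c x - (w * J : ℕ) / (b : ℝ) ^ w) ^ (2 * s) := by
        rw [pow_mul, sq_abs, ← pow_mul]
      rw [h7] at h6
      refine (h5.trans h6).trans (mul_le_mul_of_nonneg_right ?_ ?_)
      · exact pow_le_pow_right₀ (by norm_num) (Nat.sub_le _ _)
      · have : (0 : ℝ) ≤ (occ b w (w * J) c x - (w * J : ℕ) / (b : ℝ) ^ w) ^ (2 * s) :=
          (even_two_mul s).pow_nonneg _
        have : (0 : ℝ) ≤ (Λ + 1) ^ (2 * s) := by positivity
        linarith
    have h4 : Integrable (fun x => (occ b w (w * J) c x - (w * J : ℕ) / (b : ℝ) ^ w) ^ (2 * s))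
        Leb := by
      refine Integrable.of_bound (C := (((w * J : ℕ) : ℝ) + (w * J : ℕ) / (b : ℝ) ^ w) ^ (2 * s))
        (Measurable.aestronglyMeasurable ?_) (Eventually.of_forall fun x => ?_)
      · exact ((Finset.measurable_fun_sum _ fun n _ => meas_cnd _ _ _ _).sub_const _).pow_const _
      · rw [norm_pow, Real.norm_eq_abs]
        refine pow_le_pow_left₀ (abs_nonneg _) ((abs_sub _ _).trans ?_) _
        rw [abs_of_nonneg (hocc0 c x), abs_of_nonneg hμ0]
        refine add_le_add_left ?_ _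
        unfold occ
        calc ∑ n ∈ range (w * J), cnd b w n c x ≤ ∑ _n ∈ range (w * J), (1 : ℝ) :=
              sum_le_sum fun n _ => by unfold cnd; split_ifs <;> norm_num
          _ = ((w * J : ℕ) : ℝ) := by simp
    have h5 : ∫ x, occ b w (w * J) c x ^ (2 * s) ∂Leb ≤ ∫ x, 2 ^ (2 * s) *
        ((occ b w (w * J) c x - (w * J : ℕ) / (b : ℝ) ^ w) ^ (2 * s) + (Λ + 1) ^ (2 * s)) ∂Leb := by
      refine integral_mono_of_nonneg (Eventually.of_forall fun x => pow_nonneg (hocc0 c x) _)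
        ((h4.add (integrable_const _)).const_mul _) (Eventually.of_forall h3)
    refine h5.trans ?_
    rw [integral_const_mul, integral_add h4 (integrable_const _), integral_const,
      probReal_univ, one_smul, mul_assoc]
    refine mul_le_mul_of_nonneg_left ?_ (by positivity)
    have h6 := h2 b w c s J hb1 hw (mem_range.1 (hW hc))
    have h7 : (1 + (J : ℝ) / (b : ℝ) ^ w) ^ s ≤ (Λ + 2) ^ s :=
      pow_le_pow_left₀ (by positivity) (by linarith) _
    have h8 : (1 : ℝ) ≤ (w : ℝ) ^ (2 * s) := one_le_pow₀ hw'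
    have h9 : (0 : ℝ) ≤ (Λ + 1) ^ (2 * s) := by positivity
    have h10 : 6 * ((2 * s).factorial : ℝ) * (w : ℝ) ^ (2 * s) * (1 + (J : ℝ) / (b : ℝ) ^ w) ^ s ≤
        6 * ((2 * s).factorial : ℝ) * (w : ℝ) ^ (2 * s) * (Λ + 2) ^ s :=
      mul_le_mul_of_nonneg_left h7 (by positivity)
    calc _ ≤ 6 * ((2 * s).factorial : ℝ) * (w : ℝ) ^ (2 * s) * (Λ + 2) ^ s +
          (Λ + 1) ^ (2 * s) * (w : ℝ) ^ (2 * s) :=
          add_le_add (h6.trans h10) (le_mul_of_one_le_right h9 h8)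
      _ = _ := by ring
  have hpt : ∀ x, ((oc b w N W x).card : ℝ) ^ (2 * s) ≤ (r : ℝ) ^ (2 * s - 1) *
      ∑ c ∈ W, occ b w (w * J) c x ^ (2 * s) := by
    intro x
    have h3 := pow_le_pow_left₀ (Nat.cast_nonneg _) (hle x) (2 * s)
    have h4 := pow_sum_le_card_mul_sum_pow (s := W) (f := fun c => occ b w (w * J) c x)
      (fun c _ => hocc0 c x) (2 * s - 1)
    rw [Nat.sub_add_cancel (by omega), hr] at h4
    exact h3.trans h4
  have hint : ∀ c, Integrable (fun x => occ b w (w * J) c x ^ (2 * s)) Leb := by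
    intro c
    refine Integrable.of_bound (C := ((w * J : ℕ) : ℝ) ^ (2 * s))
      (Measurable.aestronglyMeasurable ?_) (Eventually.of_forall fun x => ?_)
    · exact (Finset.measurable_fun_sum _ fun n _ => meas_cnd _ _ _ _).pow_const _
    · rw [norm_pow, Real.norm_eq_abs]
      refine pow_le_pow_left₀ (abs_nonneg _) ?_ _
      rw [abs_of_nonneg (hocc0 c x)]
      unfold occ
      calc ∑ n ∈ range (w * J), cnd b w n c x ≤ ∑ _n ∈ range (w * J), (1 : ℝ) :=
            sum_le_sum fun n _ => by unfold cnd; split_ifs <;> norm_num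
        _ = ((w * J : ℕ) : ℝ) := by simp
  have h5 : ∫ x, ((oc b w N W x).card : ℝ) ^ (2 * s) ∂Leb ≤ ∫ x, (r : ℝ) ^ (2 * s - 1) *
      ∑ c ∈ W, occ b w (w * J) c x ^ (2 * s) ∂Leb := by
    refine integral_mono_of_nonneg (Eventually.of_forall fun x => by positivity)
      ((integrable_finsetSum _ fun c _ => hint c).const_mul _) (Eventually.of_forall hpt)
  refine h5.trans ?_
  rw [integral_const_mul, integral_finsetSum _ fun c _ => hint c]
  have h6 := sum_le_sum hone
  rw [sum_const, hr, nsmul_eq_mul] at h6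
  refine (mul_le_mul_of_nonneg_left h6 (by positivity)).trans (le_of_eq ?_)
  have h7 : (r : ℝ) ^ (2 * s) = (r : ℝ) ^ (2 * s - 1) * r := by
    rw [← pow_succ, Nat.sub_add_cancel (by omega)]
  rw [h7]
  ring

/-! ### The close sets -/

open scoped Classical in
lemma card_nonsep' (w j : ℕ) (hj : 1 ≤ j) (S : Finset ℕ) :
    ((S.powersetCard j).filter (fun T => ¬ Sep w T)).card ≤ w * S.card ^ (j - 1) := by
  rcases Nat.lt_or_ge 1 j with h | h
  · refine (card_nonsep w j S).trans ?_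
    have h1 := Nat.mul_le_mul_right (S.card ^ (j - 2)) (card_cp w S)
    refine h1.trans (le_of_eq ?_)
    have h2 : S.card ^ (j - 1) = S.card ^ (j - 2) * S.card := by
      rw [← pow_succ]
      congr 1
      omega
    rw [h2]
    ring
  · have hj1 : j = 1 := le_antisymm h hj
    subst hj1
    have h3 : (S.powersetCard 1).filter (fun T => ¬ Sep w T) = ∅ := by
      rw [filter_eq_empty_iff]
      intro T hT hT2
      apply hT2
      obtain ⟨a, ha⟩ := card_eq_one.1 (mem_powersetCard.1 hT).2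
      intro n hn m hm hnm
      rw [ha, mem_singleton] at hn hm
      omega
    rw [h3, card_empty]
    exact Nat.zero_le _

/-- the mean of the number of close pairs of occurrences -/
lemma mean_cp {b w N : ℕ} {W : Finset ℕ} (hb : 1 ≤ b) (hno : NoOv b w W) {Λ : ℝ}
    (hN : (N : ℝ) ≤ Λ * (b : ℝ) ^ w) :
    ∫ x, ((cp w (oc b w N W x)).card : ℝ) ∂Leb ≤
      Λ * w * (W.card : ℝ) ^ 2 / √((b : ℝ) ^ w) := by
  classical
  have hb' : (0 : ℝ) < b := by exact_mod_cast hb
  have hq0 : (0 : ℝ) < (b : ℝ) ^ w := by positivity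
  have h1 : ∀ x, ((cp w (oc b w N W x)).card : ℝ) = ∑ p ∈ cp w (range N),
      (if p.1 ∈ oc b w N W x ∧ p.2 ∈ oc b w N W x then (1 : ℝ) else 0) := by
    intro x
    rw [sum_boole]
    congr 2
    ext p
    rw [mem_filter, mem_cp, mem_cp]
    constructor
    · rintro ⟨h1, h2⟩
      exact ⟨⟨⟨oc_sub _ _ _ _ _ h1.1, oc_sub _ _ _ _ _ h1.2⟩, h2⟩, h1⟩
    · rintro ⟨⟨_, h2⟩, h1⟩
      exact ⟨h1, h2⟩
  simp only [h1]
  rw [integral_finsetSum _ fun p _ => int_oc b w N W
    (fun T => if p.1 ∈ T ∧ p.2 ∈ T then (1 : ℝ) else 0)]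
  have h2 : ∀ p ∈ cp w (range N), ∫ x, (if p.1 ∈ oc b w N W x ∧ p.2 ∈ oc b w N W x then
      (1 : ℝ) else 0) ∂Leb ≤ (W.card : ℝ) ^ 2 / ((b : ℝ) ^ w * √((b : ℝ) ^ w)) := by
    intro p hp
    have hp' := mem_cp.1 hp
    exact P_pair hb hno hp'.2.1 hp'.2.2
  refine (sum_le_sum h2).trans ?_
  rw [sum_const, nsmul_eq_mul]
  have h3 : ((cp w (range N)).card : ℝ) ≤ N * w := by
    have := card_cp w (range N)
    rw [card_range] at this
    exact_mod_cast this
  have h4 : ((cp w (range N)).card : ℝ) ≤ Λ * (b : ℝ) ^ w * w :=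
    h3.trans (mul_le_mul_of_nonneg_right hN (Nat.cast_nonneg _))
  have hs : 0 < √((b : ℝ) ^ w) := Real.sqrt_pos.2 hq0
  refine (mul_le_mul_of_nonneg_right h4 (by positivity)).trans (le_of_eq ?_)
  field_simp

/-- the estimate for fixed `w` -/
lemma main (h1 : St_L1) (r j : ℕ) (hj : 1 ≤ j) (Λ C : ℝ) (hΛ : 0 < Λ) {b w N : ℕ}
    {W : Finset ℕ} (hb : 2 ≤ b) (hw : 1 ≤ w) (hN : (N : ℝ) ≤ Λ * (b : ℝ) ^ w)
    (hW : W ⊆ range (b ^ w)) (hr : W.card = r) (hno : NoOv b w W)
    (hC : ∫ x, ((oc b w N W x).card : ℝ) ^ (2 * (j - 2 + 1)) ∂Leb ≤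
      C * (w : ℝ) ^ (2 * (j - 2 + 1))) :
    |∫ x, (((oc b w N W x).card.choose j : ℕ) : ℝ) ∂Leb -
      (r * (N / (b : ℝ) ^ w)) ^ j / j.factorial| ≤
      (r : ℝ) ^ j * Λ ^ (j - 1) * ((j : ℝ) ^ 2 + w) / (b : ℝ) ^ w +
        (Λ * (r : ℝ) ^ 2 * (w : ℝ) ^ (2 * (j - 2) + 5) / √((b : ℝ) ^ w) + C / w) / 2 := by
  classical
  have hb1 : 1 ≤ b := by omega
  have hb' : (0 : ℝ) < b := by exact_mod_cast hb1
  have hq0 : (0 : ℝ) < (b : ℝ) ^ w := by positivity
  have hw' : (1 : ℝ) ≤ w := by exact_mod_cast hw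
  have hw0 : (0 : ℝ) < w := by linarith
  set q : ℝ := (b : ℝ) ^ w with hq
  set P := (range N).powersetCard j with hP
  -- the binomial coefficient as a sum
  have e1 : ∀ x, (((oc b w N W x).card.choose j : ℕ) : ℝ) =
      ∑ T ∈ P.filter (fun T => Sep w T), (if T ⊆ oc b w N W x then (1 : ℝ) else 0) +
      ((((oc b w N W x).powersetCard j).filter (fun T => ¬ Sep w T)).card : ℝ) := by
    intro x
    rw [← card_powersetCard, ← card_filter_add_card_filter_not (s := (oc b w N W x).powersetCard j)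
      (fun T => Sep w T)]
    rw [sum_boole, Nat.cast_add]
    congr 3
    rw [filter_filter, hP]
    ext T
    rw [mem_filter, mem_filter, mem_powersetCard, mem_powersetCard]
    constructor
    · rintro ⟨⟨h2, h3⟩, h4⟩
      exact ⟨⟨h2.trans (oc_sub _ _ _ _ _), h3⟩, h4, h2⟩
    · rintro ⟨⟨_, h3⟩, h4, h2⟩
      exact ⟨⟨h2, h3⟩, h4⟩
  -- the separated sets
  have e2 : ∫ x, ∑ T ∈ P.filter (fun T => Sep w T),
      (if T ⊆ oc b w N W x then (1 : ℝ) else 0) ∂Leb =
      ((P.filter (fun T => Sep w T)).card : ℝ) * (r / q) ^ j := by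
    rw [integral_finsetSum _ fun T _ => int_oc b w N W (fun S => if T ⊆ S then (1 : ℝ) else 0)]
    rw [← nsmul_eq_mul, ← sum_const]
    refine sum_congr rfl fun T hT => ?_
    obtain ⟨h2, h3⟩ := mem_filter.1 hT
    obtain ⟨h4, h5⟩ := mem_powersetCard.1 h2
    rw [P_sep h1 hb1 hW h4 h3, hr, h5]
  have i1 : Integrable (fun x => ∑ T ∈ P.filter (fun T => Sep w T),
      (if T ⊆ oc b w N W x then (1 : ℝ) else 0)) Leb :=
    int_oc b w N W (fun S => ∑ T ∈ P.filter (fun T => Sep w T), if T ⊆ S then (1 : ℝ) else 0)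
  have i2 : Integrable (fun x =>
      ((((oc b w N W x).powersetCard j).filter (fun T => ¬ Sep w T)).card : ℝ)) Leb :=
    int_oc b w N W (fun S => (((S.powersetCard j).filter (fun T => ¬ Sep w T)).card : ℝ))
  have e3 : ∫ x, (((oc b w N W x).card.choose j : ℕ) : ℝ) ∂Leb =
      ((P.filter (fun T => Sep w T)).card : ℝ) * (r / q) ^ j +
      ∫ x, ((((oc b w N W x).powersetCard j).filter (fun T => ¬ Sep w T)).card : ℝ) ∂Leb := by
    rw [← e2, ← integral_add i1 i2]
    exact integral_congr_ae (Eventually.of_forall e1)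
  -- the close sets
  set V : ℝ := (w : ℝ) ^ (2 * (j - 2) + 4) with hV
  have hV0 : 0 < V := by positivity
  have hpt : ∀ x, ((((oc b w N W x).powersetCard j).filter (fun T => ¬ Sep w T)).card : ℝ) ≤
      (V / 2) * ((cp w (oc b w N W x)).card : ℝ) +
        (w / V / 2) * ((oc b w N W x).card : ℝ) ^ (2 * (j - 2 + 1)) := by
    intro x
    obtain ⟨S, hS⟩ : ∃ S, S = oc b w N W x := ⟨_, rfl⟩
    rw [← hS]
    have h2 : (((S.powersetCard j).filter (fun T => ¬ Sep w T)).card : ℝ) ≤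
        ((cp w S).card : ℝ) * (S.card : ℝ) ^ (j - 2) := by
      exact_mod_cast card_nonsep w j S
    have h3 : ((cp w S).card : ℝ) ≤ S.card * w := by exact_mod_cast card_cp w S
    have h4 : (S.card : ℝ) ≤ (S.card : ℝ) ^ 2 := by
      have : S.card ≤ S.card ^ 2 := Nat.le_self_pow (by norm_num) _
      exact_mod_cast this
    obtain ⟨Y, hY⟩ : ∃ Y : ℝ, Y = ((cp w S).card : ℝ) := ⟨_, rfl⟩
    obtain ⟨X, hX⟩ : ∃ X : ℝ, X = (S.card : ℝ) := ⟨_, rfl⟩
    have hY0 : 0 ≤ Y := by rw [hY]; positivity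
    have hX0 : 0 ≤ X := by rw [hX]; positivity
    rw [← hY, ← hX] at h2 h3
    rw [← hX] at h4
    rw [← hY, ← hX]
    refine h2.trans ?_
    obtain ⟨Z, hZ⟩ : ∃ Z : ℝ, Z = X ^ (j - 2) := ⟨_, rfl⟩
    have hZ0 : 0 ≤ Z := by rw [hZ]; positivity
    have h5 : X ^ (2 * (j - 2 + 1)) = Z ^ 2 * X ^ 2 := by
      rw [hZ]; ring
    rw [h5, ← hZ]
    have h6 : 0 ≤ Y * (V - Z) ^ 2 := mul_nonneg hY0 (sq_nonneg _)
    have h7 : Y * Z ^ 2 ≤ w * (Z ^ 2 * X ^ 2) := by
      have h8 : Y * Z ^ 2 ≤ (X * w) * Z ^ 2 := mul_le_mul_of_nonneg_right h3 (sq_nonneg _)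
      have h9 : (X * w) * Z ^ 2 ≤ (X ^ 2 * w) * Z ^ 2 :=
        mul_le_mul_of_nonneg_right (mul_le_mul_of_nonneg_right h4 hw0.le) (sq_nonneg _)
      calc _ ≤ _ := h8.trans h9
        _ = _ := by ring
    have h8 : V * (2 * (Y * Z)) ≤ V * (V * Y + w / V * (Z ^ 2 * X ^ 2)) := by
      have h9 : V * (V * Y + w / V * (Z ^ 2 * X ^ 2)) = V ^ 2 * Y + w * (Z ^ 2 * X ^ 2) := by
        field_simp
      rw [h9]
      nlinarith
    have h9 := le_of_mul_le_mul_left h8 hV0
    linarith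
  have i3 : Integrable (fun x => ((cp w (oc b w N W x)).card : ℝ)) Leb :=
    int_oc b w N W (fun S => ((cp w S).card : ℝ))
  have i4 : Integrable (fun x => ((oc b w N W x).card : ℝ) ^ (2 * (j - 2 + 1))) Leb :=
    int_oc b w N W (fun S => (S.card : ℝ) ^ (2 * (j - 2 + 1)))
  have e4 : ∫ x, ((((oc b w N W x).powersetCard j).filter (fun T => ¬ Sep w T)).card : ℝ) ∂Leb ≤
      (Λ * (r : ℝ) ^ 2 * (w : ℝ) ^ (2 * (j - 2) + 5) / √q + C / w) / 2 := by
    have h2 := integral_mono i2 ((i3.const_mul (V / 2)).add (i4.const_mul (w / V / 2))) hpt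
    have h2' : ∫ x, ((((oc b w N W x).powersetCard j).filter (fun T => ¬ Sep w T)).card : ℝ) ∂Leb ≤
        (V / 2) * ∫ x, ((cp w (oc b w N W x)).card : ℝ) ∂Leb +
        (w / V / 2) * ∫ x, ((oc b w N W x).card : ℝ) ^ (2 * (j - 2 + 1)) ∂Leb := by
      rw [← integral_const_mul, ← integral_const_mul, ← integral_add (i3.const_mul _)
        (i4.const_mul _)]
      exact h2
    have h3 := mul_le_mul_of_nonneg_left (mean_cp (w := w) hb1 hno hN)
      (show 0 ≤ V / 2 by positivity)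
    have h4 := mul_le_mul_of_nonneg_left hC (show 0 ≤ (w : ℝ) / V / 2 by positivity)
    rw [hr] at h3
    refine (h2'.trans (add_le_add h3 h4)).trans (le_of_eq ?_)
    have h5 : V / 2 * (Λ * w * (r : ℝ) ^ 2 / √q) =
        Λ * (r : ℝ) ^ 2 * (w : ℝ) ^ (2 * (j - 2) + 5) / √q / 2 := by
      rw [hV]; ring
    have h6 : (w : ℝ) / V / 2 * (C * (w : ℝ) ^ (2 * (j - 2 + 1))) = C / w / 2 := by
      rw [hV]
      have h7 : (w : ℝ) ^ (2 * (j - 2) + 4) = (w : ℝ) ^ (2 * (j - 2 + 1)) * (w * w) := by ring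
      rw [h7]
      field_simp
    rw [h5, h6]
    ring
  have e5 : 0 ≤ ∫ x, ((((oc b w N W x).powersetCard j).filter (fun T => ¬ Sep w T)).card : ℝ)
      ∂Leb := integral_nonneg fun x => Nat.cast_nonneg _
  -- the number of separated sets
  have e6 : |((P.filter (fun T => Sep w T)).card : ℝ) * (r / q) ^ j -
      (r * (N / q)) ^ j / j.factorial| ≤ (r : ℝ) ^ j * Λ ^ (j - 1) * ((j : ℝ) ^ 2 + w) / q := by
    have hf0 : (0 : ℝ) < j.factorial := by exact_mod_cast Nat.factorial_pos j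
    have hf1 : (1 : ℝ) ≤ j.factorial := by exact_mod_cast Nat.factorial_pos j
    have h2 : (N.choose j : ℝ) = ((P.filter (fun T => Sep w T)).card : ℝ) +
        ((P.filter (fun T => ¬ Sep w T)).card : ℝ) := by
      rw [← Nat.cast_add, card_filter_add_card_filter_not, hP, card_powersetCard, card_range]
    have h3 : ((P.filter (fun T => ¬ Sep w T)).card : ℝ) ≤ w * (N : ℝ) ^ (j - 1) := by
      have := card_nonsep' w j hj (range N)
      rw [card_range] at this
      exact_mod_cast this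
    have h3' : (0 : ℝ) ≤ ((P.filter (fun T => ¬ Sep w T)).card : ℝ) := Nat.cast_nonneg _
    obtain ⟨i, rfl⟩ : ∃ i, j = i + 1 := ⟨j - 1, by omega⟩
    rw [Nat.add_sub_cancel] at h3 ⊢
    have h4 := choose_near N i
    have h5 : (N.descFactorial (i + 1) : ℝ) = ((i + 1).factorial : ℝ) * (N.choose (i + 1) : ℝ) := by
      rw [Nat.descFactorial_eq_factorial_mul_choose]
      push_cast
      rfl
    have h6 : (N.descFactorial (i + 1) : ℝ) ≤ (N : ℝ) ^ (i + 1) := by
      exact_mod_cast Nat.descFactorial_le_pow N (i + 1)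
    have h7 : |((P.filter (fun T => Sep w T)).card : ℝ) -
        (N : ℝ) ^ (i + 1) / (i + 1).factorial| ≤ (((i : ℝ) + 1) ^ 2 + w) * (N : ℝ) ^ i := by
      have h8 : (N : ℝ) ^ (i + 1) / (i + 1).factorial - N.choose (i + 1) =
          ((N : ℝ) ^ (i + 1) - N.descFactorial (i + 1)) / (i + 1).factorial := by
        rw [h5]
        field_simp
      have h9 : ((N : ℝ) ^ (i + 1) - N.descFactorial (i + 1)) / (i + 1).factorial ≤
          (N : ℝ) ^ (i + 1) - N.descFactorial (i + 1) := div_le_self (by linarith) hf1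
      have h10 : 0 ≤ ((N : ℝ) ^ (i + 1) - N.descFactorial (i + 1)) / (i + 1).factorial :=
        div_nonneg (by linarith) hf0.le
      rw [abs_le]
      constructor <;> nlinarith [show (0 : ℝ) ≤ (((i : ℝ) + 1) ^ 2 + w) * (N : ℝ) ^ i by positivity]
    have h8 : ((P.filter (fun T => Sep w T)).card : ℝ) * (r / q) ^ (i + 1) -
        (r * (N / q)) ^ (i + 1) / (i + 1).factorial = (r / q) ^ (i + 1) *
        (((P.filter (fun T => Sep w T)).card : ℝ) - (N : ℝ) ^ (i + 1) / (i + 1).factorial) := by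
      have : (r * (N / q)) ^ (i + 1) = (r / q) ^ (i + 1) * (N : ℝ) ^ (i + 1) := by
        rw [← mul_pow]
        congr 1
        ring
      rw [this]
      ring
    rw [h8, abs_mul, abs_of_nonneg (show (0 : ℝ) ≤ (r / q) ^ (i + 1) by positivity)]
    refine (mul_le_mul_of_nonneg_left h7 (by positivity)).trans ?_
    have h9 : (N : ℝ) ^ i ≤ (Λ * q) ^ i := pow_le_pow_left₀ (Nat.cast_nonneg _) hN _
    have h10 : (((i : ℝ) + 1) ^ 2 + w) * (N : ℝ) ^ i ≤ (((i : ℝ) + 1) ^ 2 + w) * (Λ * q) ^ i :=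
      mul_le_mul_of_nonneg_left h9 (by positivity)
    refine (mul_le_mul_of_nonneg_left h10 (by positivity)).trans (le_of_eq ?_)
    rw [div_pow, mul_pow]
    have hqi : q ^ (i + 1) = q ^ i * q := pow_succ _ _
    rw [hqi]
    push_cast
    field_simp
  rw [e3]
  have e7 := abs_add_le (((P.filter (fun T => Sep w T)).card : ℝ) * (r / q) ^ j -
      (r * (N / q)) ^ j / j.factorial)
    (∫ x, ((((oc b w N W x).powersetCard j).filter (fun T => ¬ Sep w T)).card : ℝ) ∂Leb)
  rw [abs_of_nonneg e5] at e7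
  have e8 : ((P.filter (fun T => Sep w T)).card : ℝ) * (r / q) ^ j +
      ∫ x, ((((oc b w N W x).powersetCard j).filter (fun T => ¬ Sep w T)).card : ℝ) ∂Leb -
      (r * (N / q)) ^ j / j.factorial = ((P.filter (fun T => Sep w T)).card : ℝ) * (r / q) ^ j -
      (r * (N / q)) ^ j / j.factorial +
      ∫ x, ((((oc b w N W x).powersetCard j).filter (fun T => ¬ Sep w T)).card : ℝ) ∂Leb := by
    ring
  rw [e8]
  exact e7.trans (add_le_add e6 e4)

/-- **binomial moments of the number of occurrences of words without large overlaps** -/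
theorem l5_of (h1 : St_L1) (h2 : St_L2) : St_L5 := by
  intro r j Λ ε hΛ hε
  rcases Nat.eq_zero_or_pos j with hj | hj
  · subst hj
    refine ⟨0, fun b w N W _ _ _ _ _ _ => ?_⟩
    simp only [Nat.choose_zero_right, Nat.cast_one, integral_const, probReal_univ, one_smul,
      pow_zero, Nat.factorial_zero, div_one, sub_self, abs_zero]
    exact hε.le
  obtain ⟨C, hC0, hC⟩ := mom h2 r (j - 2 + 1) (by omega) Λ hΛ
  -- the bound tends to `0`
  have t2 : Tendsto (fun w : ℕ => (w : ℝ) / 2 ^ w) atTop (𝓝 0) := by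
    have := tendsto_pow_const_div_const_pow_of_one_lt 1 (show (1 : ℝ) < 2 by norm_num)
    simpa using this
  have t1 : Tendsto (fun w : ℕ => (j : ℝ) ^ 2 / 2 ^ w) atTop (𝓝 0) :=
    tendsto_const_nhds.div_atTop (tendsto_pow_atTop_atTop_of_one_lt (by norm_num))
  have t3 : Tendsto (fun w : ℕ => (w : ℝ) ^ (2 * (j - 2) + 5) / (√2) ^ w) atTop (𝓝 0) :=
    tendsto_pow_const_div_const_pow_of_one_lt _ (by
      rw [show (1 : ℝ) = √1 by simp]
      exact Real.sqrt_lt_sqrt (by norm_num) (by norm_num))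
  have t4 : Tendsto (fun w : ℕ => C / (w : ℝ)) atTop (𝓝 0) :=
    tendsto_const_nhds.div_atTop tendsto_natCast_atTop_atTop
  have t5 : Tendsto (fun w : ℕ => (r : ℝ) ^ j * Λ ^ (j - 1) * ((j : ℝ) ^ 2 / 2 ^ w +
      (w : ℝ) / 2 ^ w) + (Λ * (r : ℝ) ^ 2 * ((w : ℝ) ^ (2 * (j - 2) + 5) / (√2) ^ w) +
        C / (w : ℝ)) / 2) atTop (𝓝 0) := by
    have := ((t1.add t2).const_mul ((r : ℝ) ^ j * Λ ^ (j - 1))).add
      (((t3.const_mul (Λ * (r : ℝ) ^ 2)).add t4).div_const 2)
    simpa using this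
  obtain ⟨w0, hw0⟩ := Filter.eventually_atTop.1
    ((t5.eventually (Iio_mem_nhds hε)).and (Filter.eventually_ge_atTop 1))
  refine ⟨w0, fun b w N W hb hw hN hW hr hno => ?_⟩
  obtain ⟨h3, hw1⟩ := hw0 w hw
  have h3' : (r : ℝ) ^ j * Λ ^ (j - 1) * ((j : ℝ) ^ 2 / 2 ^ w +
      (w : ℝ) / 2 ^ w) + (Λ * (r : ℝ) ^ 2 * ((w : ℝ) ^ (2 * (j - 2) + 5) / (√2) ^ w) +
        C / (w : ℝ)) / 2 < ε := h3
  have hm := main h1 r j hj Λ C hΛ hb hw1 hN hW hr hno (hC b w N W hb hw1 hN hW hr)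
  have h4 : (2 : ℝ) ^ w ≤ (b : ℝ) ^ w :=
    pow_le_pow_left₀ (by norm_num) (by exact_mod_cast hb) _
  have h5 : (√2) ^ w ≤ √((b : ℝ) ^ w) := by
    refine Real.le_sqrt_of_sq_le ?_
    rw [← pow_mul, mul_comm, pow_mul, Real.sq_sqrt (by norm_num)]
    exact h4
  have h6 : (0 : ℝ) < 2 ^ w := by positivity
  have h7 : (0 : ℝ) < (√2) ^ w := by positivity
  have h8 : (r : ℝ) ^ j * Λ ^ (j - 1) * ((j : ℝ) ^ 2 + w) / (b : ℝ) ^ w ≤
      (r : ℝ) ^ j * Λ ^ (j - 1) * ((j : ℝ) ^ 2 / 2 ^ w + (w : ℝ) / 2 ^ w) := by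
    rw [← add_div, ← mul_div_assoc]
    exact div_le_div_of_nonneg_left (by positivity) h6 h4
  have h9 : Λ * (r : ℝ) ^ 2 * (w : ℝ) ^ (2 * (j - 2) + 5) / √((b : ℝ) ^ w) ≤
      Λ * (r : ℝ) ^ 2 * ((w : ℝ) ^ (2 * (j - 2) + 5) / (√2) ^ w) := by
    rw [← mul_div_assoc]
    exact div_le_div_of_nonneg_left (by positivity) h7 h5
  change |∫ x, (((oc b w N W x).card.choose j : ℕ) : ℝ) ∂Leb -
      (r * (N / (b : ℝ) ^ w)) ^ j / j.factorial| ≤ ε
  linarith

end Pool.Agent.N711.FSL5
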