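import Pool.Agent.N912.EL.Stm3

/-!
Project EL (helper912), part 16: for functions of the norm only the Dirichlet characters matter.
-/

set_option autoImplicit false

namespace Pool.Agent.N711.EL16

open Finset Filter Topology
open Pool.Agent.W78.GA (Qd nm prim dt ip lat ball mem_ball nm_cast natCast_dvd)
open Pool.Agent.W78.EG
open Pool.Agent.W584.EG (rr aL_le uc_pos phi_le)
open Pool.Agent.N912.HL
open Pool.Agent.N912.EL (GCh FarG tg S_FARN)

theorem hD : (0 : ℤ) ^ 2 < 4 * 1 := by norm_num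

theorem tg_mul (z w : Qd 0 1) : tg (z * w) = tg z * tg w := by
  apply Zsqrtd.ext
  · show (z * w).re = (tg z * tg w).re
    rw [QuadraticAlgebra.re_mul, Zsqrtd.re_mul]
    show z.re * w.re + -1 * z.im * w.im = z.re * w.re + -1 * z.im * w.im
    ring
  · show (z * w).im = (tg z * tg w).im
    rw [QuadraticAlgebra.im_mul, Zsqrtd.im_mul]
    show z.re * w.im + z.im * w.re + 0 * z.im * w.im = z.re * w.im + z.im * w.re
    ring

theorem tg_norm (z : Qd 0 1) : (tg z).norm = nm z := by
  rw [nm_cast hD, Zsqrtd.norm_def]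
  show z.re * z.re - -1 * z.im * z.im = _
  ring

theorem tg_one : tg 1 = 1 := by
  apply Zsqrtd.ext <;> rfl

theorem tg_zero : tg 0 = 0 := by
  apply Zsqrtd.ext <;> rfl

theorem tg_add (z w : Qd 0 1) : tg (z + w) = tg z + tg w := by
  apply Zsqrtd.ext <;> rfl

theorem tg_sub (z w : Qd 0 1) : tg (z - w) = tg z - tg w := by
  apply Zsqrtd.ext
  · show z.re - w.re = (tg z - tg w).re
    rw [Zsqrtd.re_sub]
    rfl
  · show z.im - w.im = (tg z - tg w).im
    rw [Zsqrtd.im_sub]
    rfl

theorem tg_inj : Function.Injective tg := by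
  intro z w h
  have h1 : z.re = w.re := congrArg Zsqrtd.re h
  have h2 : z.im = w.im := congrArg Zsqrtd.im h
  exact QuadraticAlgebra.ext h1 h2

/-- `tg` is an isomorphism of rings -/
def tgh : Qd 0 1 ≃+* GaussianInt where
  toFun := tg
  invFun := fun z => ⟨z.re, z.im⟩
  left_inv := fun _ => rfl
  right_inv := fun _ => rfl
  map_mul' := tg_mul
  map_add' := tg_add

theorem tgh_apply (z : Qd 0 1) : tgh z = tg z := rfl

theorem cop_iff (z : Qd 0 1) (M : ℕ) :
    IsCoprime (tg z) (M : GaussianInt) ↔ IsCoprime z (M : Qd 0 1) := by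
  constructor
  · intro h
    have h1 := h.map tgh.symm.toRingHom
    have e1 : tgh.symm.toRingHom (tg z) = z := tgh.symm_apply_apply z
    have e2 : tgh.symm.toRingHom (M : GaussianInt) = (M : Qd 0 1) := map_natCast _ M
    rwa [e1, e2] at h1
  · intro h
    have h1 := h.map tgh.toRingHom
    have e1 : tgh.toRingHom z = tg z := rfl
    have e2 : tgh.toRingHom (M : Qd 0 1) = (M : GaussianInt) := map_natCast _ M
    rwa [e1, e2] at h1

theorem isUnit_tg {u : Qd 0 1} (h : nm u = 1) : IsUnit (tg u) := by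
  rw [← Zsqrtd.norm_eq_one_iff, tg_norm, h]
  rfl

/-- elements of prime norm are Gaussian primes -/
theorem prime_tg {z : Qd 0 1} (h : (nm z).Prime) : Prime (tg z) := by
  have hn : ∀ w : GaussianInt, w.norm.natAbs = 1 → IsUnit w := fun w hw =>
    Zsqrtd.norm_eq_one_iff.1 hw
  have h1 : (tg z).norm.natAbs = nm z := by
    rw [tg_norm]
    exact Int.natAbs_natCast _
  refine Irreducible.prime ⟨fun hu => ?_, fun a b hab => ?_⟩
  · have h2 := Zsqrtd.norm_eq_one_iff.2 hu
    rw [h1] at h2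
    exact h.one_lt.ne' h2
  · have h2 := congrArg Zsqrtd.norm hab
    rw [Zsqrtd.norm_mul] at h2
    have h3 := congrArg Int.natAbs h2
    rw [h1, Int.natAbs_mul] at h3
    have h4 : a.norm.natAbs = 1 ∨ b.norm.natAbs = 1 := by
      rcases (Nat.dvd_prime h).1 (Dvd.intro _ h3.symm) with h5 | h5
      · exact Or.inl h5
      · right
        rw [h5] at h3
        have h6 : 0 < nm z := h.pos
        exact (Nat.eq_of_mul_eq_mul_left h6 (by rw [mul_one]; exact h3)).symm
    exact h4.imp (hn a) (hn b)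

/-- the character of `Qd 0 1` of a character of the Gaussian integers -/
theorem hch_of {M : ℕ} {φ : GaussianInt → ℂ} (H : GCh M φ) :
    HCh M (fun z : Qd 0 1 => (starRingEnd ℂ) (φ (tg z))) where
  per := fun z z' h1 h2 => by
    have h3 : (M : GaussianInt) ∣ tg z - tg z' := by
      rw [← tg_sub]
      have h4 : (M : Qd 0 1) ∣ z - z' := natCast_dvd.2 ⟨h1, h2⟩
      obtain ⟨w, hw⟩ := h4
      refine ⟨tg w, ?_⟩
      have e : tg ((M : ℕ) : Qd 0 1) = (M : GaussianInt) := map_natCast tgh M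
      rw [hw, tg_mul, e]
    rw [H.per _ _ h3]
  mul := fun z z' => by
    rw [tg_mul, H.mul, map_mul]
  one := by rw [tg_one, H.one, map_one]
  unit := fun u hu => by rw [H.unit _ (isUnit_tg hu), map_one]
  ne := fun z => by
    rw [← cop_iff, ← H.ne]
    exact map_ne_zero (starRingEnd ℂ)

/-- comparison with the exceptional elements -/
theorem near {M : ℕ} (hM : 1 ≤ M) {ψ : Qd 0 1 → ℂ} (H : HCh M ψ) {G : ℕ → ℂ}
    (hG : ∀ n, ‖G n‖ = 1) {f : Qd 0 1 → ℝ} (hf0 : ∀ z, 0 ≤ f z)
    (hf : ∀ z, (nm z).Prime → G (nm z) * ψ z ≠ 1 → 1 / (nm z : ℝ) ≤ f z) (hs : Summable f) :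
    Summable (gg (rr 0 1) (fun n => G n * aL ψ n) 0 0) := by
  have hu : (0 : ℝ) < uc 0 1 := by exact_mod_cast uc_pos hD
  obtain ⟨T, hT⟩ : ∃ T : ℕ → Finset (Qd 0 1), T = fun p : ℕ => (ball 0 1 (p : ℝ)).filter
    (fun z => nm z = p) := ⟨_, rfl⟩
  have hTm : ∀ p, ∀ z ∈ T p, nm z = p := by
    intro p z hz
    rw [hT] at hz
    exact (mem_filter.1 hz).2
  have hsum : Summable (fun p : ℕ => ∑ z ∈ T p, f z) := by
    refine summable_of_sum_le (c := ∑' z, f z) (fun p => sum_nonneg fun z _ => hf0 z) fun u => ?_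
    rw [← sum_biUnion]
    · exact hs.sum_le_tsum _ fun z _ => hf0 z
    · intro p _ q _ hpq
      refine Finset.disjoint_left.2 fun z hz hz' => hpq ?_
      rw [← hTm p z hz, hTm q z hz']
  refine summ_of_prime (M := M) (K := 2 / uc 0 1) hM (fun n => gg_nonneg (fun n => ?_) _ _ n)
    (fun n hn => gg_zero hn) (fun p hp _ => ?_) hsum
  · rw [norm_mul, hG, one_mul]
    exact aL_le hD (phi_le hM H) n
  · rw [deficit hD _ hp]
    have hTp : (ball 0 1 (p : ℝ)).filter (fun z => nm z = p) = T p := by rw [hT]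
    rw [hTp]
    have hp0 : (0 : ℝ) < p := by exact_mod_cast hp.pos
    have h1 : ∀ z ∈ T p, (p : ℝ) ^ (-(1 : ℝ)) * (1 - (G p * ψ z *
        (p : ℂ) ^ (-(((0 : ℝ) : ℂ) * Complex.I))).re) ≤ 2 * f z := by
      intro z hz
      have hzp := hTm p z hz
      simp only [Complex.ofReal_zero, zero_mul, neg_zero, Complex.cpow_zero, mul_one]
      rw [Real.rpow_neg hp0.le, Real.rpow_one]
      by_cases hc : G p * ψ z = 1
      · rw [hc, Complex.one_re, sub_self, mul_zero]
        linarith [hf0 z]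
      · have h2 := hf z (by rw [hzp]; exact hp) (by rw [hzp]; exact hc)
        rw [hzp, one_div] at h2
        have h3 : ‖G p * ψ z‖ ≤ 1 := by
          rw [norm_mul, hG, one_mul]
          exact phi_le hM H z
        have h4 := Complex.abs_re_le_norm (G p * ψ z)
        have h5 := neg_abs_le (G p * ψ z).re
        have h6 : 0 < (p : ℝ)⁻¹ := by positivity
        have h7 : (1 - (G p * ψ z).re) ≤ 2 := by linarith
        calc (p : ℝ)⁻¹ * (1 - (G p * ψ z).re) ≤ (p : ℝ)⁻¹ * 2 :=
              mul_le_mul_of_nonneg_left h7 h6.le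
          _ ≤ 2 * f z := by linarith
    have h2 := sum_le_sum h1
    rw [← mul_sum, ← mul_sum] at h2
    rw [← mul_div_assoc]
    calc _ ≤ (2 * ∑ z ∈ T p, f z) / (uc 0 1 : ℝ) := div_le_div_of_nonneg_right h2 hu.le
      _ = _ := by ring

/-- **for functions of the norm only the Dirichlet characters matter** -/
theorem farn : S_FARN := by
  classical
  intro N F hN hFN hfar M φ hM H hs
  have hH := hch_of H
  have hFn : ∀ n, ‖F n‖ = 1 := fun n => Complex.norm_eq_one_of_pow_eq_one (hFN n) (by omega)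
  obtain ⟨f, hf⟩ : ∃ f : GaussianInt → ℝ, f = (fun π : GaussianInt =>
    if Prime π ∧ F π.norm.natAbs ≠ φ π then 1 / (π.norm : ℝ) else 0) := ⟨_, rfl⟩
  have hs1 : Summable f := by
    rw [hf]
    convert hs
  have hs2 : Summable (fun z : Qd 0 1 => f (tg z)) := hs1.comp_injective tg_inj
  have hf0 : ∀ z : Qd 0 1, 0 ≤ f (tg z) := by
    intro z
    rw [hf]
    beta_reduce
    split_ifs
    · rw [tg_norm]
      positivity
    · exact le_rfl
  have hfe : ∀ z : Qd 0 1, (nm z).Prime → F (nm z) ≠ φ (tg z) → 1 / (nm z : ℝ) ≤ f (tg z) := by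
    intro z hz hne
    rw [hf]
    beta_reduce
    rw [if_pos]
    · rw [tg_norm]
      push_cast
      exact le_rfl
    · refine ⟨prime_tg hz, ?_⟩
      rw [tg_norm, Int.natAbs_natCast]
      exact hne
  have hFc : ∀ n, F n * (starRingEnd ℂ) (F n) = 1 := by
    intro n
    rw [Complex.mul_conj, Complex.normSq_eq_norm_sq, hFn]
    simp
  have h1 : Summable (gg (rr 0 1) (fun n => (1 : ℂ) *
      aL (fun z : Qd 0 1 => (starRingEnd ℂ) (φ (tg z)) ^ N) n) 0 0) := by
    refine near hM (hch_pow hH hN) (G := fun _ => 1) (fun n => norm_one) hf0 (fun z hz hne => ?_)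
      hs2
    refine hfe z hz fun he => hne ?_
    rw [← he, one_mul, ← map_pow, hFN, map_one]
  have h2 : Summable (gg (rr 0 1) (fun n => F n *
      aL (fun z : Qd 0 1 => (starRingEnd ℂ) (φ (tg z))) n) 0 0) := by
    refine near hM hH (G := F) hFn hf0 (fun z hz hne => ?_) hs2
    refine hfe z hz fun he => hne ?_
    rw [← he]
    exact hFc _
  obtain ⟨k, χ, hFd⟩ := Pool.Agent.W251.EG.fd4
  have htriv : ∀ z : Qd 0 1, (starRingEnd ℂ) (φ (tg z)) ≠ 0 →
      (starRingEnd ℂ) (φ (tg z)) ^ N = 1 := by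
    by_contra hcon
    push Not at hcon
    obtain ⟨z, hz1, hz2⟩ := hcon
    exact char_far hFd hM (hch_pow hH hN) 0 (Or.inr ⟨z, pow_ne_zero _ hz1, hz2⟩) h1
  exact far_of hN hFN (fun M' hM' ψ => by
    have := hfar M' hM' ψ
    convert this) M _ hM hH htriv h2

end Pool.Agent.N711.EL16
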