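import Pool.Agent.N804.LI.StmE

/-!
# Project LI: summability over the zeros and continuity of the prime sum (helper711)
-/

set_option autoImplicit false

namespace Pool.Agent.N711.LI_EFB

open Filter Topology MeasureTheory
open Pool.Agent.N804.LI
open Pool.Agent.Y23.G (LFun aL)

theorem exp_bd {ε : ℝ} (he : 0 < ε) (x : ℝ) :
    Real.exp (-(ε ^ 2 * x ^ 2 / 2)) ≤ (1 + 2 / ε ^ 2) * (1 / (1 + (x - 0) ^ 2)) := by
  rw [sub_zero, mul_one_div, le_div_iff₀ (by positivity)]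
  have h1 : 1 + ε ^ 2 * x ^ 2 / 2 ≤ Real.exp (ε ^ 2 * x ^ 2 / 2) := by
    have := Real.add_one_le_exp (ε ^ 2 * x ^ 2 / 2)
    linarith
  have h2 : 1 + x ^ 2 ≤ (1 + 2 / ε ^ 2) * (1 + ε ^ 2 * x ^ 2 / 2) := by
    have e : (1 + 2 / ε ^ 2) * (1 + ε ^ 2 * x ^ 2 / 2) =
        1 + x ^ 2 + (2 / ε ^ 2 + ε ^ 2 * x ^ 2 / 2) := by
      field_simp
      ring
    rw [e]
    have : 0 ≤ 2 / ε ^ 2 + ε ^ 2 * x ^ 2 / 2 := by positivity
    linarith
  have h3 : 0 ≤ 1 + 2 / ε ^ 2 := by positivity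
  calc Real.exp (-(ε ^ 2 * x ^ 2 / 2)) * (1 + x ^ 2)
      ≤ Real.exp (-(ε ^ 2 * x ^ 2 / 2)) * ((1 + 2 / ε ^ 2) * Real.exp (ε ^ 2 * x ^ 2 / 2)) :=
        mul_le_mul_of_nonneg_left (h2.trans (mul_le_mul_of_nonneg_left h1 h3)) (Real.exp_pos _).le
    _ = 1 + 2 / ε ^ 2 := by
        rw [mul_left_comm, ← Real.exp_add, neg_add_cancel, Real.exp_zero, mul_one]

theorem sum_zeros (L : LFun) (ε : ℝ) (he : 0 < ε) :
    Summable fun k : Zr L.X => Real.exp (-(ε ^ 2 * (zv k).im ^ 2 / 2)) := by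
  rw [summable_sigma_of_nonneg fun k => (Real.exp_pos _).le]
  refine ⟨fun s => (hasSum_fintype _).summable, ?_⟩
  have h : Summable fun s : {s : ℂ // L.X s = 0} => (1 + 2 / ε ^ 2) *
      ((analyticOrderNatAt L.X (s : ℂ) : ℝ) * (1 / (1 + ((s : ℂ).im - 0) ^ 2))) :=
    (Pool.Agent.Y23.G.zsummable (D := Pool.Agent.Y23.G.zd (L := L)) 0).mul_left (1 + 2 / ε ^ 2)
  refine Summable.of_nonneg_of_le (fun s => tsum_nonneg fun _ => (Real.exp_pos _).le)
    (fun s => ?_) h
  rw [tsum_fintype]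
  change ∑ _ : Fin (analyticOrderNatAt L.X (s : ℂ)), Real.exp (-(ε ^ 2 * (s : ℂ).im ^ 2 / 2)) ≤ _
  rw [Finset.sum_const, Finset.card_univ, Fintype.card_fin, nsmul_eq_mul, mul_left_comm]
  exact mul_le_mul_of_nonneg_left (exp_bd he _) (Nat.cast_nonneg _)

theorem exp_log {n : ℕ} (hn : 0 < n) :
    Real.exp (-(2 * Real.log n)) = (n : ℝ) ^ (-(2 : ℝ)) := by
  rw [Real.rpow_def_of_pos (by exact_mod_cast hn)]
  congr 1
  ring

theorem gs_bd {ε : ℝ} (he : 0 < ε) {Y y : ℝ} (hy : y ≤ Y) {n : ℕ} (hn : 0 < n) :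
    gs ε (y - Real.log n) ≤
      Real.exp (2 * ε ^ 2 + 2 * Y) / (ε * Real.sqrt (2 * Real.pi)) * (n : ℝ) ^ (-(2 : ℝ)) := by
  unfold gs
  rw [div_mul_eq_mul_div]
  refine div_le_div_of_nonneg_right ?_ (by positivity)
  rw [← exp_log hn, ← Real.exp_add]
  apply Real.exp_le_exp.2
  have h1 : (y - Real.log n) ^ 2 / (2 * ε ^ 2) - 2 * (Real.log n - y) + 2 * ε ^ 2 =
      ((Real.log n - y) - 2 * ε ^ 2) ^ 2 / (2 * ε ^ 2) := by
    field_simp
    ring
  have h2 : 0 ≤ ((Real.log n - y) - 2 * ε ^ 2) ^ 2 / (2 * ε ^ 2) := by positivity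
  linarith

theorem cont (L : LFun) (ε : ℝ) (he : 0 < ε) : Continuous (PL L ε) := by
  have hg : Continuous (gs ε) := by
    unfold gs
    fun_prop
  have h1 : Continuous fun y : ℝ => ∑' n : ℕ, aL (L := L) n * (gs ε (y - Real.log n) : ℂ) := by
    rw [continuous_iff_continuousAt]
    intro y₀
    have key : ContinuousOn
        (fun y : ℝ => ∑' n : ℕ, aL (L := L) n * (gs ε (y - Real.log n) : ℂ))
        (Set.Iio (y₀ + 1)) := by
      refine continuousOn_tsum (u := fun n : ℕ => L.m *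
        (Real.exp (2 * ε ^ 2 + 2 * (y₀ + 1)) / (ε * Real.sqrt (2 * Real.pi))) *
        (ArithmeticFunction.vonMangoldt n * (n : ℝ) ^ (-(2 : ℝ)))) (fun n => ?_) ?_ ?_
      · exact (continuous_const.mul (Complex.continuous_ofReal.comp
          (hg.comp (continuous_id.sub continuous_const)))).continuousOn
      · exact Pool.Agent.Y23.G.lam_sum.mul_left _
      · intro n y hy
        have hΛ : 0 ≤ ArithmeticFunction.vonMangoldt n := ArithmeticFunction.vonMangoldt_nonneg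
        rcases Nat.eq_zero_or_pos n with h | h
        · subst h
          rw [Pool.Agent.Y23.G.aL_zero, zero_mul, norm_zero]
          positivity
        · have hp : 0 ≤ gs ε (y - Real.log n) := by
            unfold gs
            positivity
          rw [norm_mul, Complex.norm_real, Real.norm_eq_abs, abs_of_nonneg hp]
          calc _ ≤ (L.m * ArithmeticFunction.vonMangoldt n) *
                (Real.exp (2 * ε ^ 2 + 2 * (y₀ + 1)) / (ε * Real.sqrt (2 * Real.pi)) *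
                  (n : ℝ) ^ (-(2 : ℝ))) :=
                mul_le_mul (Pool.Agent.Y23.G.aL_norm n) (gs_bd he (le_of_lt hy) h) hp
                  (by positivity)
            _ = _ := by ring
    exact key.continuousAt (Iio_mem_nhds (by linarith))
  unfold PL
  exact (continuous_const.mul (Complex.continuous_ofReal.comp (by fun_prop))).sub h1

theorem main (L : LFun) (ε : ℝ) (he : 0 < ε) : Continuous (PL L ε) ∧
    (Summable fun k : Zr L.X => Real.exp (-(ε ^ 2 * (zv k).im ^ 2 / 2))) :=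
  ⟨cont L ε he, sum_zeros L ε he⟩

end Pool.Agent.N711.LI_EFB
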