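import Pool.Agent.N585.PA.Defs

/-! # Injectivity of the Goedel numbers (PA/6) -/

set_option autoImplicit false

namespace Pool.Agent.N711.PAcode

open Pool.Agent.N585.PA

theorem stmCode : StmCode := by
  intro k φ
  induction φ with
  | atom n =>
    intro ψ h
    cases ψ <;> simp only [code, Nat.pair_eq_pair] at h
    case atom m => rw [h.2]
    all_goals exact absurd h.1 (by decide)
  | neg φ ih =>
    intro ψ h
    cases ψ <;> simp only [code, Nat.pair_eq_pair] at h
    case neg ψ => rw [ih h.2]
    all_goals exact absurd h.1 (by decide)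
  | and φ1 φ2 ih1 ih2 =>
    intro ψ h
    cases ψ <;> simp only [code, Nat.pair_eq_pair] at h
    case and ψ1 ψ2 => rw [ih1 h.2.1, ih2 h.2.2]
    all_goals exact absurd h.1 (by decide)
  | K a φ ih =>
    intro ψ h
    cases ψ <;> simp only [code, Nat.pair_eq_pair] at h
    case K b ψ => rw [ih h.2.2, Fin.ext h.2.1]
    all_goals exact absurd h.1 (by decide)
  | C G φ ih =>
    intro ψ h
    cases ψ <;> simp only [code, Nat.pair_eq_pair] at h
    case C H ψ => rw [ih h.2.2, Subtype.ext (Encodable.encode_injective h.2.1)]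
    all_goals exact absurd h.1 (by decide)
  | ann φ1 φ2 ih1 ih2 =>
    intro ψ h
    cases ψ <;> simp only [code, Nat.pair_eq_pair] at h
    case ann ψ1 ψ2 => rw [ih1 h.2.1, ih2 h.2.2]
    all_goals exact absurd h.1 (by decide)
  | star φ1 φ2 ih1 ih2 =>
    intro ψ h
    cases ψ <;> simp only [code, Nat.pair_eq_pair] at h
    case star ψ1 ψ2 => rw [ih1 h.2.1, ih2 h.2.2]
    all_goals exact absurd h.1 (by decide)

end Pool.Agent.N711.PAcode
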