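import Pool.Agent.N804.PV.DefW
import Pool.Agent.N799.LW.Main

set_option autoImplicit false

/-! # The asymptotic formula for intervals of fixed length (PX/5) -/

namespace Pool.Agent.N711.PX_5

open Filter Topology Set MeasureTheory Real
open Pool.Agent.N804.PV

/-- the inner integral -/
noncomputable def GG (u v T t : ℝ) : ℝ := ∫ α in u..v, FI T t α

lemma FI_nn {T t : ℝ} (hT : 1 ≤ T) (ht : 0 ≤ t) (α : ℝ) : 0 ≤ FI T t α := by
  unfold FI
  have := Real.log_nonneg hT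
  positivity

lemma GG_nn {u v T t : ℝ} (huv : u ≤ v) (hT : 1 ≤ T) (ht : 0 ≤ t) : 0 ≤ GG u v T t :=
  intervalIntegral.integral_nonneg huv (fun α _ => FI_nn hT ht α)

lemma GG_eq {u v T t : ℝ} (huv : u ≤ v) (ht : 1 < t) (htT : t ≤ T) :
    GG u v T t = (Real.log t / Real.log T) ^ 2 *
      GV t (1 + (u - 1) * (Real.log T / Real.log t)) (1 + (v - 1) * (Real.log T / Real.log t)) := by
  have hl : 0 < Real.log t := Real.log_pos ht
  have hL : 0 < Real.log T := Real.log_pos (by linarith)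
  set ρ : ℝ := Real.log T / Real.log t with hρ
  have hρ0 : 0 < ρ := by positivity
  have hb : 1 + (u - 1) * ρ ≤ 1 + (v - 1) * ρ := by nlinarith
  rw [GV_eq ht hb]
  have h1 : ∀ α : ℝ, FI T t α = ρ⁻¹ * uT t (ρ * α + (1 - ρ)) := by
    intro α
    unfold FI uT
    have e1 : (ρ * α + (1 - ρ)) * Real.log t = Real.log t + (α - 1) * Real.log T := by
      rw [hρ]; field_simp; ring
    rw [e1, hρ]
    field_simp
  unfold GG
  simp_rw [h1]
  rw [intervalIntegral.integral_const_mul,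
    intervalIntegral.integral_comp_mul_add (f := uT t) hρ0.ne' (1 - ρ), smul_eq_mul, ← mul_assoc]
  have e2 : (Real.log t / Real.log T) ^ 2 = ρ⁻¹ * ρ⁻¹ := by
    rw [hρ, inv_div]; ring
  rw [e2]
  congr 2 <;> ring

lemma GV_mono {t a b a' b' : ℝ} (ht : 1 < t) (h1 : a' ≤ a) (h2 : a ≤ b) (h3 : b ≤ b') :
    GV t a b ≤ GV t a' b' := by
  rw [GV_eq ht h2, GV_eq ht (by linarith)]
  exact intervalIntegral.integral_mono_interval h1 h2 h3 (ae_of_all _ (fun α => uT_nonneg ht α))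
    (uT_ii ht a' b')

lemma GV_nn {t a b : ℝ} (ht : 1 < t) (h2 : a ≤ b) : 0 ≤ GV t a b := by
  rw [GV_eq ht h2]
  exact intervalIntegral.integral_nonneg h2 (fun α _ => uT_nonneg ht α)

/-- the main range -/
lemma main_bd (hG : ∀ u v : ℝ, 1 ≤ u → u < v → Tendsto (fun T => GV T u v) atTop (𝓝 (v - u)))
    {u v : ℝ} (hu : 1 ≤ u) (huv : u < v) {e : ℝ} (he : 0 < e) (he2 : 2 * e < v - u) :
    ∃ T1 : ℝ, 1 < T1 ∧ ∀ t T : ℝ, T1 ≤ t → t ≤ T → v * (Real.log T - Real.log t) ≤ e * Real.log t →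
      |GG u v T t - (v - u)| ≤ 2 * e * (1 + (v - u)) := by
  have h1 := (hG u (v + e) hu (by linarith)).eventually (eventually_le_nhds
    (show v + e - u < v - u + 2 * e by linarith))
  have h2 := (hG (u + e) v (by linarith) (by linarith)).eventually (eventually_ge_nhds
    (show v - u - 2 * e < v - (u + e) by linarith))
  obtain ⟨T0, hT0⟩ := eventually_atTop.1 (h1.and h2)
  refine ⟨max T0 2, lt_of_lt_of_le (by norm_num) (le_max_right _ _), fun t T ht htT hc => ?_⟩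
  have ht1 : 1 < t := lt_of_lt_of_le (by norm_num) ((le_max_right T0 2).trans ht)
  obtain ⟨k1, k2⟩ := hT0 t ((le_max_left _ _).trans ht)
  have hl : 0 < Real.log t := Real.log_pos ht1
  have hL : Real.log t ≤ Real.log T := Real.log_le_log (by linarith) htT
  rw [GG_eq huv.le ht1 htT]
  set ρ : ℝ := Real.log T / Real.log t with hρ
  have hρ1 : 1 ≤ ρ := by rw [hρ, le_div_iff₀ hl]; linarith
  have hρ2 : v * (ρ - 1) ≤ e := by
    have : v * (ρ - 1) = (v * (Real.log T - Real.log t)) / Real.log t := by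
      rw [hρ]; field_simp
    rw [this, div_le_iff₀ hl]
    exact hc
  have hr : Real.log t / Real.log T = ρ⁻¹ := by rw [hρ, inv_div]
  rw [hr]
  set r : ℝ := ρ⁻¹ with hrr
  have hr1 : r ≤ 1 := inv_le_one_of_one_le₀ hρ1
  have hr0 : 0 < r := by positivity
  have hr2 : 1 - e ≤ r := by
    have h5 : ρ ≤ 1 + e := by nlinarith
    have h6 : r * ρ = 1 := by rw [hrr]; field_simp
    nlinarith
  have ha1 : u ≤ 1 + (u - 1) * ρ := by nlinarith
  have ha2 : 1 + (u - 1) * ρ ≤ u + e := by nlinarith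
  have hb1 : v ≤ 1 + (v - 1) * ρ := by nlinarith
  have hb2 : 1 + (v - 1) * ρ ≤ v + e := by nlinarith
  have hup := GV_mono (t := t) ht1 ha1 (by linarith) hb2
  have hlo := GV_mono (t := t) ht1 ha2 (by linarith) hb1
  set W : ℝ := GV t (1 + (u - 1) * ρ) (1 + (v - 1) * ρ)
  have hW1 : W ≤ v - u + 2 * e := hup.trans k1
  have hW2 : v - u - 2 * e ≤ W := k2.trans hlo
  have hW0 : 0 ≤ W := by linarith
  have hq1 : r ^ 2 ≤ 1 := by nlinarith
  have hq2 : 1 - 2 * e ≤ r ^ 2 := by nlinarith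
  rw [abs_le]
  constructor
  · have : (1 - 2 * e) * (v - u - 2 * e) ≤ r ^ 2 * W := by
      by_cases h7 : 0 ≤ 1 - 2 * e
      · nlinarith [mul_le_mul hq2 hW2 (by linarith) (by positivity)]
      · have h8 : (1 - 2 * e) * (v - u - 2 * e) ≤ 0 := by
          apply mul_nonpos_of_nonpos_of_nonneg <;> linarith
        have : 0 ≤ r ^ 2 * W := by positivity
        linarith
    nlinarith [mul_pos he he]
  · have : r ^ 2 * W ≤ W := by nlinarith
    nlinarith

/-- the middle range -/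
lemma mid_bd (hG : ∀ u v : ℝ, 1 ≤ u → u < v → Tendsto (fun T => GV T u v) atTop (𝓝 (v - u)))
    {u v : ℝ} (hu : 1 ≤ u) (huv : u < v) :
    ∃ T1 : ℝ, 1 < T1 ∧ ∀ t T : ℝ, T1 ≤ t → t ≤ T → Real.log T ≤ 3 * Real.log t →
      GG u v T t ≤ 3 * v := by
  have h1 := (hG 1 (3 * v) le_rfl (by linarith)).eventually (eventually_le_nhds
    (show 3 * v - 1 < 3 * v by linarith))
  obtain ⟨T0, hT0⟩ := eventually_atTop.1 h1
  refine ⟨max T0 2, lt_of_lt_of_le (by norm_num) (le_max_right _ _), fun t T ht htT hc => ?_⟩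
  have ht1 : 1 < t := lt_of_lt_of_le (by norm_num) ((le_max_right T0 2).trans ht)
  have k1 := hT0 t ((le_max_left _ _).trans ht)
  have hl : 0 < Real.log t := Real.log_pos ht1
  have hL : Real.log t ≤ Real.log T := Real.log_le_log (by linarith) htT
  rw [GG_eq huv.le ht1 htT]
  set ρ : ℝ := Real.log T / Real.log t with hρ
  have hρ1 : 1 ≤ ρ := by rw [hρ, le_div_iff₀ hl]; linarith
  have hρ2 : ρ ≤ 3 := by rw [hρ, div_le_iff₀ hl]; exact hc
  have hr : Real.log t / Real.log T = ρ⁻¹ := by rw [hρ, inv_div]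
  rw [hr]
  set r : ℝ := ρ⁻¹ with hrr
  have hr1 : r ≤ 1 := inv_le_one_of_one_le₀ hρ1
  have hr0 : 0 < r := by positivity
  have ha1 : 1 ≤ 1 + (u - 1) * ρ := by nlinarith
  have hab : 1 + (u - 1) * ρ ≤ 1 + (v - 1) * ρ := by nlinarith
  have hb2 : 1 + (v - 1) * ρ ≤ 3 * v := by nlinarith
  have hup := GV_mono (t := t) ht1 ha1 hab hb2
  have hn := GV_nn (t := t) ht1 hab
  set W : ℝ := GV t (1 + (u - 1) * ρ) (1 + (v - 1) * ρ)
  have hq1 : r ^ 2 ≤ 1 := by nlinarith
  nlinarith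

lemma psi_all {C ε : ℝ} (hC : 0 < C) (hε : 0 < ε)
    (h : ∀ y : ℝ, 1 ≤ y → |Chebyshev.psi y - y| ≤ C * y ^ (1 / 2 + ε)) (z : ℝ) (hz : 0 ≤ z) :
    |Chebyshev.psi z - z| ≤ (C + 1) * (1 + z) ^ (1 / 2 + ε) := by
  rcases le_or_gt 1 z with h1 | h1
  · refine (h z h1).trans ?_
    have h2 : z ^ (1 / 2 + ε) ≤ (1 + z) ^ (1 / 2 + ε) :=
      Real.rpow_le_rpow (by linarith) (by linarith) (by linarith)
    have h3 : 0 ≤ z ^ (1 / 2 + ε) := Real.rpow_nonneg (by linarith) _
    nlinarith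
  · rw [Chebyshev.psi_eq_zero_of_lt_two (by linarith), zero_sub, abs_neg, abs_of_nonneg hz]
    have h2 : 1 ≤ (1 + z) ^ (1 / 2 + ε) := Real.one_le_rpow (by linarith) (by linarith)
    nlinarith

lemma fE_bd {C ε : ℝ} (hC : 0 < C) (hε : 0 < ε)
    (h : ∀ y : ℝ, 1 ≤ y → |Chebyshev.psi y - y| ≤ C * y ^ (1 / 2 + ε)) {x k : ℝ} (hx : 0 ≤ x)
    (hk : 0 ≤ k) : fE x k ^ 2 ≤ 4 * (C + 1) ^ 2 * (1 + x + k) ^ (1 + 2 * ε) := by
  have h1 := psi_all hC hε h (x + k) (by linarith)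
  have h2 := psi_all hC hε h x hx
  have h3 : (1 + x) ^ (1 / 2 + ε) ≤ (1 + x + k) ^ (1 / 2 + ε) :=
    Real.rpow_le_rpow (by linarith) (by linarith) (by linarith)
  have h4 : (1 + (x + k)) ^ (1 / 2 + ε) = (1 + x + k) ^ (1 / 2 + ε) := by rw [add_assoc]
  rw [h4] at h1
  have h5 : |fE x k| ≤ 2 * (C + 1) * (1 + x + k) ^ (1 / 2 + ε) := by
    have e : fE x k = (Chebyshev.psi (x + k) - (x + k)) - (Chebyshev.psi x - x) := by
      unfold fE; ring
    rw [e]
    calc |(Chebyshev.psi (x + k) - (x + k)) - (Chebyshev.psi x - x)|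
        ≤ |Chebyshev.psi (x + k) - (x + k)| + |Chebyshev.psi x - x| := abs_sub _ _
      _ ≤ _ := by nlinarith
  rw [← sq_abs]
  calc |fE x k| ^ 2 ≤ (2 * (C + 1) * (1 + x + k) ^ (1 / 2 + ε)) ^ 2 :=
        pow_le_pow_left₀ (abs_nonneg _) h5 2
    _ = 4 * (C + 1) ^ 2 * ((1 + x + k) ^ (1 / 2 + ε)) ^ 2 := by ring
    _ = _ := by
        rw [← Real.rpow_natCast ((1 + x + k) ^ (1 / 2 + ε)) 2, ← Real.rpow_mul (by linarith)]
        congr 2
        push_cast
        ring

lemma FI_fE {T t α : ℝ} (hT : 1 < T) (ht : 0 < t) :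
    FI T t α = T / (Real.log T * T ^ α) * fE (t * T ^ α / T) (T ^ α / T) ^ 2 := by
  have hT0 : 0 < T := by linarith
  have hL := Real.log_pos hT
  have hX : 0 < T ^ α := Real.rpow_pos_of_pos hT0 α
  have e1 : Real.exp (Real.log t + (α - 1) * Real.log T) = t * T ^ α / T := by
    rw [Real.exp_add, Real.exp_log ht, sub_mul, one_mul, Real.exp_sub, Real.exp_log hT0,
      Real.rpow_def_of_pos hT0, mul_comm α]
    ring
  unfold FI DT fE
  have e4 : Real.exp (-((Real.log t + (α - 1) * Real.log T) / 2)) ^ 2 =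
      (Real.exp (Real.log t + (α - 1) * Real.log T))⁻¹ := by
    rw [← Real.exp_neg, ← Real.exp_nat_mul]
    congr 1
    push_cast
    ring
  rw [mul_pow, e4, e1]
  have e2 : t * T ^ α / T * (1 + 1 / t) = t * T ^ α / T + T ^ α / T := by field_simp
  have e3 : t * T ^ α / T / t = T ^ α / T := by field_simp
  rw [e2, e3]
  field_simp

lemma FI_small {C v : ℝ} (hv : 1 ≤ v) (hC : 0 < C)
    (h : ∀ y : ℝ, 1 ≤ y → |Chebyshev.psi y - y| ≤ C * y ^ (1 / 2 + 1 / (24 * v)))
    {T t α : ℝ} (hT : 3 ≤ T) (ht : 0 < t) (htS : t ≤ T ^ (1 / 3 : ℝ)) (hα : 1 ≤ α) (hαv : α ≤ v) :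
    FI T t α ≤ 36 * (C + 1) ^ 2 * T ^ (5 / 12 : ℝ) := by
  have hT1 : 1 < T := by linarith
  have hT0 : 0 < T := by linarith
  set ε : ℝ := 1 / (24 * v) with hε
  have hε0 : 0 < ε := by positivity
  have hεv : v * (2 * ε) = 1 / 12 := by rw [hε]; field_simp; norm_num
  have hε1 : 2 * ε ≤ 1 := by nlinarith
  have hL1 : 1 ≤ Real.log T := by
    rw [Real.le_log_iff_exp_le hT0]
    exact (Real.exp_one_lt_d9.le.trans (by norm_num)).trans hT
  rw [FI_fE hT1 ht]
  set X : ℝ := T ^ α with hX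
  set S : ℝ := T ^ (1 / 3 : ℝ) with hS
  have hX1 : T ≤ X := by
    calc T = T ^ (1:ℝ) := (Real.rpow_one T).symm
      _ ≤ T ^ α := Real.rpow_le_rpow_of_exponent_le hT1.le hα
  have hX2 : X ≤ T ^ v := Real.rpow_le_rpow_of_exponent_le hT1.le hαv
  have hX0 : 0 < X := by linarith
  have hS1 : 1 ≤ S := Real.one_le_rpow hT1.le (by norm_num)
  have hST : S ≤ T := by
    calc S ≤ T ^ (1:ℝ) := Real.rpow_le_rpow_of_exponent_le hT1.le (by norm_num)
      _ = T := Real.rpow_one T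
  have hk : 1 ≤ X / T := by rw [le_div_iff₀ hT0]; linarith
  have hx0 : 0 ≤ t * X / T := by positivity
  have hx1 : t * X / T ≤ S * (X / T) := by
    rw [mul_div_assoc]
    exact mul_le_mul_of_nonneg_right htS (by positivity)
  have hb := fE_bd hC hε0 h hx0 (by linarith : 0 ≤ X / T)
  set z : ℝ := 1 + t * X / T + X / T with hz
  have hz1 : z ≤ 3 * S * (X / T) := by
    rw [hz]; nlinarith
  have hz0 : 0 < z := by rw [hz]; linarith
  have hz2 : z ≤ 3 * T ^ v := by
    have : S * (X / T) ≤ X := by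
      have : S * (X / T) = S / T * X := by ring
      rw [this]
      have h6 : S / T ≤ 1 := by rw [div_le_one hT0]; exact hST
      nlinarith
    nlinarith
  have hz3 : z ^ (2 * ε) ≤ 3 * T ^ (1 / 12 : ℝ) := by
    calc z ^ (2 * ε) ≤ (3 * T ^ v) ^ (2 * ε) := Real.rpow_le_rpow hz0.le hz2 (by positivity)
      _ = 3 ^ (2 * ε) * T ^ (1 / 12 : ℝ) := by
          rw [Real.mul_rpow (by norm_num) (by positivity), ← Real.rpow_mul hT0.le, hεv]
      _ ≤ 3 * T ^ (1 / 12 : ℝ) := by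
          have : (3:ℝ) ^ (2 * ε) ≤ 3 ^ (1:ℝ) :=
            Real.rpow_le_rpow_of_exponent_le (by norm_num) hε1
          rw [Real.rpow_one] at this
          have h7 : 0 ≤ T ^ (1 / 12 : ℝ) := by positivity
          nlinarith
  have hz4 : z ^ (1 + 2 * ε) ≤ 3 * S * (X / T) * (3 * T ^ (1 / 12 : ℝ)) := by
    rw [Real.rpow_add hz0, Real.rpow_one]
    exact mul_le_mul hz1 hz3 (by positivity) (by positivity)
  have hST2 : S * T ^ (1 / 12 : ℝ) = T ^ (5 / 12 : ℝ) := by
    rw [hS, ← Real.rpow_add hT0]; norm_num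
  have hc0 : 0 ≤ 4 * (C + 1) ^ 2 := by positivity
  calc T / (Real.log T * X) * fE (t * X / T) (X / T) ^ 2
      ≤ T / (Real.log T * X) * (4 * (C + 1) ^ 2 * (3 * S * (X / T) * (3 * T ^ (1 / 12 : ℝ)))) := by
        apply mul_le_mul_of_nonneg_left _ (by positivity)
        exact hb.trans (mul_le_mul_of_nonneg_left hz4 hc0)
    _ = 36 * (C + 1) ^ 2 * (S * T ^ (1 / 12 : ℝ)) / Real.log T := by
        field_simp; ring
    _ ≤ 36 * (C + 1) ^ 2 * (S * T ^ (1 / 12 : ℝ)) := by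
        apply div_le_self (by positivity) hL1
    _ = _ := by rw [hST2]


lemma ind_int (u v : ℝ) (huv : u ≤ v) (f : ℝ → ℝ) :
    ∫ α : ℝ, (Ioc u v).indicator (fun _ => (1:ℝ)) α * f α = ∫ α in u..v, f α := by
  rw [intervalIntegral.integral_of_le huv, ← integral_indicator measurableSet_Ioc]
  congr 1
  funext α
  by_cases h : α ∈ Ioc u v
  · simp only [indicator_of_mem h, one_mul]
  · simp only [indicator_of_notMem h, zero_mul]

lemma WV_GG (h1 : S_W1) {θ : ℝ} (hθ0 : 0 ≤ θ) (hθ1 : θ ≤ 1) {u v : ℝ} (hu : 1 ≤ u) (huv : u ≤ v)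
    {T : ℝ} (hT : 2 ≤ T) : IntervalIntegrable (GG u v T) volume 0 (T - θ) ∧
    WV θ T u v = 1 / T * ∫ t in (0 : ℝ)..(T - θ), GG u v T t := by
  obtain ⟨-, k2, k3⟩ := h1 θ hθ0 hθ1 T hT
  obtain ⟨-, k5, k6⟩ := k3 ((Ioc u v).indicator (fun _ => (1:ℝ)))
    (measurable_const.indicator measurableSet_Ioc)
    ⟨1, v, fun α => ⟨by
      by_cases h : α ∈ Ioc u v
      · simp only [indicator_of_mem h, abs_one, le_refl]
      · simp only [indicator_of_notMem h, abs_zero, zero_le_one], fun h => by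
      apply indicator_of_notMem
      rintro ⟨a1, a2⟩
      rcases h with h | h <;> linarith⟩⟩
  have e : (fun t => ∫ α : ℝ, (Ioc u v).indicator (fun _ => (1:ℝ)) α * FI T t α) = GG u v T := by
    funext t
    exact ind_int u v huv _
  rw [e] at k5
  refine ⟨k5, ?_⟩
  rw [k2 u v hu huv, ← ind_int u v huv, k6]
  congr 2

lemma small_bd {C u v : ℝ} (hu : 1 ≤ u) (huv : u < v) (hC : 0 < C)
    (h : ∀ y : ℝ, 1 ≤ y → |Chebyshev.psi y - y| ≤ C * y ^ (1 / 2 + 1 / (24 * v)))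
    {T t : ℝ} (hT : 3 ≤ T) (ht : 0 < t) (htS : t ≤ T ^ (1 / 3 : ℝ)) :
    ‖GG u v T t‖ ≤ 36 * (C + 1) ^ 2 * T ^ (5 / 12 : ℝ) * (v - u) := by
  have k := intervalIntegral.norm_integral_le_of_norm_le_const (a := u) (b := v)
    (C := 36 * (C + 1) ^ 2 * T ^ (5 / 12 : ℝ)) (f := fun α => FI T t α) (fun α hα => by
      rw [uIoc_of_le huv.le] at hα
      rw [Real.norm_of_nonneg (FI_nn (by linarith) ht.le α)]
      exact FI_small (by linarith) hC h hT ht htS (by linarith [hα.1]) hα.2)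
  rw [abs_of_pos (by linarith : 0 < v - u)] at k
  exact k

theorem core (h1 : S_W1)
    (hψ : ∀ ε : ℝ, 0 < ε → ∃ C : ℝ, 0 < C ∧ ∀ y : ℝ, 1 ≤ y →
      |Chebyshev.psi y - y| ≤ C * y ^ (1 / 2 + ε))
    (hG : ∀ u v : ℝ, 1 ≤ u → u < v → Tendsto (fun T => GV T u v) atTop (𝓝 (v - u)))
    (θ : ℝ) (hθ0 : 0 ≤ θ) (hθ1 : θ ≤ 1) (u v : ℝ) (hu : 1 ≤ u) (huv : u < v) :
    Tendsto (fun T => WV θ T u v) atTop (𝓝 (v - u)) := by
  have hv : 1 ≤ v := by linarith
  obtain ⟨C, hC, hψ⟩ := hψ (1 / (24 * v)) (by positivity)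
  set D : ℝ := v - u with hD
  have hD0 : 0 < D := by rw [hD]; linarith
  have hDv : D ≤ v := by rw [hD]; linarith
  rw [Metric.tendsto_atTop']
  intro ε hε
  set η : ℝ := min (1 / 2) (ε / (20 * v)) with hη
  have hη0 : 0 < η := lt_min (by norm_num) (by positivity)
  have hη1 : η ≤ 1 / 2 := min_le_left _ _
  have hη2 : 4 * v * η ≤ ε / 5 := by
    have : η ≤ ε / (20 * v) := min_le_right _ _
    rw [le_div_iff₀ (by positivity)] at this
    linarith
  set e : ℝ := min (D / 4) (ε / (10 * (1 + D))) with he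
  have he0 : 0 < e := lt_min (by positivity) (by positivity)
  have he1 : 2 * e < D := by
    have : e ≤ D / 4 := min_le_left _ _
    linarith
  have he2 : 2 * e * (1 + D) ≤ ε / 5 := by
    have : e ≤ ε / (10 * (1 + D)) := min_le_right _ _
    rw [le_div_iff₀ (by positivity)] at this
    linarith
  obtain ⟨T1, hT1, hmain⟩ := main_bd hG hu huv he0 he1
  obtain ⟨T2, hT2, hmid⟩ := mid_bd hG hu huv
  set B : ℝ := 36 * (C + 1) ^ 2 * D with hB
  have hB0 : 0 < B := by positivity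
  have ev1 : ∀ᶠ T : ℝ in atTop, 3 ≤ T := eventually_ge_atTop _
  have ev2 : ∀ᶠ T : ℝ in atTop, 1 / η ≤ T ^ (2 / 3 : ℝ) :=
    (tendsto_rpow_atTop (by norm_num)).eventually_ge_atTop _
  have ev3 : ∀ᶠ T : ℝ in atTop, T2 ≤ T ^ (1 / 3 : ℝ) :=
    (tendsto_rpow_atTop (by norm_num)).eventually_ge_atTop _
  have ev4 : ∀ᶠ T : ℝ in atTop, T1 / η ≤ T := eventually_ge_atTop _
  have ev5 : ∀ᶠ T : ℝ in atTop, v * (-Real.log η) / e - Real.log η ≤ Real.log T :=
    Real.tendsto_log_atTop.eventually_ge_atTop _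
  have ev6 : ∀ᶠ T : ℝ in atTop, 5 * B / ε ≤ T ^ (1 / 4 : ℝ) :=
    (tendsto_rpow_atTop (by norm_num)).eventually_ge_atTop _
  have ev7 : ∀ᶠ T : ℝ in atTop, 5 * D / ε ≤ T := eventually_ge_atTop _
  obtain ⟨T0, hT0⟩ := eventually_atTop.1
    (ev1.and (ev2.and (ev3.and (ev4.and (ev5.and (ev6.and ev7))))))
  refine ⟨T0, fun T hTT => ?_⟩
  obtain ⟨c1, c2, c3, c4, c5, c6, c7⟩ := hT0 T hTT.le
  have hTp : 0 < T := by linarith
  obtain ⟨hint, hW⟩ := WV_GG h1 hθ0 hθ1 hu huv.le (by linarith : 2 ≤ T)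
  set S : ℝ := T ^ (1 / 3 : ℝ) with hS
  have hS0 : 0 < S := Real.rpow_pos_of_pos hTp _
  have hST : S ≤ η * T := by
    have h2 : T = S * T ^ (2 / 3 : ℝ) := by
      rw [hS, ← Real.rpow_add hTp]; norm_num
    have h3 : 1 ≤ η * T ^ (2 / 3 : ℝ) := by
      rw [div_le_iff₀ hη0] at c2
      linarith
    calc S = S * 1 := (mul_one S).symm
      _ ≤ S * (η * T ^ (2 / 3 : ℝ)) := mul_le_mul_of_nonneg_left h3 hS0.le
      _ = η * (S * T ^ (2 / 3 : ℝ)) := by ring
      _ = η * T := by rw [← h2]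
  have hηT : η * T ≤ T - θ := by nlinarith
  have hlog : Real.log S = 1 / 3 * Real.log T := by rw [hS, Real.log_rpow hTp]
  -- the three parts
  have i1 : IntervalIntegrable (GG u v T) volume 0 S :=
    hint.mono_set (by
      rw [uIcc_of_le hS0.le, uIcc_of_le (by linarith)]
      exact Icc_subset_Icc_right (by linarith))
  have i2 : IntervalIntegrable (GG u v T) volume S (η * T) :=
    hint.mono_set (by
      rw [uIcc_of_le hST, uIcc_of_le (by linarith)]
      exact Icc_subset_Icc hS0.le hηT)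
  have i3 : IntervalIntegrable (GG u v T) volume (η * T) (T - θ) :=
    hint.mono_set (by
      rw [uIcc_of_le hηT, uIcc_of_le (by linarith)]
      exact Icc_subset_Icc_left (by linarith))
  have p1 : ‖∫ t in (0:ℝ)..S, GG u v T t‖ ≤ 36 * (C + 1) ^ 2 * T ^ (5 / 12 : ℝ) * (v - u) * S := by
    have := intervalIntegral.norm_integral_le_of_norm_le_const (a := 0) (b := S)
      (C := 36 * (C + 1) ^ 2 * T ^ (5 / 12 : ℝ) * (v - u)) (f := GG u v T) (fun t ht => by
        rw [uIoc_of_le hS0.le] at ht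
        exact small_bd hu huv hC hψ c1 ht.1 ht.2)
    rwa [sub_zero, abs_of_pos hS0] at this
  have p2 : ‖∫ t in S..(η * T), GG u v T t‖ ≤ 3 * v * (η * T) := by
    have := intervalIntegral.norm_integral_le_of_norm_le_const (a := S) (b := η * T)
      (C := 3 * v) (f := GG u v T) (fun t ht => by
        rw [uIoc_of_le hST] at ht
        have ht0 : 0 < t := hS0.trans ht.1
        rw [Real.norm_of_nonneg (GG_nn huv.le (by linarith) ht0.le)]
        refine hmid t T (c3.trans ht.1.le) (by linarith [ht.2]) ?_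
        have := Real.log_le_log hS0 ht.1.le
        rw [hlog] at this
        linarith)
    rw [abs_of_nonneg (by linarith)] at this
    nlinarith
  have p3 : ‖∫ t in (η * T)..(T - θ), (GG u v T t - D)‖ ≤ 2 * e * (1 + D) * T := by
    have := intervalIntegral.norm_integral_le_of_norm_le_const (a := η * T) (b := T - θ)
      (C := 2 * e * (1 + D)) (f := fun t => GG u v T t - D) (fun t ht => by
        rw [uIoc_of_le hηT] at ht
        have hηT0 : 0 < η * T := by positivity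
        have ht0 : 0 < t := hηT0.trans ht.1
        refine hmain t T ?_ (by linarith [ht.2]) ?_
        · rw [div_le_iff₀ hη0] at c4
          nlinarith [ht.1]
        · have h6 := Real.log_le_log hηT0 ht.1.le
          rw [Real.log_mul hη0.ne' hTp.ne'] at h6
          have h7 : v * (-Real.log η) ≤ e * (Real.log η + Real.log T) := by
            have h8 : v * (-Real.log η) / e ≤ Real.log η + Real.log T := by linarith
            rw [div_le_iff₀ he0] at h8
            linarith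
          have h9 : v * (Real.log T - Real.log t) ≤ v * (-Real.log η) :=
            mul_le_mul_of_nonneg_left (by linarith) (by linarith)
          have h10 : e * (Real.log η + Real.log T) ≤ e * Real.log t :=
            mul_le_mul_of_nonneg_left (by linarith) he0.le
          linarith)
    rw [abs_of_nonneg (by linarith)] at this
    refine this.trans ?_
    have h9 : 0 ≤ 2 * e * (1 + D) := by positivity
    have h10 : T - θ - η * T ≤ T := by nlinarith
    exact mul_le_mul_of_nonneg_left h10 h9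
  have hsplit : (∫ t in (0 : ℝ)..(T - θ), GG u v T t) - D * T =
      (∫ t in (0:ℝ)..S, GG u v T t) + (∫ t in S..(η * T), GG u v T t) +
      (∫ t in (η * T)..(T - θ), (GG u v T t - D)) - D * (θ + η * T) := by
    rw [← intervalIntegral.integral_add_adjacent_intervals (i1.trans i2) i3,
      ← intervalIntegral.integral_add_adjacent_intervals i1 i2,
      intervalIntegral.integral_sub i3 intervalIntegrable_const, intervalIntegral.integral_const,
      smul_eq_mul]
    ring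
  have hTe : 36 * (C + 1) ^ 2 * T ^ (5 / 12 : ℝ) * (v - u) * S ≤ ε / 5 * T := by
    have h11 : T ^ (5 / 12 : ℝ) * S * T ^ (1 / 4 : ℝ) = T := by
      rw [hS, ← Real.rpow_add hTp, ← Real.rpow_add hTp]; norm_num
    have h12 : B ≤ ε / 5 * T ^ (1 / 4 : ℝ) := by
      rw [div_le_iff₀ hε] at c6
      linarith
    have h13 : 0 ≤ T ^ (5 / 12 : ℝ) * S := by positivity
    calc 36 * (C + 1) ^ 2 * T ^ (5 / 12 : ℝ) * (v - u) * S = B * (T ^ (5 / 12 : ℝ) * S) := by
          rw [hB]; ring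
      _ ≤ (ε / 5 * T ^ (1 / 4 : ℝ)) * (T ^ (5 / 12 : ℝ) * S) := mul_le_mul_of_nonneg_right h12 h13
      _ = ε / 5 * (T ^ (5 / 12 : ℝ) * S * T ^ (1 / 4 : ℝ)) := by ring
      _ = ε / 5 * T := by rw [h11]
  have hDT : D ≤ ε / 5 * T := by
    rw [div_le_iff₀ hε] at c7
    linarith
  have hfin : |(∫ t in (0 : ℝ)..(T - θ), GG u v T t) - D * T| ≤ (4 * (ε / 5)) * T := by
    rw [hsplit]
    rw [Real.norm_eq_abs] at p1 p2 p3
    obtain ⟨a1, a2⟩ := abs_le.1 p1
    obtain ⟨b1, b2⟩ := abs_le.1 p2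
    obtain ⟨d1, d2⟩ := abs_le.1 p3
    have q1 : 0 ≤ D * (θ + η * T) := by positivity
    have q2 : D * (θ + η * T) ≤ D + v * η * T := by
      have h14 : D * θ ≤ D := mul_le_of_le_one_right hD0.le hθ1
      have h15 : D * (η * T) ≤ v * (η * T) := mul_le_mul_of_nonneg_right hDv (by positivity)
      calc D * (θ + η * T) = D * θ + D * (η * T) := by ring
        _ ≤ D + v * (η * T) := by linarith
        _ = D + v * η * T := by ring
    have q3 : 2 * e * (1 + D) * T ≤ ε / 5 * T := mul_le_mul_of_nonneg_right he2 hTp.le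
    have q4 : 4 * v * η * T ≤ ε / 5 * T := mul_le_mul_of_nonneg_right hη2 hTp.le
    have q5 : 3 * v * (η * T) = 3 * (v * η * T) := by ring
    have q6 : 4 * v * η * T = 4 * (v * η * T) := by ring
    have q7 : 0 ≤ v * η * T := by positivity
    rw [q5] at b1 b2
    rw [q6] at q4
    rw [abs_le]
    constructor <;> linarith
  rw [hW, Real.dist_eq]
  have hlast : 1 / T * (∫ t in (0 : ℝ)..(T - θ), GG u v T t) - D =
      ((∫ t in (0 : ℝ)..(T - θ), GG u v T t) - D * T) / T := by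
    field_simp
  rw [hlast, abs_div, abs_of_pos hTp, div_lt_iff₀ hTp]
  have h20 : 0 < ε * T := mul_pos hε hTp
  calc _ ≤ (4 * (ε / 5)) * T := hfin
    _ < ε * T := by linarith

theorem main (h1 : S_W1) : S_W5 := by
  intro hRH hG θ hθ0 hθ1 u v hu huv
  refine core h1 (fun ε hε => ?_) hG θ hθ0 hθ1 u v hu huv
  exact Pool.Agent.N799.LW.psi_of_free le_rfl (by norm_num) hε (Pool.Agent.N799.LW.rh_free.1 hRH)

end Pool.Agent.N711.PX_5
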