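import Mathlib

/-!
# Plane homeomorphisms that lengthen finitely many short segments

A finite family of closed sets `E i` in the plane (a normed space), points `x i ∈ E i` and vectors
`w i` such that the half-open segments `x i + (0, δ) • w i` avoid all the sets `E j` and each other.
For `a, b ∈ (0, δ)` there is a homeomorphism of the space that fixes all the `E i` pointwise and
carries the segment from `x i` to `x i + a • w i` onto the one from `x i` to `x i + b • w i`, for all
`i` at once.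
-/

set_option autoImplicit false

namespace Pool.Agent.N711.PolyHomeo

open Set Filter Topology

variable {V : Type*} [NormedAddCommGroup V] [NormedSpace ℝ V] [CompleteSpace V]
variable {ι : Type*} [Fintype ι]

/-- the bump -/
noncomputable def bump (r : ℝ) (c p : V) : ℝ := max 0 (r - dist p c)

omit [NormedSpace ℝ V] [CompleteSpace V] in
lemma bump_lip (r : ℝ) (c p q : V) : |bump r c p - bump r c q| ≤ ‖p - q‖ := by
  unfold bump
  have h1 : |max 0 (r - dist p c) - max 0 (r - dist q c)| ≤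
      |(r - dist p c) - (r - dist q c)| := by
    have := abs_max_sub_max_le_abs (r - dist p c) (r - dist q c) 0
    rwa [max_comm _ (0 : ℝ), max_comm _ (0 : ℝ)] at this
  have h2 : |(r - dist p c) - (r - dist q c)| ≤ dist p q := by
    have : (r - dist p c) - (r - dist q c) = -(dist p c - dist q c) := by ring
    rw [this, abs_neg]
    exact abs_dist_sub_le p q c
  exact h1.trans (h2.trans_eq (dist_eq_norm p q))

omit [NormedSpace ℝ V] [CompleteSpace V] in
lemma bump_zero {r : ℝ} {c p : V} (h : r ≤ dist p c) : bump r c p = 0 := by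
  unfold bump
  exact max_eq_left (by linarith)

omit [NormedSpace ℝ V] [CompleteSpace V] in
lemma bump_self {r : ℝ} (hr : 0 ≤ r) (c : V) : bump r c c = r := by
  unfold bump
  rw [dist_self, sub_zero]
  exact max_eq_right hr

/-- the perturbation of the identity -/
noncomputable def Phi (κ r : ℝ) (c w : ι → V) (p : V) : V :=
  p + ∑ i, (κ * bump r (c i) p) • w i

lemma exists_homeo [Nontrivial V] (κ r : ℝ) (c w : ι → V) (h : |κ| * ∑ i, ‖w i‖ < 1) :
    ∃ H : V ≃ₜ V, ∀ p, H p = Phi κ r c w p := by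
  have hA : ApproximatesLinearOn (Phi κ r c w)
      ((ContinuousLinearEquiv.refl ℝ V : V ≃L[ℝ] V) : V →L[ℝ] V) univ
      ⟨|κ| * ∑ i, ‖w i‖, by positivity⟩ := by
    intro p _ q _
    have h1 : Phi κ r c w p - Phi κ r c w q -
        ((ContinuousLinearEquiv.refl ℝ V : V ≃L[ℝ] V) : V →L[ℝ] V) (p - q) =
        ∑ i, (κ * (bump r (c i) p - bump r (c i) q)) • w i := by
      unfold Phi
      simp only [ContinuousLinearEquiv.coe_refl, ContinuousLinearMap.coe_id', id_eq]
      rw [show p + ∑ i, (κ * bump r (c i) p) • w i - (q + ∑ i, (κ * bump r (c i) q) • w i) - (p - q) =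
        ∑ i, (κ * bump r (c i) p) • w i - ∑ i, (κ * bump r (c i) q) • w i by abel,
        ← Finset.sum_sub_distrib]
      refine Finset.sum_congr rfl fun i _ => ?_
      rw [← sub_smul]
      congr 1
      ring
    rw [h1]
    refine (norm_sum_le _ _).trans ?_
    have h2 : ∀ i ∈ (Finset.univ : Finset ι), ‖(κ * (bump r (c i) p - bump r (c i) q)) • w i‖ ≤
        |κ| * ‖w i‖ * ‖p - q‖ := by
      intro i _
      rw [norm_smul, norm_mul, Real.norm_eq_abs, Real.norm_eq_abs]
      have := bump_lip r (c i) p q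
      calc |κ| * |bump r (c i) p - bump r (c i) q| * ‖w i‖
          ≤ |κ| * ‖p - q‖ * ‖w i‖ := by gcongr
        _ = |κ| * ‖w i‖ * ‖p - q‖ := by ring
    refine (Finset.sum_le_sum h2).trans (le_of_eq ?_)
    rw [← Finset.sum_mul, ← Finset.mul_sum]
    rfl
  have hlt : (⟨|κ| * ∑ i, ‖w i‖, by positivity⟩ : NNReal) < 1 := NNReal.coe_lt_coe.mp h
  have hc : Subsingleton V ∨ (⟨|κ| * ∑ i, ‖w i‖, by positivity⟩ : NNReal) <
      ‖((ContinuousLinearEquiv.refl ℝ V).symm : V →L[ℝ] V)‖₊⁻¹ := by
    right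
    have h3 : ‖((ContinuousLinearEquiv.refl ℝ V).symm : V →L[ℝ] V)‖₊ = 1 := by
      have h4 : ((ContinuousLinearEquiv.refl ℝ V).symm : V →L[ℝ] V) = ContinuousLinearMap.id ℝ V := rfl
      rw [h4]
      exact ContinuousLinearMap.nnnorm_id
    rw [h3, inv_one]
    exact hlt
  exact ⟨ApproximatesLinearOn.toHomeomorph (Phi κ r c w) hA hc, fun p => rfl⟩

/-- the ray segment -/
def seg (x w : V) (a : ℝ) : Set V := (fun s : ℝ => x + s • w) '' Icc 0 a

omit [CompleteSpace V] in
lemma seg_eq (x w : V) {a : ℝ} (ha : 0 < a) : segment ℝ x (x + a • w) = seg x w a := by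
  rw [segment_eq_image']
  unfold seg
  ext p
  constructor
  · rintro ⟨θ, ⟨h0, h1⟩, rfl⟩
    refine ⟨θ * a, ⟨by positivity, by nlinarith⟩, ?_⟩
    simp only [add_sub_cancel_left, smul_smul]
  · rintro ⟨s, ⟨h0, h1⟩, rfl⟩
    refine ⟨s / a, ⟨by positivity, (div_le_one ha).mpr h1⟩, ?_⟩
    simp only [add_sub_cancel_left, smul_smul, div_mul_cancel₀ _ ha.ne']

/-- the relation: some homeomorphism fixing `E` pointwise lengthens all segments from `a` to `b` -/
def Rel (E : Set V) (x w : ι → V) (a b : ℝ) : Prop :=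
  ∃ H : V ≃ₜ V, (∀ p ∈ E, H p = p) ∧ ∀ i, H '' seg (x i) (w i) a = seg (x i) (w i) b ∧
    H (x i + a • w i) = x i + b • w i

omit [CompleteSpace V] [Fintype ι] in
lemma Rel.symm {E : Set V} {x w : ι → V} {a b : ℝ} (h : Rel E x w a b) : Rel E x w b a := by
  obtain ⟨H, h1, h2⟩ := h
  refine ⟨H.symm, fun p hp => ?_, fun i => ⟨?_, ?_⟩⟩
  · rw [Homeomorph.symm_apply_eq, h1 p hp]
  · rw [← (h2 i).1, ← image_comp]
    simp
  · rw [Homeomorph.symm_apply_eq, (h2 i).2]

omit [CompleteSpace V] [Fintype ι] in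
lemma Rel.trans {E : Set V} {x w : ι → V} {a b c : ℝ} (h : Rel E x w a b) (h' : Rel E x w b c) :
    Rel E x w a c := by
  obtain ⟨H, h1, h2⟩ := h
  obtain ⟨H', h1', h2'⟩ := h'
  refine ⟨H.trans H', fun p hp => ?_, fun i => ⟨?_, ?_⟩⟩
  · rw [Homeomorph.trans_apply, h1 p hp, h1' p hp]
  · have : (H.trans H' : V → V) '' seg (x i) (w i) a = H' '' (H '' seg (x i) (w i) a) := by
      rw [← image_comp]; rfl
    rw [this, (h2 i).1, (h2' i).1]
  · rw [Homeomorph.trans_apply, (h2 i).2, (h2' i).2]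

/-- the local step -/
lemma local_step [Nontrivial V] {E : Set V} (hE : IsClosed E) {x w : ι → V} {δ : ℝ}
    (hx : ∀ i, x i ∈ E)
    (h1 : ∀ i s, 0 < s → s < δ → x i + s • w i ∉ E)
    (h2 : ∀ i j, i ≠ j → ∀ s t, 0 < s → s < δ → 0 ≤ t → t < δ → x i + s • w i ≠ x j + t • w j)
    {a : ℝ} (ha0 : 0 < a) (ha : a < δ) :
    ∃ η > 0, ∀ b, |b - a| < η → Rel E x w a b := by
  classical
  -- the radius
  have hrad : ∀ i, ∃ r > 0, ∀ p, (p ∈ E ∨ ∃ j, j ≠ i ∧ p ∈ seg (x j) (w j) ((a + δ) / 2)) →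
      r ≤ dist p (x i + a • w i) := by
    intro i
    set C : Set V := E ∪ ⋃ j : {j : ι // j ≠ i}, seg (x j) (w j) ((a + δ) / 2) with hC
    have hCc : IsClosed C := by
      refine hE.union (isClosed_iUnion_of_finite fun j => ?_)
      unfold seg
      exact (isCompact_Icc.image (by fun_prop)).isClosed
    have hn : x i + a • w i ∉ C := by
      rintro (h | h)
      · exact h1 i a ha0 ha h
      · obtain ⟨j, hj⟩ := mem_iUnion.mp h
        obtain ⟨t, ⟨ht0, ht1⟩, ht⟩ := hj
        exact h2 i j (Ne.symm j.2) a t ha0 ha ht0 (by linarith) ht.symm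
    obtain ⟨r, hr, hb⟩ := Metric.isOpen_iff.mp hCc.isOpen_compl _ hn
    refine ⟨r, hr, fun p hp => ?_⟩
    by_contra hlt
    push Not at hlt
    have hpb : p ∈ Metric.ball (x i + a • w i) r := hlt
    apply hb hpb
    rcases hp with h | ⟨j, hj, h⟩
    · exact Or.inl h
    · exact Or.inr (mem_iUnion.mpr ⟨⟨j, hj⟩, h⟩)
  choose r hr hrp using hrad
  obtain ⟨R, hR, hRr⟩ : ∃ R > 0, ∀ i, R ≤ r i := by
    rcases isEmpty_or_nonempty ι with he | he
    · exact ⟨1, one_pos, fun i => (he.false i).elim⟩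
    · refine ⟨Finset.univ.inf' Finset.univ_nonempty r, ?_, fun i => Finset.inf'_le _ (Finset.mem_univ i)⟩
      rw [gt_iff_lt, Finset.lt_inf'_iff]
      exact fun i _ => hr i
  set W : ℝ := ∑ i, ‖w i‖ with hW
  have hW0 : 0 ≤ W := Finset.sum_nonneg fun i _ => norm_nonneg _
  refine ⟨min (R / (W + 1)) (min a ((δ - a) / 2)), by
    refine lt_min (by positivity) (lt_min ha0 (by linarith)), fun b hb => ?_⟩
  have hb1 : |b - a| < R / (W + 1) := hb.trans_le (min_le_left _ _)
  have hb2 : |b - a| < a := hb.trans_le ((min_le_right _ _).trans (min_le_left _ _))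
  have hb3 : |b - a| < (δ - a) / 2 := hb.trans_le ((min_le_right _ _).trans (min_le_right _ _))
  rw [abs_lt] at hb2 hb3
  set κ : ℝ := (b - a) / R with hκ
  have hκR : κ * R = b - a := div_mul_cancel₀ _ hR.ne'
  have hκa : |κ| * (W + 1) < 1 := by
    rw [hκ, abs_div, abs_of_pos hR]
    rw [lt_div_iff₀ (by positivity)] at hb1
    rw [div_mul_eq_mul_div, div_lt_one hR]
    exact hb1
  have hκW : |κ| * W < 1 := by nlinarith [abs_nonneg κ]
  obtain ⟨H, hH⟩ := exists_homeo κ R (fun i => x i + a • w i) w hκW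
  have hzero : ∀ i p, (p ∈ E ∨ ∃ j, j ≠ i ∧ p ∈ seg (x j) (w j) ((a + δ) / 2)) →
      bump R (x i + a • w i) p = 0 := fun i p hp =>
    bump_zero ((hRr i).trans (hrp i p hp))
  have hfix : ∀ p ∈ E, H p = p := by
    intro p hp
    rw [hH]
    unfold Phi
    rw [Finset.sum_eq_zero, add_zero]
    intro i _
    rw [hzero i p (Or.inl hp), mul_zero, zero_smul]
  -- on the segment `i`
  have hseg : ∀ i s, 0 ≤ s → s ≤ (a + δ) / 2 →
      H (x i + s • w i) = x i + (s + κ * bump R (x i + a • w i) (x i + s • w i)) • w i := by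
    intro i s hs0 hs1
    rw [hH]
    unfold Phi
    rw [Finset.sum_eq_single i]
    · rw [add_smul, add_assoc]
    · intro j _ hj
      rw [hzero j _ (Or.inr ⟨i, Ne.symm hj, ⟨s, ⟨hs0, hs1⟩, rfl⟩⟩), mul_zero, zero_smul]
    · intro h; exact absurd (Finset.mem_univ i) h
  refine ⟨H, hfix, fun i => ?_⟩
  set g : ℝ → ℝ := fun s => s + κ * bump R (x i + a • w i) (x i + s • w i) with hg
  have hwi : |κ| * ‖w i‖ < 1 := by
    have : ‖w i‖ ≤ W := Finset.single_le_sum (f := fun i => ‖w i‖) (fun j _ => norm_nonneg _)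
      (Finset.mem_univ i)
    nlinarith [abs_nonneg κ]
  have hgl : ∀ s t, |g s - g t - (s - t)| ≤ |κ| * ‖w i‖ * |s - t| := by
    intro s t
    have e : g s - g t - (s - t) = κ * (bump R (x i + a • w i) (x i + s • w i) -
        bump R (x i + a • w i) (x i + t • w i)) := by
      simp only [hg]; ring
    rw [e, abs_mul]
    have h3 := bump_lip R (x i + a • w i) (x i + s • w i) (x i + t • w i)
    have h4 : x i + s • w i - (x i + t • w i) = (s - t) • w i := by
      rw [sub_smul]; abel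
    rw [h4, norm_smul, Real.norm_eq_abs] at h3
    calc |κ| * |bump R (x i + a • w i) (x i + s • w i) - bump R (x i + a • w i) (x i + t • w i)|
        ≤ |κ| * (|s - t| * ‖w i‖) := by gcongr
      _ = _ := by ring
  have hgm : StrictMono g := by
    intro s t hst
    have h5 := hgl t s
    have h6 : |κ| * ‖w i‖ * |t - s| < |t - s| := by
      have : 0 < |t - s| := abs_pos.mpr (by linarith)
      nlinarith
    have h7 : |t - s| = t - s := abs_of_pos (by linarith)
    rw [h7] at h5 h6
    have h8 := (abs_le.mp h5).1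
    linarith
  have hgc : Continuous g := by
    have hb' : Continuous fun p : V => bump R (x i + a • w i) p := by
      unfold bump; fun_prop
    have : Continuous fun s : ℝ => x i + s • w i := by fun_prop
    have h9 := hb'.comp this
    have h10 : Continuous fun s : ℝ => s + κ * bump R (x i + a • w i) (x i + s • w i) :=
      continuous_id.add (continuous_const.mul h9)
    exact h10
  have hg0 : g 0 = 0 := by
    simp only [hg, zero_smul, add_zero, zero_add]
    rw [hzero i _ (Or.inl (hx i)), mul_zero]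
  have hga : g a = b := by
    simp only [hg]
    rw [bump_self hR.le, hκR]; ring
  constructor
  · unfold seg
    rw [← image_comp]
    ext p
    constructor
    · rintro ⟨s, ⟨hs0, hs1⟩, rfl⟩
      refine ⟨g s, ⟨?_, ?_⟩, ?_⟩
      · rw [← hg0]; exact hgm.monotone hs0
      · rw [← hga]; exact hgm.monotone hs1
      · simp only [Function.comp_apply]
        rw [hseg i s hs0 (by linarith)]
    · rintro ⟨t, ht, rfl⟩
      have hIVT := intermediate_value_Icc ha0.le hgc.continuousOn
      rw [hg0, hga] at hIVT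
      obtain ⟨s, ⟨hs0, hs1⟩, hst⟩ := hIVT ht
      refine ⟨s, ⟨hs0, hs1⟩, ?_⟩
      simp only [Function.comp_apply]
      rw [hseg i s hs0 (by linarith), ← hst]
  · rw [hseg i a ha0.le (by linarith)]
    rw [bump_self hR.le, hκR]
    congr 2
    ring

theorem rel_all [Nontrivial V] {E : Set V} (hE : IsClosed E) {x w : ι → V} {δ : ℝ}
    (hx : ∀ i, x i ∈ E)
    (h1 : ∀ i s, 0 < s → s < δ → x i + s • w i ∉ E)
    (h2 : ∀ i j, i ≠ j → ∀ s t, 0 < s → s < δ → 0 ≤ t → t < δ → x i + s • w i ≠ x j + t • w j)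
    {a b : ℝ} (ha0 : 0 < a) (ha : a < δ) (hb0 : 0 < b) (hb : b < δ) : Rel E x w a b := by
  refine isPreconnected_Ioo.induction₂' (s := Ioo 0 δ) (Rel E x w) ?_ ?_ ⟨ha0, ha⟩ ⟨hb0, hb⟩
  · intro c hc
    obtain ⟨η, hη, h⟩ := local_step hE hx h1 h2 hc.1 hc.2
    have : ∀ᶠ d in 𝓝[Ioo 0 δ] c, |d - c| < η := by
      refine mem_nhdsWithin_of_mem_nhds ?_
      exact Metric.ball_mem_nhds c hη
    filter_upwards [this] with d hd
    exact ⟨h d hd, (h d hd).symm⟩
  · intro c d e _ _ _ h3 h4
    exact h3.trans h4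

end Pool.Agent.N711.PolyHomeo
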