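import Mathlib
import Pool.Agent.Helper337.PolygonProofC
import Pool.Agent.N711.PolyHomeo

set_option autoImplicit false

namespace Pool.Agent.N711.PolyFrozen

open Set Filter Topology Pool.Agent.Helper337.PolygonPattern Pool.Agent.N711.PolyHomeo

/-- the direction of the extra edge at `x i` -/
def ww (x : ZMod 14 → Plane) (i : ZMod 14) : Plane := (2 : ℝ) • x i - x (i - 1) - x (i + 1)

theorem prop_int : ∀ i, orr (XZ (i - 1)) (XZ i) (XZ (i + 1)) ≠ 0 := by decide +kernel

theorem XZ_inj : ∀ i j, XZ i = XZ j → i = j := by decide +kernel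

theorem xx_inj {i j : ZMod 14} (h : xx i = xx j) : i = j := by
  apply XZ_inj
  simp only [xx, toR, Prod.mk.injEq] at h
  exact Prod.ext (by exact_mod_cast h.1) (by exact_mod_cast h.2)

theorem prop_real (i : ZMod 14) : orR (xx (i - 1)) (xx i) (xx (i + 1)) ≠ 0 := by
  unfold xx
  rw [orR_toR]
  exact_mod_cast prop_int i

def EE : Set Plane := ⋃ i, edge xx i

theorem EE_closed : IsClosed EE := by
  refine isClosed_iUnion_of_finite fun i => ?_
  unfold edge
  rw [segment_eq_image']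
  exact (isCompact_Icc.image (by fun_prop)).isClosed

theorem edge_closed (i : ZMod 14) : IsClosed (edge xx i) := by
  unfold edge
  rw [segment_eq_image']
  exact (isCompact_Icc.image (by fun_prop)).isClosed

theorem xx_mem_EE (i : ZMod 14) : xx i ∈ EE :=
  mem_iUnion.mpr ⟨i, left_mem_segment ℝ _ _⟩

theorem ev1 (i j : ZMod 14) : ∀ᶠ s : ℝ in 𝓝[>] 0, xx i + s • ww xx i ∉ edge xx j := by
  by_cases h1 : j = i
  · subst h1
    filter_upwards [self_mem_nhdsWithin] with s hs hm
    have hs' : (0 : ℝ) < s := hs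
    have e := orR_self _ _ _ hm
    have hp := prop_real j
    apply hp
    have e2 : orR (xx j) (xx (j + 1)) (xx j + s • ww xx j) =
        -s * orR (xx (j - 1)) (xx j) (xx (j + 1)) := by
      simp only [orR, ww, Prod.fst_add, Prod.snd_add, Prod.smul_fst, Prod.smul_snd, Prod.fst_sub,
        Prod.snd_sub, smul_eq_mul]
      ring
    rw [e2] at e
    rcases mul_eq_zero.mp e with h | h
    · linarith
    · exact h
  · by_cases h2 : j + 1 = i
    · have h3 : j = i - 1 := by rw [← h2]; ring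
      subst h3
      filter_upwards [self_mem_nhdsWithin] with s hs hm
      have hs' : (0 : ℝ) < s := hs
      unfold edge at hm
      have e0 : i - 1 + 1 = i := by ring
      rw [e0] at hm
      have e := orR_self _ _ _ hm
      have hp := prop_real i
      apply hp
      have e2 : orR (xx (i - 1)) (xx i) (xx i + s • ww xx i) =
          -s * orR (xx (i - 1)) (xx i) (xx (i + 1)) := by
        simp only [orR, ww, Prod.fst_add, Prod.snd_add, Prod.smul_fst, Prod.smul_snd, Prod.fst_sub,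
          Prod.snd_sub, smul_eq_mul]
        ring
      rw [e2] at e
      rcases mul_eq_zero.mp e with h | h
      · linarith
      · exact h
    · have hn : xx i ∉ edge xx j := by
        intro h
        have h3 : j ≠ i - 1 := by
          intro h4; apply h2; rw [h4]; ring
        refine no_incidence ordinaryX (i - 1) i j (by ring) h3 h1 ?_ h
        intro h5
        have : (1 : ZMod 14) = 0 := by
          have := congrArg (fun z => i - z) h5
          simpa using this
        exact absurd this (by decide)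
      have hc : ContinuousAt (fun s : ℝ => xx i + s • ww xx i) 0 := by fun_prop
      have hopen : (edge xx j)ᶜ ∈ 𝓝 ((fun s : ℝ => xx i + s • ww xx i) 0) := by
        simp only [zero_smul, add_zero]
        exact (edge_closed j).isOpen_compl.mem_nhds hn
      exact mem_nhdsWithin_of_mem_nhds (hc hopen)

theorem exists_delta1 : ∃ δ : ℝ, 0 < δ ∧ ∀ (i : ZMod 14) (s : ℝ), 0 < s → s < δ → xx i + s • ww xx i ∉ EE := by
  have h : ∀ᶠ s : ℝ in 𝓝[>] 0, ∀ i j, xx i + s • ww xx i ∉ edge xx j := by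
    rw [eventually_all]
    intro i
    rw [eventually_all]
    exact fun j => ev1 i j
  obtain ⟨δ, hδ, h⟩ := mem_nhdsGT_iff_exists_Ioo_subset.mp h
  refine ⟨δ, hδ, fun i s h0 h1 hm => ?_⟩
  obtain ⟨j, hj⟩ := mem_iUnion.mp hm
  exact h ⟨h0, h1⟩ i j hj

theorem exists_delta2 : ∃ δ : ℝ, 0 < δ ∧ ∀ i j : ZMod 14, i ≠ j → ∀ s t : ℝ, 0 < s → s < δ → 0 ≤ t → t < δ →
    xx i + s • ww xx i ≠ xx j + t • ww xx j := by
  have h : ∀ᶠ q : ℝ × ℝ in 𝓝 (0, 0), ∀ i j, i ≠ j →
      xx i + q.1 • ww xx i - (xx j + q.2 • ww xx j) ≠ 0 := by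
    rw [eventually_all]
    intro i
    rw [eventually_all]
    intro j
    by_cases hij : i = j
    · exact Eventually.of_forall fun q h => absurd hij h
    · have hc : ContinuousAt (fun q : ℝ × ℝ => xx i + q.1 • ww xx i - (xx j + q.2 • ww xx j))
          (0, 0) := by fun_prop
      have hne : (fun q : ℝ × ℝ => xx i + q.1 • ww xx i - (xx j + q.2 • ww xx j)) (0, 0) ≠ 0 := by
        simp only [zero_smul, add_zero]
        intro h
        exact hij (xx_inj (sub_eq_zero.mp h))
      filter_upwards [hc.eventually_ne hne] with q hq _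
      exact hq
  obtain ⟨δ, hδ, h⟩ := Metric.eventually_nhds_iff.mp h
  refine ⟨δ, hδ, fun i j hij s t hs0 hs ht0 ht he => ?_⟩
  have hd : dist (s, t) ((0 : ℝ), (0 : ℝ)) < δ := by
    rw [Prod.dist_eq, Real.dist_eq, Real.dist_eq]
    simp only [sub_zero]
    rw [abs_of_pos hs0, abs_of_nonneg ht0]
    exact max_lt hs ht
  exact h hd i j hij (sub_eq_zero.mpr he)

theorem exists_rel : ∃ δ : ℝ, 0 < δ ∧ ∀ a b : ℝ, 0 < a → a < δ → 0 < b → b < δ →
    Rel EE xx (ww xx) a b := by
  obtain ⟨δ1, h1, H1⟩ := exists_delta1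
  obtain ⟨δ2, h2, H2⟩ := exists_delta2
  refine ⟨min δ1 δ2, lt_min h1 h2, fun a b ha0 ha hb0 hb => ?_⟩
  refine rel_all EE_closed (δ := min δ1 δ2) xx_mem_EE ?_ ?_ ha0 ha hb0 hb
  · exact fun i s hs0 hs => H1 i s hs0 (hs.trans_le (min_le_left _ _))
  · exact fun i j hij s t hs0 hs ht0 ht => H2 i j hij s t hs0 (hs.trans_le (min_le_right _ _)) ht0
      (ht.trans_le (min_le_right _ _))

/-! ### the map sets and the nodes -/

/-- the outer end of the extra edge -/
def pend (x : ZMod 14 → Plane) (ε : ℝ) (i : ZMod 14) : Plane := x i + ε • ww x i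

def mapSet (x : ZMod 14 → Plane) (ε : ℝ) : Set Plane :=
  (⋃ i, edge x i) ∪ ⋃ i, segment ℝ (x i) (pend x ε i)

def nodes (x : ZMod 14 → Plane) (ε : ℝ) : Set Plane :=
  Set.range x ∪ {p : Plane | ∃ i j, i ≠ j ∧ p ∈ edge x i ∧ p ∈ edge x j} ∪ Set.range (pend x ε)

theorem rel_mapSet {a b : ℝ} (ha : 0 < a) (hb : 0 < b) (h : Rel EE xx (ww xx) a b) :
    ∃ H : Plane ≃ₜ Plane, H '' mapSet xx a = mapSet xx b ∧ H '' nodes xx a = nodes xx b := by
  obtain ⟨H, h1, h2⟩ := h
  have hE : ∀ s ⊆ EE, H '' s = s := by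
    intro s hs
    ext p
    constructor
    · rintro ⟨q, hq, rfl⟩
      rw [h1 q (hs hq)]; exact hq
    · intro hp
      exact ⟨p, hp, h1 p (hs hp)⟩
  refine ⟨H, ?_, ?_⟩
  · unfold mapSet
    rw [image_union, hE (⋃ i, edge xx i) (fun p hp => hp), image_iUnion]
    congr 1
    refine iUnion_congr fun i => ?_
    unfold pend
    rw [seg_eq _ _ ha, seg_eq _ _ hb]
    exact (h2 i).1
  · unfold nodes
    rw [image_union, image_union, hE (Set.range xx), hE {p : Plane | ∃ i j, i ≠ j ∧ p ∈ edge xx i ∧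
      p ∈ edge xx j}]
    · congr 1
      ext p
      constructor
      · rintro ⟨_, ⟨i, rfl⟩, rfl⟩
        exact ⟨i, (h2 i).2.symm⟩
      · rintro ⟨i, rfl⟩
        exact ⟨_, ⟨i, rfl⟩, (h2 i).2⟩
    · rintro p ⟨i, j, -, hi, -⟩
      exact mem_iUnion.mpr ⟨i, hi⟩
    · rintro p ⟨i, rfl⟩
      exact xx_mem_EE i

theorem tau_pend (ε : ℝ) (i : ZMod 14) : tau (pend xx ε i) = pend yy ε (i + 7) := by
  unfold pend ww
  have h1 : i + 7 - 1 = (i - 1) + 7 := by ring
  have h2 : i + 7 + 1 = (i + 1) + 7 := by ring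
  rw [h1, h2, ← tau_xx, ← tau_xx, ← tau_xx]
  simp only [tau_apply]
  apply Prod.ext
  · simp
  · simp; try ring

theorem tau_mapSet (ε : ℝ) : tau '' mapSet xx ε = mapSet yy ε := by
  unfold mapSet
  rw [image_union, image_iUnion, image_iUnion]
  simp only [tau_edge, tau_segment, tau_xx, tau_pend]
  rw [iUnion_shift (fun i => edge yy i), iUnion_shift (fun i => segment ℝ (yy i) (pend yy ε i))]

theorem range_shift {α : Type} (f : ZMod 14 → α) : Set.range (fun i => f (i + 7)) = Set.range f :=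
  (Equiv.addRight (7 : ZMod 14)).surjective.range_comp f

theorem tau_nodes (ε : ℝ) : tau '' nodes xx ε = nodes yy ε := by
  unfold nodes
  rw [image_union, image_union]
  congr 1
  · congr 1
    · rw [← range_comp]
      have : (tau : Plane → Plane) ∘ xx = fun i => yy (i + 7) := by
        funext i; exact tau_xx i
      rw [this, range_shift]
    · ext p
      constructor
      · rintro ⟨q, ⟨i, j, hij, hi, hj⟩, rfl⟩
        refine ⟨i + 7, j + 7, fun h => hij (add_right_cancel h), ?_, ?_⟩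
        · rw [← tau_edge]; exact mem_image_of_mem _ hi
        · rw [← tau_edge]; exact mem_image_of_mem _ hj
      · rintro ⟨i, j, hij, hi, hj⟩
        have e : ∀ k : ZMod 14, k = (k - 7) + 7 := fun k => by ring
        rw [e i, ← tau_edge] at hi
        rw [e j, ← tau_edge] at hj
        obtain ⟨q, hq, hqp⟩ := hi
        obtain ⟨q', hq', hqp'⟩ := hj
        have : q = q' := tau.injective (hqp.trans hqp'.symm)
        subst this
        exact ⟨q, ⟨i - 7, j - 7, fun h => hij (sub_left_injective h), hq, hq'⟩, hqp⟩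
  · rw [← range_comp]
    have : (tau : Plane → Plane) ∘ pend xx ε = fun i => pend yy ε (i + 7) := by
      funext i; exact tau_pend ε i
    rw [this, range_shift]

theorem samePatternF : ∃ δ : ℝ, 0 < δ ∧ ∀ ε₁ ε₂ : ℝ, 0 < ε₁ → ε₁ < δ → 0 < ε₂ → ε₂ < δ →
    ∃ h : Plane ≃ₜ Plane, h '' mapSet xx ε₁ = mapSet yy ε₂ ∧ h '' nodes xx ε₁ = nodes yy ε₂ := by
  obtain ⟨δ, hδ, hrel⟩ := exists_rel
  refine ⟨δ, hδ, fun a b ha0 ha hb0 hb => ?_⟩
  obtain ⟨H, h1, h2⟩ := rel_mapSet ha0 hb0 (hrel a b ha0 ha hb0 hb)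
  refine ⟨H.trans tau, ?_, ?_⟩
  · have : (H.trans tau : Plane → Plane) '' mapSet xx a = tau '' (H '' mapSet xx a) := by
      rw [← image_comp]; rfl
    rw [this, h1, tau_mapSet]
  · have : (H.trans tau : Plane → Plane) '' nodes xx a = tau '' (H '' nodes xx a) := by
      rw [← image_comp]; rfl
    rw [this, h2, tau_nodes]

/-! ### relabellings -/

theorem relab_of_add {ρ : ZMod 14 → ZMod 14} (h : ∀ i, ρ (i + 1) = ρ i + 1) (i : ZMod 14) :
    ρ i = ρ 0 + i := by
  have : ∀ n : ℕ, ρ (n : ZMod 14) = ρ 0 + n := by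
    intro n
    induction n with
    | zero => simp
    | succ n ih => rw [Nat.cast_succ, h, ih]; ring
  have h2 := this i.val
  rwa [ZMod.natCast_zmod_val] at h2

theorem relab_of_sub {ρ : ZMod 14 → ZMod 14} (h : ∀ i, ρ (i + 1) = ρ i - 1) (i : ZMod 14) :
    ρ i = ρ 0 - i := by
  have : ∀ n : ℕ, ρ (n : ZMod 14) = ρ 0 - n := by
    intro n
    induction n with
    | zero => simp
    | succ n ih => rw [Nat.cast_succ, h, ih]; ring
  have h2 := this i.val
  rwa [ZMod.natCast_zmod_val] at h2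

theorem isRelabelling_of {ρ : ZMod 14 → ZMod 14}
    (h : (∀ i, ρ (i + 1) = ρ i + 1) ∨ (∀ i, ρ (i + 1) = ρ i - 1)) : IsRelabelling ρ :=
  ⟨ρ 0, h.imp relab_of_add relab_of_sub⟩

/-- addition of one, in `ZMod 14` -/
def succZ (i : ZMod 14) : ZMod 14 := i + 1

/-- subtraction of one, in `ZMod 14` -/
def predZ (i : ZMod 14) : ZMod 14 := i - 1

theorem rot (i : Fin 14) : finRotate 14 i = succZ i := by
  rw [finRotate_apply]; rfl

theorem rot_symm (i : Fin 14) : (finRotate 14).symm i = predZ i := by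
  refine (Equiv.symm_apply_eq _).mpr ?_
  have h : ∀ j : ZMod 14, j = succZ (predZ j) := fun j => by unfold succZ predZ; ring
  exact (h i).trans (rot (predZ i)).symm

/-! ### in the terms of the frozen statement -/

def EdgeF (x : Fin 14 → ℝ × ℝ) (i : Fin 14) : Set (ℝ × ℝ) := segment ℝ (x i) (x (finRotate 14 i))

noncomputable def PendF (x : Fin 14 → ℝ × ℝ) (ε : ℝ) (i : Fin 14) : ℝ × ℝ :=
  x i + ε • ((2:ℝ) • x i - x ((finRotate 14).symm i) - x (finRotate 14 i))

theorem EdgeF_eq (x : Fin 14 → ℝ × ℝ) (i : Fin 14) : EdgeF x i = edge (n := 14) x i := by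
  unfold EdgeF
  rw [rot]
  rfl

theorem PendF_eq (x : Fin 14 → ℝ × ℝ) (ε : ℝ) (i : Fin 14) : PendF x ε i = pend x ε i := by
  unfold PendF
  rw [rot, rot_symm]
  rfl

theorem ordinaryF_iff (x : Fin 14 → ℝ × ℝ) :
    (∀ (p : ℝ × ℝ) (i j k : Fin 14), p ∈ EdgeF x i → p ∈ EdgeF x j → p ∈ EdgeF x k →
      i = j ∨ j = k ∨ i = k) ↔ Ordinary (n := 14) x := by
  constructor
  · intro h
    simp only [EdgeF_eq] at h
    intro p i j k hij hjk hik ⟨h1, h2, h3⟩
    rcases h p i j k h1 h2 h3 with h4 | h4 | h4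
    · exact hij h4
    · exact hjk h4
    · exact hik h4
  · intro h p i j k h1 h2 h3
    by_contra hcon
    push Not at hcon
    rw [EdgeF_eq] at h1 h2 h3
    exact h p i j k hcon.1 hcon.2.1 hcon.2.2 ⟨h1, h2, h3⟩

theorem properF_of (x : Fin 14 → ℝ × ℝ) (h1 : IsPolygon (n := 14) x) (h2 : Proper (n := 14) x) :
    (∀ i, x i ≠ x (finRotate 14 i)) ∧
      ∀ i, ¬ Collinear ℝ ({x ((finRotate 14).symm i), x i, x (finRotate 14 i)} : Set (ℝ × ℝ)) := by
  constructor
  · intro i
    rw [rot]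
    exact h1 i
  · intro i
    rw [rot, rot_symm]
    exact h2 i

theorem mapSetF_eq (x : Fin 14 → ℝ × ℝ) (ε : ℝ) :
    (⋃ i, EdgeF x i) ∪ ⋃ i, segment ℝ (x i) (PendF x ε i) = mapSet x ε := by
  unfold mapSet
  simp only [EdgeF_eq, PendF_eq]
  rfl

theorem nodesF_eq (x : Fin 14 → ℝ × ℝ) (ε : ℝ) :
    Set.range x ∪ {p : ℝ × ℝ | ∃ i j, i ≠ j ∧ p ∈ EdgeF x i ∧ p ∈ EdgeF x j}
      ∪ Set.range (PendF x ε) = nodes x ε := by
  have : PendF x ε = pend x ε := funext fun i => PendF_eq x ε i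
  rw [this]
  unfold nodes
  simp only [EdgeF_eq]
  rfl

theorem parallelF_iff (x z : Fin 14 → ℝ × ℝ) :
    (∀ i, ∃ c : ℝ, 0 < c ∧ z (finRotate 14 i) - z i = c • (x (finRotate 14 i) - x i)) ↔
      ParallelEdges (n := 14) x z := by
  simp only [rot]
  exact Iff.rfl

theorem dihedralF (σ : Equiv.Perm (Fin 14))
    (h : (∀ i, σ (finRotate 14 i) = finRotate 14 (σ i)) ∨
      (∀ i, σ (finRotate 14 i) = (finRotate 14).symm (σ i))) :
    IsRelabelling (n := 14) (fun i => σ i) := by
  simp only [rot, rot_symm] at h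
  exact isRelabelling_of h

end Pool.Agent.N711.PolyFrozen
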