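import Pool.Agent.N906.QP.Stm
import Pool.Agent.N814.KG_GLOWK

/-!
# Project QP (helper906): GLOWJ

By helper711, after `Pool.Agent.N42.RSA` (helper42), `Pool.Agent.N814.KG_An`, `Pool.Agent.N814.KG_GLOWK` (helper814).
-/

set_option autoImplicit false
set_option linter.unusedSectionVars false

namespace Pool.Agent.N711.QP

open NumberField IsDedekindDomain Finset Filter Topology Pool.Agent.H691R3 Pool.Agent.W223.AK
open Pool.Agent.N906.KG (sp tl tr Sq S_GLOWJ)
open Pool.Agent.N42.RSA (PITn cf Ls mem_Ls card_Ls blk small)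
open Pool.Agent.N814.KG (gr gr_sub gr_low num4 num5 num7 mem_sp mk mk_in mk_out mk_sp mk_inj)

/-! ### The analysis -/

section an

variable {ι : Type} {N : ι → ℝ}

/-- the window of the primes -/
theorem win (h2 : ∀ v, 2 ≤ N v) (hint : ∀ v, ∃ n : ℕ, N v = n) (hP : PITn N) {ε κ δ M : ℝ}
    (hε : 0 < ε) (hε1 : ε < 1 / 3) (hκd : κ = ε / 8) (hδ0 : 0 < δ) (hM : 0 < M) :
    ∃ u₀ : ℝ, 0 < u₀ ∧ u₀ < 1 / 2 ∧ ∀ u : ℝ, 0 < u → u < u₀ → ∃ s : Finset ι,
      (∀ v ∈ s, u ^ (-(1 + ε)) ≤ N v ∧ 1 ≤ Real.log (N v) ∧ u * Real.log (N v) ≤ δ ∧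
        M ≤ N v * u) ∧
      (1 - κ) ^ 4 / ((1 + ε) * Real.log (1 / u)) ≤ ∑ v ∈ s, 1 / (N v * Real.log (N v)) := by
  classical
  have hκ : 0 < κ := by rw [hκd]; linarith
  have hκ8 : κ ≤ 1 / 8 := by rw [hκd]; linarith
  obtain ⟨lam, hlam⟩ : ∃ lam, lam = 1 + κ := ⟨_, rfl⟩
  have hl : 1 < lam := by rw [hlam]; linarith
  have hll : 0 < Real.log lam := Real.log_pos hl
  have hll1 : Real.log lam ≤ κ := by
    have := Real.log_le_sub_one_of_pos (show 0 < lam by linarith)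
    rw [hlam] at this ⊢
    linarith
  obtain ⟨T₀, hT₀, hb⟩ := blk hP hint hl (η := κ) hκ
  obtain ⟨T₁, hT₁d⟩ : ∃ T₁, T₁ = max T₀ (Real.exp (Real.log lam / κ)) := ⟨_, rfl⟩
  have hT₁0 : T₀ ≤ T₁ := by rw [hT₁d]; exact le_max_left _ _
  have hT₁3 : 3 ≤ T₁ := hT₀.trans hT₁0
  have hT₁l : ((1 : ℕ) : ℝ) * Real.log lam ≤ κ * Real.log T₁ := by
    have h3 : Real.log lam / κ ≤ Real.log T₁ := by
      rw [← Real.log_exp (Real.log lam / κ)]
      exact Real.log_le_log (Real.exp_pos _) (by rw [hT₁d]; exact le_max_right _ _)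
    rw [div_le_iff₀ hκ] at h3
    rw [Nat.cast_one, one_mul]
    linarith
  obtain ⟨u₀, hu₀, hu₀2, hsm⟩ := small
    (L := max (max 1 (Real.log T₁)) (Real.log M / ε)) (κ := κ * δ / 4) (by positivity)
  refine ⟨u₀, hu₀, hu₀2, fun u hu huu => ?_⟩
  obtain ⟨hL, hul⟩ := hsm u hu huu
  obtain ⟨l, hld⟩ : ∃ l, l = Real.log (1 / u) := ⟨_, rfl⟩
  rw [← hld] at hL hul ⊢
  have hL1 : 1 ≤ l := le_trans (le_max_left _ _) (le_trans (le_max_left _ _) hL)
  have hL2 : Real.log T₁ ≤ l := le_trans (le_max_right _ _) (le_trans (le_max_left _ _) hL)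
  have hL3 : Real.log M ≤ ε * l := by
    have h := le_trans (le_max_right _ _) hL
    rw [div_le_iff₀ hε] at h
    linarith
  have hl0 : 0 < l := by linarith
  have hlu : Real.log u = -l := by rw [hld, one_div, Real.log_inv, neg_neg]
  have hu1 : u = Real.exp (-l) := by rw [← hlu, Real.exp_log hu]
  obtain ⟨V, hVd⟩ : ∃ V, V = u ^ (-(1 + ε)) := ⟨_, rfl⟩
  rw [← hVd]
  have hVe : V = Real.exp ((1 + ε) * l) := by
    rw [hVd, Real.rpow_def_of_pos hu, hlu]
    congr 1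
    ring
  have hlV : Real.log V = (1 + ε) * l := by rw [hVe, Real.log_exp]
  have hV0 : 0 < V := by rw [hVe]; exact Real.exp_pos _
  have hlV1 : l ≤ Real.log V := by
    rw [hlV]
    exact le_mul_of_one_le_left hl0.le (by linarith)
  have hVT : T₁ ≤ V := (Real.log_le_log_iff (by linarith) hV0).1 (by linarith)
  have hVu : M ≤ V * u := by
    have h3 : V * u = Real.exp (ε * l) := by
      rw [hVe, hu1, ← Real.exp_add]
      congr 1
      ring
    rw [h3, ← Real.exp_log hM]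
    exact Real.exp_le_exp.2 hL3
  -- the upper end
  have hκδ : κ * δ ≤ δ / 8 := by
    have := mul_le_mul_of_nonneg_right hκ8 hδ0.le
    linarith
  have hlVu : Real.log V * u ≤ κ * δ / 2 := by
    rw [hlV]
    have h3 : (1 + ε) * (u * l) ≤ 2 * (u * l) :=
      mul_le_mul_of_nonneg_right (by linarith) (by positivity)
    linarith
  have hul0 : u ≤ u * l := le_mul_of_one_le_right hu.le hL1
  have hW1 : Real.log V ≤ δ / u := by
    rw [le_div_iff₀ hu]
    linarith
  have hq : 0 ≤ (δ / u - Real.log V) / Real.log lam := div_nonneg (by linarith) hll.le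
  obtain ⟨m, hm⟩ : ∃ m : ℕ, m = ⌊(δ / u - Real.log V) / Real.log lam⌋₊ := ⟨_, rfl⟩
  have hm1 : (m : ℝ) * Real.log lam ≤ δ / u - Real.log V := by
    rw [← le_div_iff₀ hll, hm]
    exact Nat.floor_le hq
  have hm2 : δ / u - Real.log V < (m + 1) * Real.log lam := by
    rw [← div_lt_iff₀ hll, hm]
    exact Nat.lt_floor_add_one _
  obtain ⟨W, hWd⟩ : ∃ W, W = V * lam ^ m := ⟨_, rfl⟩
  have hlW : Real.log W = Real.log V + m * Real.log lam := by
    rw [hWd, Real.log_mul hV0.ne' (by positivity), Real.log_pow]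
  have hW2 : Real.log W ≤ δ / u := by rw [hlW]; linarith
  have hW3 : δ / u - Real.log lam ≤ Real.log W := by rw [hlW]; linarith
  have hW4 : δ / (2 * u) ≤ Real.log W := by
    have h3 : Real.log lam ≤ δ / (2 * u) := by
      rw [le_div_iff₀ (by positivity)]
      have h5 : Real.log lam * (2 * u) ≤ κ * (2 * u) :=
        mul_le_mul_of_nonneg_right hll1 (by positivity)
      have h7 : κ * (2 * u) ≤ 1 / 8 * (2 * u) := mul_le_mul_of_nonneg_right hκ8 (by positivity)
      linarith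
    have h4 : δ / u = δ / (2 * u) + δ / (2 * u) := by field_simp; norm_num
    linarith
  have hlW0 : 0 < Real.log W := lt_of_lt_of_le (by positivity) hW4
  have hWV : V ≤ W := by
    rw [hWd]
    exact le_mul_of_one_le_right hV0.le (one_le_pow₀ hl.le)
  have hVW : Real.log V ≤ κ * Real.log W := by
    have h3 : κ * (δ / (2 * u)) ≤ κ * Real.log W := mul_le_mul_of_nonneg_left hW4 hκ.le
    refine le_trans ?_ h3
    have h4 : κ * (δ / (2 * u)) = κ * δ / 2 / u := by field_simp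
    rw [h4, le_div_iff₀ hu]
    exact hlVu
  refine ⟨Ls hP W \ Ls hP V, fun v hv => ?_, ?_⟩
  · have h4 := (mem_sdiff.1 hv).2
    rw [mem_Ls, not_le] at h4
    have h5 : N v ≤ W := (mem_Ls hP).1 (mem_sdiff.1 hv).1
    have h6 : Real.log (N v) ≤ δ / u :=
      (Real.log_le_log (by linarith [h2 v]) h5).trans hW2
    have h7 := Real.log_le_log hV0 h4.le
    refine ⟨h4.le, by linarith, ?_, ?_⟩
    · rw [le_div_iff₀ hu] at h6
      linarith
    · exact hVu.trans (mul_le_mul_of_nonneg_right h4.le hu.le)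
  · have hsum : gr 1 hP W - gr 1 hP V = ∑ v ∈ Ls hP W \ Ls hP V, 1 / (N v * Real.log (N v)) := by
      rw [gr_sub 1 hP hWV]
      simp only [pow_one]
    rw [← hsum]
    have hlow := gr_low (r := 1) le_rfl hP h2 hl hκ.le (by linarith) hT₁3
      (fun T hT => hb T (hT₁0.trans hT)) hT₁l hVT m
    rw [← hWd] at hlow
    have hc := num4 hκ hlam
    have hd := num7 (r := 1) le_rfl hκ.le (by linarith) (show 0 < Real.log V by linarith) hlW0 hVW
    have h1κ : 0 ≤ 1 - κ := by linarith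
    refine le_trans ?_ hlow
    have h3 : (1 - κ) ^ 3 / ((1 : ℕ) : ℝ) ≤
        (1 - κ) ^ 2 * (lam - 1) / (lam * Real.log lam) / ((1 : ℕ) : ℝ) := by
      refine div_le_div_of_nonneg_right ?_ (by positivity)
      have e1 : (1 - κ) ^ 3 = (1 - κ) ^ 2 * (1 - κ) := by ring
      rw [e1, mul_div_assoc]
      exact mul_le_mul_of_nonneg_left hc (by positivity)
    have e2 : (1 - κ) ^ 4 / ((1 + ε) * l) =
        (1 - κ) ^ 3 / ((1 : ℕ) : ℝ) * ((1 - κ) / Real.log V ^ 1) := by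
      rw [hlV, Nat.cast_one]
      ring
    rw [e2]
    exact mul_le_mul h3 hd (by
      have : 0 < Real.log V := by linarith
      positivity) (le_trans (by positivity) h3)

/-- the local factor -/
noncomputable def lcj {n : ℕ} (β : Fin n → ℝ) (u N : ℝ) : ℝ :=
  1 + ∑ i, 1 / (N * (N ^ (β i * u) - 1))

/-- one summand of the local factor -/
theorem zi {κ b u n : ℝ} (hb : 0 < b) (hu : 0 < u) (hn0 : 0 < n) (hln : 1 ≤ Real.log n)
    (hδ : b * (u * Real.log n) ≤ κ) (hκ1 : κ ≤ 1 / 8) :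
    (1 - κ) * (1 / b) * (1 / u) * (1 / (n * Real.log n)) ≤ 1 / (n * (n ^ (b * u) - 1)) ∧
    1 / (n * (n ^ (b * u) - 1)) ≤ 1 / b * (1 / (n * u)) := by
  obtain ⟨x, hx⟩ : ∃ x, x = b * (u * Real.log n) := ⟨_, rfl⟩
  have hx0 : 0 < x := by rw [hx]; positivity
  have hx1 : x ≤ κ := by rw [hx]; exact hδ
  have hnu : n ^ (b * u) = Real.exp x := by
    rw [Real.rpow_def_of_pos hn0, hx]
    congr 1
    ring
  rw [hnu]
  have h1 : x ≤ Real.exp x - 1 := by linarith [Real.add_one_le_exp x]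
  have h2 : (1 - κ) * (Real.exp x - 1) ≤ x := by
    have h3 : 1 - x ≤ Real.exp (-x) := by linarith [Real.add_one_le_exp (-x)]
    have h4 : (1 - x) * Real.exp x ≤ 1 := by
      calc (1 - x) * Real.exp x ≤ Real.exp (-x) * Real.exp x :=
            mul_le_mul_of_nonneg_right h3 (Real.exp_pos x).le
        _ = 1 := by rw [← Real.exp_add, neg_add_cancel, Real.exp_zero]
    have h5 : (1 - x) * (Real.exp x - 1) ≤ x := by linarith
    have h6 : (1 - κ) * (Real.exp x - 1) ≤ (1 - x) * (Real.exp x - 1) :=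
      mul_le_mul_of_nonneg_right (by linarith) (by linarith)
    linarith
  obtain ⟨D, hD⟩ : ∃ D, D = Real.exp x - 1 := ⟨_, rfl⟩
  rw [← hD] at h1 h2 ⊢
  have hD0 : 0 < D := by linarith
  have hl0 : 0 < Real.log n := by linarith
  constructor
  · rw [le_div_iff₀ (by positivity)]
    have h13 : (1 - κ) * (1 / b) * (1 / u) * (1 / (n * Real.log n)) * (n * D) =
        (1 - κ) * D / x := by
      rw [hx]
      field_simp
    rw [h13, div_le_iff₀ hx0]
    linarith
  · have e1 : 1 / b * (1 / (n * u)) = 1 / (n * (b * u)) := by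
      field_simp
    rw [e1]
    refine one_div_le_one_div_of_le (by positivity) (mul_le_mul_of_nonneg_left ?_ hn0.le)
    refine le_trans ?_ h1
    rw [hx]
    have h6 : u ≤ u * Real.log n := le_mul_of_one_le_right hu.le hln
    exact mul_le_mul_of_nonneg_left h6 hb.le

/-- one term -/
theorem term {n : ℕ} {β : Fin n → ℝ} {κ u N : ℝ} (hβ : ∀ i, 0 < β i) (hκ : 0 < κ)
    (hκ1 : κ ≤ 1 / 8) (hu : 0 < u) (hn0 : 0 < N) (hln : 1 ≤ Real.log N)
    (hM : (∑ i, 1 / β i) / κ ≤ N * u) (hδ : ∀ i, β i * (u * Real.log N) ≤ κ) :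
    (1 - κ) ^ 2 * ((∑ i, 1 / β i) / u) * (1 / (N * Real.log N)) ≤ Real.log (lcj β u N) := by
  obtain ⟨z, hz⟩ : ∃ z, z = ∑ i, 1 / (N * (N ^ (β i * u) - 1)) := ⟨_, rfl⟩
  unfold lcj
  rw [← hz]
  have hz1 : (1 - κ) * ((∑ i, 1 / β i) / u) * (1 / (N * Real.log N)) ≤ z := by
    have e1 : (1 - κ) * ((∑ i, 1 / β i) / u) * (1 / (N * Real.log N)) =
        ∑ i, (1 - κ) * (1 / β i) * (1 / u) * (1 / (N * Real.log N)) := by
      rw [← Finset.sum_mul, ← Finset.sum_mul, ← Finset.mul_sum]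
      ring
    rw [e1, hz]
    exact Finset.sum_le_sum fun i _ => (zi (hβ i) hu hn0 hln (hδ i) hκ1).1
  have hS0 : 0 ≤ ∑ i, 1 / β i := Finset.sum_nonneg fun i _ => by
    have := hβ i
    positivity
  have hz0 : 0 ≤ z := by
    refine le_trans ?_ hz1
    have : 0 < Real.log N := by linarith
    have : 0 ≤ 1 - κ := by linarith
    positivity
  have hzu : z ≤ κ := by
    have h1 : z ≤ (∑ i, 1 / β i) * (1 / (N * u)) := by
      rw [hz, Finset.sum_mul]
      exact Finset.sum_le_sum fun i _ => (zi (hβ i) hu hn0 hln (hδ i) hκ1).2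
    refine h1.trans ?_
    rw [mul_one_div, div_le_iff₀ (by positivity)]
    rw [div_le_iff₀ hκ] at hM
    linarith
  have h7 : (1 - κ) * z ≤ Real.log (1 + z) := by
    have h8 := Real.one_sub_inv_le_log_of_pos (x := 1 + z) (by linarith)
    have h9 : (1 - z) * z ≤ 1 - (1 + z)⁻¹ := by
      have h10 : 1 - (1 + z)⁻¹ = z / (1 + z) := by
        field_simp
        ring
      rw [h10, le_div_iff₀ (by linarith)]
      have : 0 ≤ z * z * z := by positivity
      linarith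
    have h11 : (1 - κ) * z ≤ (1 - z) * z :=
      mul_le_mul_of_nonneg_right (by linarith) hz0
    linarith
  calc (1 - κ) ^ 2 * ((∑ i, 1 / β i) / u) * (1 / (N * Real.log N))
      = (1 - κ) * ((1 - κ) * ((∑ i, 1 / β i) / u) * (1 / (N * Real.log N))) := by ring
    _ ≤ (1 - κ) * z := mul_le_mul_of_nonneg_left hz1 (by linarith)
    _ ≤ _ := h7

/-- the sum of the logarithms of the local factors -/
theorem glow_sumj (h2 : ∀ v, 2 ≤ N v) (hint : ∀ v, ∃ n : ℕ, N v = n) (hP : PITn N)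
    {n : ℕ} (hn : 0 < n) (β : Fin n → ℝ) (hβ : ∀ i, 0 < β i) {ε : ℝ} (hε : 0 < ε)
    (hε1 : ε < 1 / 3) : ∃ u₀ : ℝ, 0 < u₀ ∧ u₀ < 1 / 2 ∧
    ∀ u : ℝ, 0 < u → u < u₀ → ∃ s : Finset ι, (∀ v ∈ s, u ^ (-(1 + ε)) ≤ N v) ∧
      (1 - 3 * ε) * ∑ i, 1 / (β i * (u * Real.log (1 / u))) <
        ∑ v ∈ s, Real.log (lcj β u (N v)) := by
  obtain ⟨κ, hκd⟩ : ∃ κ, κ = ε / 8 := ⟨_, rfl⟩
  have hκ : 0 < κ := by rw [hκd]; linarith
  have hκ8 : κ ≤ 1 / 8 := by rw [hκd]; linarith
  have hne : (univ : Finset (Fin n)).Nonempty := ⟨⟨0, hn⟩, mem_univ _⟩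
  obtain ⟨S, hS⟩ : ∃ S, S = ∑ i, 1 / β i := ⟨_, rfl⟩
  have hS0 : 0 < S := by
    rw [hS]
    exact Finset.sum_pos (fun i _ => by have := hβ i; positivity) hne
  obtain ⟨B, hB⟩ : ∃ B, B = ∑ i, β i := ⟨_, rfl⟩
  have hB0 : 0 < B := by
    rw [hB]
    exact Finset.sum_pos (fun i _ => hβ i) hne
  obtain ⟨u₀, hu₀, hu₀2, H⟩ := win h2 hint hP (δ := κ / B) (M := S / κ) hε hε1 hκd
    (by positivity) (by positivity)
  refine ⟨u₀, hu₀, hu₀2, fun u hu huu => ?_⟩
  obtain ⟨s, hs, hs2⟩ := H u hu huu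
  refine ⟨s, fun v hv => (hs v hv).1, ?_⟩
  have hl : 0 < Real.log (1 / u) := Real.log_pos (by
    rw [lt_div_iff₀ hu]
    linarith)
  obtain ⟨l, hld⟩ : ∃ l, l = Real.log (1 / u) := ⟨_, rfl⟩
  rw [← hld] at hl hs2 ⊢
  have hsum : (1 - κ) ^ 2 * (S / u) * ∑ v ∈ s, 1 / (N v * Real.log (N v)) ≤
      ∑ v ∈ s, Real.log (lcj β u (N v)) := by
    rw [mul_sum]
    refine sum_le_sum fun v hv => ?_
    obtain ⟨-, h4, h5, h6⟩ := hs v hv
    rw [hS] at h6 ⊢
    refine term hβ hκ hκ8 hu (by linarith [h2 v]) h4 h6 fun i => ?_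
    have h7 : β i ≤ B := by
      rw [hB]
      exact Finset.single_le_sum (fun j _ => (hβ j).le) (mem_univ i)
    have h8 : 0 ≤ u * Real.log (N v) := by
      have : 0 < Real.log (N v) := by linarith
      positivity
    calc β i * (u * Real.log (N v)) ≤ B * (u * Real.log (N v)) := mul_le_mul_of_nonneg_right h7 h8
      _ ≤ B * (κ / B) := mul_le_mul_of_nonneg_left h5 hB0.le
      _ = κ := by field_simp
  refine lt_of_lt_of_le ?_ (le_trans (mul_le_mul_of_nonneg_left hs2 (by positivity)) hsum)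
  have e1 : (1 - 3 * ε) * ∑ i, 1 / (β i * (u * l)) = (1 - 3 * ε) * (S / (u * l)) := by
    congr 1
    rw [hS, Finset.sum_div]
    refine Finset.sum_congr rfl fun i _ => ?_
    rw [one_div, one_div, mul_inv, div_eq_mul_inv]
  have e2 : (1 - κ) ^ 2 * (S / u) * ((1 - κ) ^ 4 / ((1 + ε) * l)) =
      (1 - κ) ^ 6 * (1 / (1 + ε)) * (S / (u * l)) := by
    field_simp
  rw [e1, e2]
  refine mul_lt_mul_of_pos_right ?_ (by positivity)
  refine lt_of_lt_of_le (num5 hε hε1 hκd) (mul_le_mul_of_nonneg_left ?_ (by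
    have : 0 ≤ 1 - κ := by linarith
    positivity))
  rw [le_div_iff₀ (by linarith)]
  have : 0 ≤ ε * ε := by positivity
  linarith

end an

/-! ### The local sums -/

section loc

variable {n : ℕ}

open Classical in
/-- local weight -/
noncomputable def lw (β : Fin n → ℝ) (u N : ℝ) (e : Fin n → ℕ) : ℝ :=
  Real.exp (-(∑ i, β i * u * (((e i : ℝ) - if e i = 0 then 0 else 1) * Real.log N)) -
    if e = 0 then 0 else Real.log N)

open Classical in
/-- the exponent vectors with at most one nonzero entry, which is between `2` and `J + 1` -/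
noncomputable def EJ (n J : ℕ) : Finset (Fin n → ℕ) :=
  insert 0 ((univ ×ˢ range J).image fun q : Fin n × ℕ => Pi.single q.1 (q.2 + 2))

theorem mem_EJ {J : ℕ} {e : Fin n → ℕ} (he : e ∈ EJ n J) :
    e = 0 ∨ ∃ (i : Fin n) (j : ℕ), e = Pi.single i (j + 2) := by
  rcases mem_insert.1 he with h | h
  · exact Or.inl h
  · obtain ⟨q, -, rfl⟩ := mem_image.1 h
    exact Or.inr ⟨q.1, q.2, rfl⟩

theorem EJ_cop {J : ℕ} {e : Fin n → ℕ} (he : e ∈ EJ n J) {i i' : Fin n} (h : i ≠ i') :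
    e i = 0 ∨ e i' = 0 := by
  rcases mem_EJ he with rfl | ⟨k, j, rfl⟩
  · exact Or.inl rfl
  · by_cases h1 : i = k
    · right
      subst h1
      exact Pi.single_eq_of_ne h.symm _
    · left
      exact Pi.single_eq_of_ne h1 _

theorem EJ_sq {J : ℕ} {e : Fin n → ℕ} (he : e ∈ EJ n J) : ∑ i, e i ≠ 1 := by
  rcases mem_EJ he with rfl | ⟨k, j, rfl⟩
  · simp
  · rw [Finset.sum_pi_single']
    simp

theorem single_ne (i : Fin n) (j : ℕ) : (Pi.single i (j + 2) : Fin n → ℕ) ≠ 0 := by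
  intro h
  have h1 := congrFun h i
  rw [Pi.single_eq_same, Pi.zero_apply] at h1
  omega

theorem single_inj : Function.Injective fun q : Fin n × ℕ => (Pi.single q.1 (q.2 + 2) : Fin n → ℕ) := by
  rintro ⟨i, j⟩ ⟨i', j'⟩ h
  simp only at h
  have h1 := congrFun h i
  rw [Pi.single_eq_same] at h1
  by_cases h2 : i = i'
  · subst h2
    rw [Pi.single_eq_same] at h1
    have h3 : j = j' := by omega
    rw [h3]
  · rw [Pi.single_eq_of_ne h2] at h1
    omega

theorem lw_zero (β : Fin n → ℝ) (u N : ℝ) : lw β u N 0 = 1 := by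
  unfold lw
  simp

theorem lw_single (β : Fin n → ℝ) (u : ℝ) {N : ℝ} (hN : 0 < N) (i : Fin n) (j : ℕ) :
    lw β u N (Pi.single i (j + 2)) = N⁻¹ * (N ^ (-(β i * u))) ^ (j + 1) := by
  unfold lw
  rw [if_neg (single_ne i j), Finset.sum_eq_single i]
  · rw [Pi.single_eq_same, if_neg (by omega)]
    have h3 : N⁻¹ = Real.exp (-Real.log N) := by
      rw [Real.exp_neg, Real.exp_log hN]
    have h4 : (N ^ (-(β i * u))) ^ (j + 1) =
        Real.exp (((j : ℝ) + 1) * (Real.log N * -(β i * u))) := by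
      rw [Real.rpow_def_of_pos hN, ← Real.exp_nat_mul]
      push_cast
      rfl
    rw [h3, h4, ← Real.exp_add]
    congr 1
    push_cast
    ring
  · intro k _ hk
    rw [Pi.single_eq_of_ne hk, if_pos rfl]
    simp
  · intro h
    exact absurd (mem_univ _) h

theorem sum_EJ (β : Fin n → ℝ) (u : ℝ) {N : ℝ} (hN : 0 < N) (J : ℕ) :
    ∑ e ∈ EJ n J, lw β u N e =
      1 + ∑ i, N⁻¹ * ∑ j ∈ range J, (N ^ (-(β i * u))) ^ (j + 1) := by
  unfold EJ
  rw [sum_insert, sum_image fun q _ q' _ h => single_inj h, lw_zero, Finset.sum_product]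
  · congr 1
    refine sum_congr rfl fun i _ => ?_
    rw [mul_sum]
    exact sum_congr rfl fun j _ => lw_single β u hN i j
  · intro h
    obtain ⟨q, -, h1⟩ := mem_image.1 h
    exact single_ne q.1 q.2 h1

theorem loc_lim {β : Fin n → ℝ} (hβ : ∀ i, 0 < β i) {u N : ℝ} (hu : 0 < u) (hN : 2 ≤ N) :
    Tendsto (fun J => ∑ e ∈ EJ n J, lw β u N e) atTop (𝓝 (lcj β u N)) := by
  have hN0 : 0 < N := by linarith
  simp only [sum_EJ β u hN0]
  unfold lcj
  refine tendsto_const_nhds.add (tendsto_finsetSum _ fun i _ => ?_)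
  have hb : 0 < β i * u := mul_pos (hβ i) hu
  have hy : 1 < N ^ (β i * u) := Real.one_lt_rpow (by linarith) hb
  have hx : N ^ (-(β i * u)) = (N ^ (β i * u))⁻¹ := Real.rpow_neg hN0.le _
  have hx0 : 0 ≤ (N ^ (β i * u))⁻¹ := by positivity
  have hx1 : (N ^ (β i * u))⁻¹ < 1 := inv_lt_one_of_one_lt₀ hy
  have h1 := (hasSum_geometric_of_lt_one hx0 hx1).tendsto_sum_nat
  have h2 := (h1.const_mul ((N ^ (β i * u))⁻¹)).const_mul N⁻¹
  have h3 : N⁻¹ * ((N ^ (β i * u))⁻¹ * (1 - (N ^ (β i * u))⁻¹)⁻¹) =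
      1 / (N * (N ^ (β i * u) - 1)) := by
    have h4 : N ^ (β i * u) ≠ 0 := by positivity
    have h5 : N ^ (β i * u) - 1 ≠ 0 := by linarith
    field_simp
  rw [h3] at h2
  refine h2.congr fun J => ?_
  rw [hx, mul_sum]
  congr 1
  exact sum_congr rfl fun j _ => (pow_succ' _ _).symm

end loc

/-! ### The tuples -/

section tup

variable {K : Type} [Field K] [NumberField K] {n : ℕ}

theorem len_s (a : Idl K) {s : Finset (Pr K)} (h : a.support ⊆ s) :
    len a - rl a = ∑ v ∈ s, ((a v : ℝ) - if a v = 0 then 0 else 1) * Real.log (Nv v) := by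
  unfold len rl
  rw [← Finset.sum_sub_distrib]
  rw [← Finset.sum_subset h fun v _ hv => ?_]
  · refine Finset.sum_congr rfl fun v hv => ?_
    rw [if_neg (Finsupp.mem_support_iff.1 hv)]
    ring
  · rw [Finsupp.notMem_support_iff.1 hv]
    simp

open Classical in
theorem weight (β : Fin n → ℝ) (u : ℝ) (s : Finset (Pr K)) (D : Fin n → Idl K) (hD : sp D ⊆ s) :
    Real.exp (-(∑ i, β i * u * (len (D i) - rl (D i))) - tr D) =
      ∏ v ∈ s, lw β u (Nv v) (fun i => D i v) := by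
  have h1 : ∑ i, β i * u * (len (D i) - rl (D i)) =
      ∑ v ∈ s, ∑ i, β i * u * (((D i v : ℝ) - if D i v = 0 then 0 else 1) * Real.log (Nv v)) := by
    rw [Finset.sum_comm]
    refine Finset.sum_congr rfl fun i _ => ?_
    rw [len_s (D i) (s := s) (fun v hv => hD (mem_sp.2 ⟨i, Finsupp.mem_support_iff.1 hv⟩)),
      Finset.mul_sum]
  have h2 : tr D = ∑ v ∈ s, if v ∈ sp D then Real.log (Nv v) else 0 := by
    unfold tr
    rw [← Finset.sum_filter, Finset.filter_mem_eq_inter, Finset.inter_eq_right.2 hD]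
  rw [h1, h2, ← Finset.sum_neg_distrib, ← Finset.sum_sub_distrib, Real.exp_sum]
  refine Finset.prod_congr rfl fun v hv => ?_
  unfold lw
  congr 2
  by_cases h : v ∈ sp D
  · have hne : (fun i => D i v) ≠ 0 := by
      obtain ⟨i, hi⟩ := mem_sp.1 h
      exact fun h0 => hi (congrFun h0 i)
    rw [if_pos h, if_neg hne]
  · have h0 : (fun i => D i v) = 0 := by
      funext i
      by_contra hi
      exact h (mem_sp.2 ⟨i, hi⟩)
    rw [if_neg h, if_pos h0]

theorem mk_prop {J : ℕ} {s : Finset (Pr K)} {p : ∀ v ∈ s, Fin n → ℕ}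
    (hp : ∀ v (h : v ∈ s), p v h ∈ EJ n J) :
    (∀ i j, i ≠ j → Cop (mk s p i) (mk s p j)) ∧ Sq (mk s p) := by
  constructor
  · intro i j hij v
    by_cases h : v ∈ s
    · rw [mk_in p h, mk_in p h]
      exact EJ_cop (hp v h) hij
    · exact Or.inl (mk_out p h i)
  · intro v
    by_cases h : v ∈ s
    · rw [Finset.sum_congr rfl fun i _ => mk_in p h i]
      exact EJ_sq (hp v h)
    · rw [Finset.sum_congr rfl fun i _ => mk_out p h i]
      simp

open Classical in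
theorem sum_mk (β : Fin n → ℝ) (J : ℕ) (u : ℝ) (s : Finset (Pr K)) :
    ∑ D ∈ (s.pi fun _ => EJ n J).image (mk s),
        Real.exp (-(∑ i, β i * u * (len (D i) - rl (D i))) - tr D) =
      ∏ v ∈ s, ∑ e ∈ EJ n J, lw β u (Nv v) e := by
  rw [sum_image fun p _ q _ h => mk_inj s h, Finset.prod_sum]
  refine sum_congr rfl fun p _ => ?_
  rw [weight β u s _ (mk_sp p), ← prod_attach]
  refine prod_congr rfl fun v _ => ?_
  congr 1
  exact funext fun i => mk_in p v.2 i

end tup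

theorem glowj (K : Type) [Field K] [NumberField K] : S_GLOWJ K := by
  classical
  intro n β ε hβ hε hε1
  rcases Nat.eq_zero_or_pos n with hn | hn
  · subst hn
    refine ⟨1 / 4, by norm_num, by norm_num, fun u _ _ => ⟨{fun _ => 0}, ?_, ?_⟩⟩
    · intro D hD
      have hD0 : ∀ i, D i = 0 := fun i => i.elim0
      refine ⟨fun i => i.elim0, fun v => by simp, fun v hv => ?_⟩
      obtain ⟨i, -⟩ := mem_sp.1 hv
      exact i.elim0
    · rw [Finset.sum_singleton]
      have h0 : sp (fun _ : Fin 0 => (0 : Idl K)) = ∅ := by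
        rw [Finset.eq_empty_iff_forall_notMem]
        intro v hv
        obtain ⟨i, -⟩ := mem_sp.1 hv
        exact i.elim0
      have h1 : tr (fun _ : Fin 0 => (0 : Idl K)) = 0 := by
        unfold tr
        rw [h0, Finset.sum_empty]
      rw [h1]
      simp
  obtain ⟨u₀, hu0, hu1, H⟩ := glow_sumj (ι := Pr K) (N := fun v => Nv v) (fun v => two_le_Nv v)
    (fun v => ⟨Ideal.absNorm v.asIdeal, rfl⟩) (Pool.Agent.N134.RS.pit K) hn β hβ hε hε1
  refine ⟨u₀, hu0, hu1, fun u hu huu => ?_⟩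
  obtain ⟨s, hs, hb⟩ := H u hu huu
  have hpos : ∀ v ∈ s, 0 < lcj β u (Nv v) := by
    intro v _
    have h2 := two_le_Nv v
    have h4 : 0 < Nv v := by linarith
    unfold lcj
    have h5 : 0 ≤ ∑ i, 1 / (Nv v * (Nv v ^ (β i * u) - 1)) := Finset.sum_nonneg fun i _ => by
      have hy : 1 < Nv v ^ (β i * u) := Real.one_lt_rpow (by linarith) (mul_pos (hβ i) hu)
      have h3 : 0 < Nv v ^ (β i * u) - 1 := by linarith
      positivity
    linarith
  have hprod : Real.exp (∑ v ∈ s, Real.log (lcj β u (Nv v))) = ∏ v ∈ s, lcj β u (Nv v) := by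
    rw [Real.exp_sum]
    exact prod_congr rfl fun v hv => Real.exp_log (hpos v hv)
  have hlim : Tendsto (fun J => ∏ v ∈ s, ∑ e ∈ EJ n J, lw β u (Nv v) e) atTop
      (𝓝 (∏ v ∈ s, lcj β u (Nv v))) :=
    tendsto_finsetProd _ fun v _ => loc_lim hβ hu (two_le_Nv v)
  have hlt : Real.exp ((1 - 3 * ε) * ∑ i, 1 / (β i * (u * Real.log (1 / u)))) <
      ∏ v ∈ s, lcj β u (Nv v) := by
    rw [← hprod]
    exact Real.exp_lt_exp.2 hb
  obtain ⟨J, hJ⟩ := (hlim.eventually (lt_mem_nhds hlt)).exists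
  refine ⟨(s.pi fun _ => EJ n J).image (mk s), ?_, ?_⟩
  · intro D hD
    obtain ⟨p, hp, rfl⟩ := mem_image.1 hD
    have h1 := mk_prop (s := s) (p := p) (J := J) fun v h => Finset.mem_pi.1 hp v h
    exact ⟨h1.1, h1.2, fun v hv => hs v (mk_sp p hv)⟩
  · rw [sum_mk]
    exact hJ.le

end Pool.Agent.N711.QP
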