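import Pool.Agent.N709.ST.Stm

/-!
# Project ST: free amalgamation from its parts
-/

set_option autoImplicit false

namespace Pool.Agent.N711.ST

open Pool.Agent.N709.ST

theorem freeamof : Pool.Agent.N709.ST.FreeAmOf := by
  intro hSub hIso hCol hDl hGood s t hst cB cA p C B A hA hB hCB hDA hp hNC
  obtain ⟨c', f, hfp, hf, hAE, hcA, hcom, hmix⟩ := hCol t cB cA p C B A hCB.1 hDA.1 hp
  have hinj : Set.InjOn f (B : Set ℕ) := hf.1
  have hfC : C.image f = C.image p := Finset.image_congr fun x hx => hfp x hx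
  have hDE : C.image p ⊆ B.image f := by
    rw [← hAE]
    exact Finset.inter_subset_right
  -- the predimensions
  have dlA : ∀ Y ⊆ A, dl s t c' Y = dl s t cA Y := by
    intro Y hY
    have : cs t c' Y = cs t cA Y := by
      unfold cs
      refine Finset.image_congr fun S hS => ?_
      have hS' := Finset.mem_powersetCard.1 (Finset.mem_coe.1 hS)
      exact hcA S (hS'.1.trans hY) hS'.2
    unfold dl
    rw [this]
  have dlE : ∀ Y ⊆ B, dl s t c' (Y.image f) = dl s t cB Y := (hIso t cB c' f B hf).1 s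
  have dlD : dl s t c' (C.image p) = dl s t cB C := by
    rw [← hfC]
    exact dlE C hCB.1
  -- preimages
  have hpre : ∀ S' ⊆ B.image f, ∃ S'' ⊆ B, S''.image f = S' ∧ S''.card = S'.card := by
    intro S' hS'
    obtain ⟨S'', h1, h2⟩ := Finset.subset_image_iff.1 hS'
    refine ⟨S'', by exact_mod_cast h1, h2, ?_⟩
    rw [← h2, Finset.card_image_of_injOn (hinj.mono h1)]
  have hcom' : ∀ S' ⊆ B.image f, S'.card = t → ¬ S' ⊆ A → ∀ S ⊆ A, S.card = t → c' S' = c' S →
      ∃ S'' ⊆ B, S''.image f = S' ∧ S''.card = t ∧ ¬ S'' ⊆ C ∧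
        ∃ T ⊆ C, T.card = t ∧ cB S'' = cB T ∧ cA S = cA (T.image p) := by
    intro S' hS' hc hn S hS hSc he
    obtain ⟨S'', h1, h2, h3⟩ := hpre S' hS'
    have hnC : ¬ S'' ⊆ C := by
      intro h4
      apply hn
      rw [← h2]
      have h5 : S''.image f ⊆ C.image f := Finset.image_subset_image h4
      rw [hfC] at h5
      exact h5.trans hDA.1
    refine ⟨S'', h1, h2, h3.trans hc, hnC, ?_⟩
    exact hcom S'' h1 (h3.trans hc) hnC S hS hSc (by rw [h2]; exact he)
  have hY := hDl s t c' A (B.image f) (C.image p) hAE (by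
    intro S' hS' hc hn S hS hSc he
    obtain ⟨S'', -, -, -, -, T, hT, hTc, -, h6⟩ := hcom' S' hS' hc hn S hS hSc he
    have h7 : T.image p ⊆ C.image p := Finset.image_subset_image hT
    have h8 : (T.image p).card = t := by
      rw [Finset.card_image_of_injOn (hp.1.mono (Finset.coe_subset.2 hT)), hTc]
    refine ⟨T.image p, h7, h8, ?_⟩
    rw [hcA S hS hSc, hcA _ (h7.trans hDA.1) h8]
    exact h6) hmix
  -- strong embeddings
  have hSA : Str s t c' A (A ∪ B.image f) := by
    refine ⟨Finset.subset_union_left, fun Y h1 h2 => ?_⟩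
    rw [hY Y (hDA.1.trans h1) h2, Finset.inter_eq_right.2 h1]
    obtain ⟨Y'', h3, h4, -⟩ := hpre (Y ∩ B.image f) Finset.inter_subset_right
    have h5 : C ⊆ Y'' := by
      intro x hx
      have h6 : f x ∈ Y ∩ B.image f := by
        refine Finset.mem_inter.2 ⟨h1 (hDA.1 ?_), Finset.mem_image_of_mem f (hCB.1 hx)⟩
        rw [hfp x hx]
        exact Finset.mem_image_of_mem p hx
      rw [← h4] at h6
      obtain ⟨y, hy, hyx⟩ := Finset.mem_image.1 h6
      have := hinj (Finset.mem_coe.2 (h3 hy)) (Finset.mem_coe.2 (hCB.1 hx)) hyx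
      rw [← this]
      exact hy
    have h7 := hCB.2 Y'' h5 h3
    rw [← h4, dlE Y'' h3, dlD]
    linarith
  have hSE : Str s t c' (B.image f) (A ∪ B.image f) := by
    refine ⟨Finset.subset_union_right, fun Y h1 h2 => ?_⟩
    rw [hY Y (hDE.trans h1) h2, Finset.inter_eq_right.2 h1]
    have h3 := hDA.2 (Y ∩ A) (Finset.subset_inter (hDE.trans h1) hDA.1) Finset.inter_subset_right
    rw [dlA (Y ∩ A) Finset.inter_subset_right, dlA (C.image p) hDA.1]
    linarith
  have hGA : Good s t c' A := by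
    intro Y h1
    rw [dlA Y h1]
    exact hA Y h1
  have hGE : Good s t c' (B.image f) := by
    intro Y h1
    obtain ⟨Y'', h3, h4, h5⟩ := hpre Y h1
    rw [← h4, dlE Y'' h3, h4, ← h5]
    exact hB Y'' h3
  have hG : Good s t c' (A ∪ B.image f) := by
    refine hGood hSub s t hst c' A (B.image f) hGA hGE hSA hSE ?_ hmix
    intro S' hS' hc hn S hS hSc hnS he
    obtain ⟨S'', k1, k2, k3, k4, T, hT, hTc, k5, k6⟩ := hcom' S' hS' hc hn S hS hSc he
    have hnD : ¬ S ⊆ C.image p := fun h => hnS (h.trans hDE)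
    have h1 := hNC S'' k1 k3 k4 S hS hSc hnD T hT hTc k5 k6
    refine lt_of_le_of_lt (Finset.card_le_card ?_) h1
    intro x hx
    obtain ⟨hxS, hxS'⟩ := Finset.mem_inter.1 hx
    refine Finset.mem_inter.2 ⟨hxS, ?_⟩
    have hxD : x ∈ C.image p := by
      rw [← hAE]
      exact Finset.mem_inter.2 ⟨hS hxS, hS' hxS'⟩
    obtain ⟨y, hy, hyx⟩ := Finset.mem_image.1 hxD
    rw [← k2] at hxS'
    obtain ⟨z, hz, hzx⟩ := Finset.mem_image.1 hxS'
    have hzy : z = y := by
      refine hinj (Finset.mem_coe.2 (k1 hz)) (Finset.mem_coe.2 (hCB.1 hy)) ?_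
      rw [hzx, hfp y hy, hyx]
    rw [hzy] at hz
    rw [← hyx]
    exact Finset.mem_image_of_mem p (Finset.mem_inter.2 ⟨hz, hy⟩)
  exact ⟨A ∪ B.image f, c', f, ⟨Finset.subset_union_left, hcA, hG, hSA⟩, hfp, hf, hSE⟩

end Pool.Agent.N711.ST
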